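import Pool.Agent.H832R2.H3

/-!
Computations in the group ring by search trees, and the final criterion.
-/

namespace Pool.Agent.H832R2

open Matrix Pool.Agent.Helper386.PD3

/-- search trees -/
inductive Tr
  | nil : Tr
  | node : Tr → ℕ → ℤ → Tr → Tr

namespace Tr

/-- insertion -/
def ins : Tr → ℕ → ℤ → Tr
  | nil, k, v => node nil k v nil
  | node l k' v' r, k, v =>
    if k < k' then node (ins l k v) k' v' r
    else if k' < k then node l k' v' (ins r k v) else node l k' (v' + v) r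

/-- all values vanish -/
def allz : Tr → Bool
  | nil => true
  | node l _ v r => allz l && (v == 0) && allz r

end Tr

/-- insert all products of a code with the terms of a list -/
def goList (mul : ℕ → ℕ → ℕ) (c0 : ℕ) (sg : ℤ) : List (ℤ × List ℕ) → Tr → Tr
  | [], T => T
  | (n, l) :: L, T => goList mul c0 sg L (T.ins (l.foldl mul c0) (sg * n))

/-- insert target terms -/
def goTar : List (ℤ × ℕ) → Tr → Tr
  | [], T => T
  | (n, w) :: L, T => goTar L (T.ins w n)

/-- the whole computation for one component -/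
def goF (D : SD) (mul : ℕ → ℕ → ℕ) (cV : ℕ → ℕ) (L : ℕ → List (ℤ × List ℕ)) (i : ℕ) : ℕ → Tr → Tr
  | 0, T => T
  | k + 1, T =>
    if D.idx k = i then
      goList mul (cV (D.src (D.f01 k))) (D.sgn k) (L (D.tl k)) (goF D mul cV L i k T)
    else goF D mul cV L i k T

/-- sums -/
def sumTo : ℕ → (ℕ → ℤ) → ℤ
  | 0, _ => 0
  | n + 1, F => sumTo n F + F n

theorem sumTo_eq (n : ℕ) (F : ℕ → ℤ) : ∑ f : Fin n, F f = sumTo n F := by
  induction n with
  | zero => simp [sumTo]
  | succ n ih => rw [Fin.sum_univ_castSucc, sumTo, ← ih]; rfl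

noncomputable section

section tree

variable {P : Type} [Group P] (S : Sys P)

/-- value of a tree -/
def trE : Tr → MonoidAlgebra ℤ P
  | Tr.nil => 0
  | Tr.node l k v r => trE l + v • DCx.gr (S.ev k) + trE r

theorem trE_ins (T : Tr) (k : ℕ) (v : ℤ) : trE S (T.ins k v) = trE S T + v • DCx.gr (S.ev k) := by
  induction T with
  | nil => simp [Tr.ins, trE]
  | node l k' v' r ihl ihr =>
    unfold Tr.ins
    split_ifs with h1 h2
    · rw [trE, ihl, trE]; abel
    · rw [trE, ihr, trE]; abel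
    · have : k = k' := by omega
      rw [trE, trE, this, add_smul]; abel

theorem trE_allz (T : Tr) (h : T.allz = true) : trE S T = 0 := by
  induction T with
  | nil => rfl
  | node l k v r ihl ihr =>
    simp only [Tr.allz, Bool.and_eq_true, beq_iff_eq] at h
    rw [trE, ihl h.1.1, ihr h.2, h.1.2, zero_smul]; simp

/-- value of a word -/
def evl (l : List ℕ) : P := (l.map S.lt).prod

/-- value of a list of words -/
def XL (L : List (ℤ × List ℕ)) : MonoidAlgebra ℤ P :=
  (L.map fun p => p.1 • DCx.gr (evl S p.2)).sum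

/-- value of a target -/
def TL (L : List (ℤ × ℕ)) : MonoidAlgebra ℤ P :=
  (L.map fun p => p.1 • DCx.gr (S.ev p.2)).sum

theorem ev_foldl (l : List ℕ) (hl : ∀ s ∈ l, S.vl s = true) (w : ℕ) (hw : S.vw w = true) :
    S.ev (l.foldl S.mul w) = S.ev w * evl S l := by
  induction l generalizing w with
  | nil => simp [evl]
  | cons s l ih =>
    have h1 := hl s List.mem_cons_self
    rw [List.foldl_cons, ih (fun s hs => hl s (List.mem_cons_of_mem _ hs)) _ (S.vmul _ _ hw h1),
      S.sound _ _ hw h1, mul_assoc]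
    rfl

theorem trE_goList (c0 : ℕ) (hc : S.vw c0 = true) (sg : ℤ) (L : List (ℤ × List ℕ))
    (hL : ∀ p ∈ L, ∀ s ∈ p.2, S.vl s = true) (T : Tr) :
    trE S (goList S.mul c0 sg L T) = trE S T + sg • (DCx.gr (S.ev c0) * XL S L) := by
  induction L generalizing T with
  | nil => simp [goList, XL]
  | cons p L ih =>
    obtain ⟨n, l⟩ := p
    rw [goList, ih (fun p hp => hL p (List.mem_cons_of_mem _ hp)), trE_ins,
      ev_foldl S l (hL _ List.mem_cons_self) c0 hc]
    have : XL S ((n, l) :: L) = n • DCx.gr (evl S l) + XL S L := by simp [XL]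
    rw [this, mul_add, smul_add, mul_smul_comm, ← DCx.gr_mul, mul_smul]
    abel

theorem trE_goTar (L : List (ℤ × ℕ)) (T : Tr) :
    trE S (goTar L T) = trE S T + TL S L := by
  induction L generalizing T with
  | nil => simp [goTar, TL]
  | cons p L ih =>
    obtain ⟨n, w⟩ := p
    rw [goTar, ih, trE_ins]
    have : TL S ((n, w) :: L) = n • DCx.gr (S.ev w) + TL S L := by simp [TL]
    rw [this]
    abel

end tree

namespace SD

variable {D : SD} {K : Cod} (h : D.Ok)

theorem W_eq (S : Sys (cx h).Pi1) (hK : K.Ok D S.mul S.vw S.vl)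
    (hV : ∀ v (hv : v < D.nV), gV h v hv = S.ev (K.cV v))
    (L : ℕ → List (ℤ × List ℕ)) (hL : ∀ t < D.nT, ∀ p ∈ L t, ∀ s ∈ p.2, S.vl s = true)
    (i : ℕ) (tar : List (ℤ × ℕ)) (hc : (goTar tar (goF D S.mul K.cV L i D.nF Tr.nil)).allz = true) :
    W h (fun t => XL S (L t)) i + TL S tar = 0 := by
  have h1 := trE_allz S _ hc
  rw [trE_goTar] at h1
  rw [← h1]
  congr 1
  have key : ∀ k (hk : k ≤ D.nF), trE S (goF D S.mul K.cV L i k Tr.nil) =
      ∑ f : Fin k, DCx.dl (i = D.idx f) • (D.sgn f •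
    (DCx.gr (gV h (D.src (D.f01 f)) (h.b2 _ (h.b3 f (lt_of_lt_of_le f.2 hk)).1).1) *
      XL S (L (D.tl f)))) := by
    intro k
    induction k with
    | zero => intro _; simp [goF, trE]
    | succ k ih =>
      intro hk
      rw [Fin.sum_univ_castSucc]
      have ih' := ih (by omega)
      have hkf : k < D.nF := by omega
      unfold goF
      split_ifs with hi
      · rw [trE_goList S _ (hK.v3 _ (h.b2 _ (h.b3 k hkf).1).1) _ _ (hL _ (h.b3 k hkf).2.2.2), ih',
          ← hV _ (h.b2 _ (h.b3 k hkf).1).1]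
        congr 1
        have : DCx.dl (i = D.idx k) = 1 := by simp [DCx.dl, hi]
        simp only [Fin.val_last]
        rw [this, one_smul]
      · rw [ih']
        have : DCx.dl (i = D.idx k) = 0 := by
          unfold DCx.dl
          rw [if_neg (fun h' => hi h'.symm)]
        simp only [Fin.val_last]
        rw [this, zero_smul, add_zero]
        rfl
  rw [key D.nF le_rfl]
  rfl

/-- the augmented incidence number -/
def br (t : (cx h).T) (f : (cx h).H) : ℤ :=
  (if t = (cx h).f123 f then 1 else 0) - (if t = (cx h).f023 f then 1 else 0)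
    + (if t = (cx h).f013 f then 1 else 0) - (if t = (cx h).f012 f then 1 else 0)

/-- a degenerate cone -/
def tI (i : ℕ) (hi : i < D.nI) : (cx h).T := Sum.inr (Sum.inr ⟨i, hi⟩)
/-- a tetrahedron -/
def hH (f : Fin D.nF) : (cx h).H := f

theorem br_T (t : ℕ) (ht : t < D.nT) (f : Fin D.nF) :
    br h (tT h t ht) (hH h f) = if t = D.tl f then 1 else 0 := by
  unfold br
  have a1 : (tT h t ht = (cx h).f123 (hH h f)) ↔ t = D.tl f := by
    change (Sum.inl ⟨t, ht⟩ : Fin D.nT ⊕ (Fin D.nS ⊕ Fin D.nI)) = Sum.inl ⟨D.tl f, _⟩ ↔ _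
    simp only [Sum.inl.injEq]
    exact Fin.mk.injEq .. ▸ Iff.rfl
  have a2 : ¬ (tT h t ht = (cx h).f023 (hH h f)) := by intro h'; cases h'
  have a3 : ¬ (tT h t ht = (cx h).f013 (hH h f)) := by intro h'; cases h'
  have a4 : ¬ (tT h t ht = (cx h).f012 (hH h f)) := by intro h'; cases h'
  rw [if_neg a2, if_neg a3, if_neg a4]
  simp only [a1]
  ring

theorem br_S (s : ℕ) (hs : s < D.nS) (f : Fin D.nF) :
    br h (tS h s hs) (hH h f) = D.inc f s := by
  unfold br
  have a1 : ¬ (tS h s hs = (cx h).f123 (hH h f)) := by intro h'; cases h'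
  have a2 : (tS h s hs = (cx h).f023 (hH h f)) ↔ s = D.f12 f := by
    change (Sum.inr (Sum.inl ⟨s, hs⟩) : Fin D.nT ⊕ (Fin D.nS ⊕ Fin D.nI)) = Sum.inr (Sum.inl ⟨D.f12 f, _⟩) ↔ _
    simp only [Sum.inr.injEq, Sum.inl.injEq]
    exact Fin.mk.injEq .. ▸ Iff.rfl
  have a3 : (tS h s hs = (cx h).f013 (hH h f)) ↔ s = D.f02 f := by
    change (Sum.inr (Sum.inl ⟨s, hs⟩) : Fin D.nT ⊕ (Fin D.nS ⊕ Fin D.nI)) = Sum.inr (Sum.inl ⟨D.f02 f, _⟩) ↔ _
    simp only [Sum.inr.injEq, Sum.inl.injEq]
    exact Fin.mk.injEq .. ▸ Iff.rfl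
  have a4 : (tS h s hs = (cx h).f012 (hH h f)) ↔ s = D.f01 f := by
    change (Sum.inr (Sum.inl ⟨s, hs⟩) : Fin D.nT ⊕ (Fin D.nS ⊕ Fin D.nI)) = Sum.inr (Sum.inl ⟨D.f01 f, _⟩) ↔ _
    simp only [Sum.inr.injEq, Sum.inl.injEq]
    exact Fin.mk.injEq .. ▸ Iff.rfl
  rw [if_neg a1]
  simp only [a2, a3, a4, inc]
  ring

theorem br_I (i : ℕ) (hi : i < D.nI) (f : Fin D.nF) :
    br h (tI h i hi) (hH h f) = 0 := by
  unfold br
  have a1 : ¬ (tI h i hi = (cx h).f123 (hH h f)) := by intro h'; cases h'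
  have a2 : ¬ (tI h i hi = (cx h).f023 (hH h f)) := by intro h'; cases h'
  have a3 : ¬ (tI h i hi = (cx h).f013 (hH h f)) := by intro h'; cases h'
  have a4 : ¬ (tI h i hi = (cx h).f012 (hH h f)) := by intro h'; cases h'
  rw [if_neg a1, if_neg a2, if_neg a3, if_neg a4]
  ring

theorem isCycle_of (i0 : ℕ) (h1 : ∀ s < D.nS, sumTo D.nF (fun f => D.fc i0 f * D.inc f s) = 0)
    (h2 : ∀ t < D.nT, sumTo D.nF (fun f => D.fc i0 f * (if t = D.tl f then 1 else 0)) = 0) :
    (cx h).IsCycle (fun f : Fin D.nF => D.fc i0 f) := by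
  have key : ∀ t, ∑ f : Fin D.nF, D.fc i0 f * br h t (hH h f) = 0 := by
    intro t
    rcases t with ⟨t, ht⟩ | ⟨s, hs⟩ | ⟨i, hi⟩
    · refine Eq.trans ?_ (h2 t ht)
      rw [← sumTo_eq]
      exact Finset.sum_congr rfl fun f _ => congrArg (fun z => D.fc i0 f * z) (br_T h t ht f)
    · refine Eq.trans ?_ (h1 s hs)
      rw [← sumTo_eq]
      exact Finset.sum_congr rfl fun f _ => congrArg (fun z => D.fc i0 f * z) (br_S h s hs f)
    · refine Finset.sum_eq_zero fun f _ => ?_
      exact (congrArg (fun z => D.fc i0 f * z) (br_I h i hi f)).trans (mul_zero _)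
  exact key

variable {root par pe : ℕ → ℕ}

theorem isPD3_SD (hd : D.Dual root par pe) (i0 : ℕ) (hi0 : i0 < D.nI)
    (h1 : ∀ s < D.nS, sumTo D.nF (fun f => D.fc i0 f * D.inc f s) = 0)
    (h2 : ∀ t < D.nT, sumTo D.nF (fun f => D.fc i0 f * (if t = D.tl f then 1 else 0)) = 0)
    (hcard : 1 + (D.nT + (D.nS + D.nI)) = (D.nE + D.nV) + D.nF)
    (hB : ∀ i < D.nI, i ≠ i0 → B h root i = 0)
    (hg : ∀ g : (cx h).Pi1, DCx.gr g • B h root i0 = B h root i0) : (cx h).IsPD3 := by
  refine (cx h).isPD3_of (fun f : Fin D.nF => D.fc i0 f) (isCycle_of h i0 h1 h2) ?_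
    (fun f : Fin D.nF => if (f : ℕ) = root i0 then D.sgn f else 0) ?_ ?_
  · have e1 : Fintype.card (cx h).T = D.nT + (D.nS + D.nI) := by
      change Fintype.card (Fin D.nT ⊕ (Fin D.nS ⊕ Fin D.nI)) = _
      simp
    have e2 : Fintype.card (cx h).E = D.nE + D.nV := by
      change Fintype.card (Fin D.nE ⊕ Fin D.nV) = _
      simp
    have e3 : Fintype.card (cx h).H = D.nF := by
      change Fintype.card (Fin D.nF) = _
      simp
    rw [e1, e2, e3, hcard]
  · have h3 := hd.r i0 hi0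
    change ∑ f : Fin D.nF, (if (f : ℕ) = root i0 then D.sgn f else 0) * D.fc i0 f = 1
    rw [Finset.sum_eq_single ⟨root i0, h3.1⟩]
    · simp only [if_true]
      rw [fc, if_pos h3.2, hd.sg _ h3.1]
    · intro f _ hf
      rw [if_neg (fun h' => hf (Fin.ext h')), zero_mul]
    · intro h'; exact absurd (Finset.mem_univ _) h'
  · intro x hx
    exact inj_of h hd i0 hB hg x hx

end SD

end

end Pool.Agent.H832R2
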