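import Pool.Agent.H832R2.Tabs
import Pool.Agent.H832R2.Comp

/-!
Normal forms in an amalgamated product of the two tables over their common subgroup.
-/

namespace Pool.Agent.H832R2

theorem tabA_lt : ∀ i < 24, ∀ j < 24, tabA i j < 24 := FA_ok.lt
theorem tabB_lt : ∀ i < 30, ∀ j < 30, tabB i j < 30 := FB_ok.lt

/-- right multiplication of a normal form by a letter; letters `< 24` are elements of the first
table, letters `24 + i` elements of the second table -/
def mulL (w l : ℕ) : ℕ :=
  if l < 24 then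
    if w / 8 % 8 = 1 ∨ w / 8 % 8 = 2 ∨ w / 8 % 8 = 3 then
      if tabA (6 * (w / 8 % 8) + w % 8) l < 6 then
        w / 64 * 8 + tabA (6 * (w / 8 % 8) + w % 8) l
      else (w / 64 * 8 + tabA (6 * (w / 8 % 8) + w % 8) l / 6) * 8 +
        tabA (6 * (w / 8 % 8) + w % 8) l % 6
    else
      if tabA (w % 8) l < 6 then w / 8 * 8 + tabA (w % 8) l
      else (w / 8 * 8 + tabA (w % 8) l / 6) * 8 + tabA (w % 8) l % 6
  else
    if 4 ≤ w / 8 % 8 then
      if tabB (6 * (w / 8 % 8 - 3) + w % 8) (l - 24) < 6 then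
        w / 64 * 8 + tabB (6 * (w / 8 % 8 - 3) + w % 8) (l - 24)
      else (w / 64 * 8 + (tabB (6 * (w / 8 % 8 - 3) + w % 8) (l - 24) / 6 + 3)) * 8 +
        tabB (6 * (w / 8 % 8 - 3) + w % 8) (l - 24) % 6
    else
      if tabB (w % 8) (l - 24) < 6 then w / 8 * 8 + tabB (w % 8) (l - 24)
      else (w / 8 * 8 + (tabB (w % 8) (l - 24) / 6 + 3)) * 8 + tabB (w % 8) (l - 24) % 6

noncomputable section

/-- compatible multiplicative maps from the two tables -/
structure AmRep (P : Type) [Group P] where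
  fA : ℕ → P
  fB : ℕ → P
  mA : ∀ i < 24, ∀ j < 24, fA (tabA i j) = fA i * fA j
  mB : ∀ i < 30, ∀ j < 30, fB (tabB i j) = fB i * fB j
  one : fA 1 = fB 1

namespace AmRep

variable {P : Type} [Group P] (R : AmRep P)

theorem fA0 : R.fA 0 = 1 := by
  have h := R.mA 0 (by norm_num) 0 (by norm_num)
  have h2 : tabA 0 0 = 0 := by
    have := tabA_dec 0 (by norm_num) 0 (by norm_num)
    simpa using this
  rw [h2] at h
  exact (mul_eq_left.1 h.symm)

theorem fB0 : R.fB 0 = 1 := by
  have h := R.mB 0 (by norm_num) 0 (by norm_num)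
  have h2 : tabB 0 0 = 0 := by
    have := tabB_dec 0 (by norm_num) 0 (by norm_num)
    simpa using this
  rw [h2] at h
  exact (mul_eq_left.1 h.symm)

theorem fAB : ∀ e < 6, R.fA e = R.fB e := by
  intro e
  induction e with
  | zero => intro _; rw [R.fA0, R.fB0]
  | succ e ih =>
    intro he
    have h1 := tabA_succ e (by omega)
    have h2 := tabB_succ e (by omega)
    rw [← h1, R.mA e (by omega) 1 (by norm_num), ih (by omega), R.one,
      ← R.mB e (by omega) 1 (by norm_num), h2, h1]

/-- value of a syllable -/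
def rp (d : ℕ) : P := if d ≤ 3 then R.fA (6 * d) else R.fB (6 * (d - 3))

/-- value of a sequence of syllables -/
def evS (n : ℕ) : P :=
  if h : n = 0 then 1 else
    have : n / 8 < n := Nat.div_lt_self (Nat.pos_of_ne_zero h) (by norm_num)
    evS (n / 8) * R.rp (n % 8)
termination_by n

theorem evS_eq (n : ℕ) : R.evS n = R.evS (n / 8) * R.rp (n % 8) := by
  by_cases h : n = 0
  · subst h
    have h1 : R.evS 0 = 1 := by rw [evS, dif_pos rfl]
    have h2 : R.rp 0 = 1 := by rw [rp, if_pos (by norm_num), mul_zero, R.fA0]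
    simp only [Nat.zero_div, Nat.zero_mod]
    rw [h1, h2, one_mul]
  · conv_lhs => rw [evS]
    rw [dif_neg h]

theorem evS_add (m d : ℕ) (hd : d < 8) : R.evS (m * 8 + d) = R.evS m * R.rp d := by
  rw [evS_eq]
  have h1 : (m * 8 + d) / 8 = m := by omega
  have h2 : (m * 8 + d) % 8 = d := by omega
  rw [h1, h2]

/-- value of a normal form -/
def ev (w : ℕ) : P := R.evS (w / 8) * R.fA (w % 8)

theorem ev_add (m e : ℕ) (he : e < 6) : R.ev (m * 8 + e) = R.evS m * R.fA e := by
  rw [ev]
  have h1 : (m * 8 + e) / 8 = m := by omega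
  have h2 : (m * 8 + e) % 8 = e := by omega
  rw [h1, h2]

/-- value of a letter -/
def lt (l : ℕ) : P := if l < 24 then R.fA l else R.fB (l - 24)

theorem put_A (m r : ℕ) (hr : r < 24) :
    R.ev (if r < 6 then m * 8 + r else (m * 8 + r / 6) * 8 + r % 6) = R.evS m * R.fA r := by
  split_ifs with h
  · exact R.ev_add m r h
  · rw [R.ev_add _ _ (Nat.mod_lt _ (by norm_num)), R.evS_add _ _ (by omega), rp,
      if_pos (by omega), mul_assoc, ← R.mA _ (by omega) _ (by omega), tabA_dec _ (by omega) _ (by omega)]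
    congr 2
    omega

theorem put_B (m r : ℕ) (hr : r < 30) :
    R.ev (if r < 6 then m * 8 + r else (m * 8 + (r / 6 + 3)) * 8 + r % 6) =
      R.evS m * R.fB r := by
  split_ifs with h
  · rw [R.ev_add m r h, R.fAB r h]
  · rw [R.ev_add _ _ (Nat.mod_lt _ (by norm_num)), R.evS_add _ _ (by omega), rp,
      if_neg (by omega), Nat.add_sub_cancel, mul_assoc, R.fAB _ (by omega),
      ← R.mB _ (by omega) _ (by omega), tabB_dec _ (by omega) _ (by omega)]
    congr 2
    omega

theorem sound (w l : ℕ) (hw : w % 8 < 6) (hl : l < 54) : R.ev (mulL w l) = R.ev w * R.lt l := by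
  have e64 : w / 64 = w / 8 / 8 := by omega
  have h0 : R.ev w = R.evS (w / 8) * R.fA (w % 8) := rfl
  unfold mulL lt
  by_cases h1 : l < 24
  · rw [if_pos h1, if_pos h1]
    by_cases h2 : w / 8 % 8 = 1 ∨ w / 8 % 8 = 2 ∨ w / 8 % 8 = 3
    · rw [if_pos h2, R.put_A _ _ (tabA_lt _ (by omega) _ h1), h0, R.evS_eq (w / 8),
        rp, if_pos (by omega), R.mA _ (by omega) _ h1, e64, mul_assoc, mul_assoc]
      congr 1
      rw [← mul_assoc, ← R.mA (6 * (w / 8 % 8)) (by omega) (w % 8) (by omega),
        tabA_dec _ (by omega) _ (by omega)]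
    · rw [if_neg h2, R.put_A _ _ (tabA_lt _ (by omega) _ h1), h0,
        R.mA _ (by omega) _ h1, mul_assoc]
  · rw [if_neg h1, if_neg h1]
    by_cases h2 : 4 ≤ w / 8 % 8
    · rw [if_pos h2, R.put_B _ _ (tabB_lt _ (by omega) _ (by omega)),
        h0, R.evS_eq (w / 8), rp, if_neg (by omega), R.mB _ (by omega) _ (by omega), e64,
        mul_assoc, mul_assoc, R.fAB _ (by omega)]
      congr 1
      rw [← mul_assoc, ← R.mB (6 * (w / 8 % 8 - 3)) (by omega) (w % 8) (by omega),
        tabB_dec _ (by omega) _ (by omega)]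
    · rw [if_neg h2, R.put_B _ _ (tabB_lt _ (by omega) _ (by omega)),
        h0, R.mB _ (by omega) _ (by omega), R.fAB _ (by omega), mul_assoc]

theorem mulL_mod (w l : ℕ) : mulL w l % 8 < 6 := by
  unfold mulL
  split_ifs <;> omega

/-- the system of codes -/
def sys : Sys P where
  ev := R.ev
  lt := R.lt
  mul := mulL
  vw w := decide (w % 8 < 6)
  vl l := decide (l < 54)
  ev0 := by
    have h1 : R.evS 0 = 1 := by rw [evS, dif_pos rfl]
    change R.evS (0 / 8) * R.fA (0 % 8) = 1
    simp only [Nat.zero_div, Nat.zero_mod]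
    rw [h1, R.fA0, one_mul]
  vmul w l hw hl := by
    simp only [decide_eq_true_eq] at *
    exact mulL_mod w l
  sound w l hw hl := by
    simp only [decide_eq_true_eq] at *
    exact R.sound w l hw hl

/-- naturality -/
theorem map_ev {P' : Type} [Group P'] (R' : AmRep P') (φ : P →* P')
    (hA : ∀ i < 24, φ (R.fA i) = R'.fA i) (hB : ∀ i < 30, φ (R.fB i) = R'.fB i) (w : ℕ)
    (hw : w % 8 < 6) : φ (R.ev w) = R'.ev w := by
  have h1 : ∀ n, φ (R.evS n) = R'.evS n := by
    intro n
    induction n using Nat.strong_induction_on with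
    | _ n ih =>
      by_cases h : n = 0
      · subst h
        rw [evS, dif_pos rfl, evS, dif_pos rfl, map_one]
      · rw [R.evS_eq, R'.evS_eq, map_mul, ih (n / 8) (Nat.div_lt_self (Nat.pos_of_ne_zero h) (by norm_num))]
        congr 1
        unfold rp
        split_ifs with h2
        · exact hA _ (by omega)
        · exact hB _ (by omega)
  rw [ev, ev, map_mul, h1, hA _ (by omega)]

end AmRep

end

end Pool.Agent.H832R2
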