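import Pool.Agent.H832R2.DatX

namespace Pool.Agent.H832R2

theorem DX_ok : DX.Ok where
  b1 := by decide +kernel
  b2 := by decide +kernel
  b3 := by decide +kernel
  b4 := by decide +kernel
  b5 := by decide +kernel
  v := by decide +kernel
  l := by decide +kernel

theorem DX_dual : DX.Dual DXroot DXpar DXpe where
  r := by decide +kernel
  sg := by decide +kernel
  p := by decide +kernel

theorem DX_vt : DX.VT DXvp := by
  unfold SD.VT
  decide +kernel

theorem KX_ok : KX.Ok DX mulL (fun w => decide (w % 8 < 6)) (fun w => decide (w < 54)) where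
  k1 := by decide +kernel
  k2 := by decide +kernel
  k3 := by decide +kernel
  v1 := by decide +kernel
  v2 := by decide +kernel
  v3 := by decide +kernel

theorem DX_cyc1 : ∀ s < DX.nS, sumTo DX.nF (fun f => DX.fc 1 f * DX.inc f s) = 0 := by
  decide +kernel
theorem DX_cyc2 : ∀ t < DX.nT, sumTo DX.nF (fun f => DX.fc 1 f * (if t = DX.tl f then 1 else 0)) = 0 := by
  decide +kernel

end Pool.Agent.H832R2
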