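import Pool.Agent.H832R2.DatX

namespace Pool.Agent.H832R2

theorem certXf1_l : ∀ t < DX.nT, ∀ q ∈ certXf1 t, ∀ s ∈ q.2, decide (s < 54) = true := by
  decide +kernel
theorem certXa_l : ∀ t < DX.nT, ∀ q ∈ certXa t, ∀ s ∈ q.2, decide (s < 54) = true := by
  decide +kernel
theorem certXb_l : ∀ t < DX.nT, ∀ q ∈ certXb t, ∀ s ∈ q.2, decide (s < 54) = true := by
  decide +kernel
theorem certXy_l : ∀ t < DX.nT, ∀ q ∈ certXy t, ∀ s ∈ q.2, decide (s < 54) = true := by
  decide +kernel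
theorem certXf1_0 : (goTar [(-1, 0)] (goF DX mulL KX.cV certXf1 0 DX.nF Tr.nil)).allz = true := by
  decide +kernel
theorem certXf1_1 : (goTar [] (goF DX mulL KX.cV certXf1 1 DX.nF Tr.nil)).allz = true := by
  decide +kernel
theorem certXa_1 : (goTar [(-1, KX.cE 0), (1, 0)] (goF DX mulL KX.cV certXa 1 DX.nF Tr.nil)).allz = true := by
  decide +kernel
theorem certXb_1 : (goTar [(-1, KX.cE 1), (1, 0)] (goF DX mulL KX.cV certXb 1 DX.nF Tr.nil)).allz = true := by
  decide +kernel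
theorem certXy_1 : (goTar [(-1, KX.cE 5), (1, 0)] (goF DX mulL KX.cV certXy 1 DX.nF Tr.nil)).allz = true := by
  decide +kernel

end Pool.Agent.H832R2
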