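import Pool.Agent.H832R2.Kap

/-!
The cone argument: a self-dual chain map with vanishing Euler characteristic whose cone is exact in
degrees `0` and `1` is a chain homotopy equivalence.
-/

namespace Pool.Agent.H832R2

open Matrix

set_option linter.unusedSimpArgs false

noncomputable section

variable {G : Type} [Group G]
variable {n0 n1 n2 n3 : Type} [Fintype n0] [Fintype n1] [Fintype n2] [Fintype n3]
  [DecidableEq n0] [DecidableEq n1] [DecidableEq n2] [DecidableEq n3]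

local instance : Ring (MonoidAlgebra ℤ G) := inferInstance

theorem cone_contr {m0 m1 m2 m3 : Type} [Fintype m0] [Fintype m1] [Fintype m2] [Fintype m3]
    [DecidableEq m0] [DecidableEq m1] [DecidableEq m2] [DecidableEq m3]
    (d1 : Matrix m1 m0 (MonoidAlgebra ℤ G)) (d2 : Matrix m2 m1 (MonoidAlgebra ℤ G))
    (d3 : Matrix m3 m2 (MonoidAlgebra ℤ G)) (d4 : Matrix m0 m3 (MonoidAlgebra ℤ G))
    (h21 : d2 * d1 = 0) (h32 : d3 * d2 = 0) (h43 : d4 * d3 = 0)
    (M : Matrix m1 m3 (MonoidAlgebra ℤ G)) (Mi : Matrix m3 m1 (MonoidAlgebra ℤ G))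
    (N Ni : Matrix m2 m2 (MonoidAlgebra ℤ G))
    (hM : M * Mi = 1) (hMi : Mi * M = 1) (hN : N * Ni = 1)
    (hd4 : d4 = d1ᴴ * M) (hd3 : M * d3 = d2ᴴ * N)
    (hcard : Fintype.card m2 + 2 * Fintype.card m0 = Fintype.card m1 + Fintype.card m3)
    (s0 : Matrix m0 m1 (MonoidAlgebra ℤ G)) (hs0 : s0 * d1 = 1)
    (hex : ∀ x : m1 → MonoidAlgebra ℤ G, x ᵥ* d1 = 0 → ∃ y, x = y ᵥ* d2) :
    ∃ (h0 : Matrix m0 m1 (MonoidAlgebra ℤ G)) (h1 : Matrix m1 m2 (MonoidAlgebra ℤ G))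
      (h2 : Matrix m2 m3 (MonoidAlgebra ℤ G)) (h3 : Matrix m3 m0 (MonoidAlgebra ℤ G)),
      h0 * d1 = 1 ∧ d1 * h0 + h1 * d2 = 1 ∧ d2 * h1 + h2 * d3 = 1 ∧ d3 * h2 + h3 * d4 = 1 ∧
      d4 * h3 = 1 := by
  obtain ⟨s1, hs1⟩ : ∃ s1 : Matrix m1 m2 (MonoidAlgebra ℤ G), 1 - d1 * s0 = s1 * d2 := by
    have h : ∀ i, ∃ y, ((1 : Matrix m1 m1 (MonoidAlgebra ℤ G)) - d1 * s0) i = y ᵥ* d2 := by
      intro i
      apply hex
      have : ((1 : Matrix m1 m1 (MonoidAlgebra ℤ G)) - d1 * s0) * d1 = 0 := by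
        rw [Matrix.sub_mul, Matrix.one_mul, Matrix.mul_assoc, hs0, Matrix.mul_one, sub_self]
      exact congrFun this i
    choose y hy using h
    refine ⟨y, ?_⟩
    ext1 i j
    exact congrFun (hy i) j
  have hs1' : d1 * s0 = 1 - s1 * d2 := by rw [← hs1]; abel
  -- dual side
  let s3 : Matrix m3 m0 (MonoidAlgebra ℤ G) := Mi * s0ᴴ
  let s2 : Matrix m2 m3 (MonoidAlgebra ℤ G) := Ni * s1ᴴ * M
  have e1 : d4 * s3 = 1 := by
    simp only [s3]
    rw [hd4, Matrix.mul_assoc, ← Matrix.mul_assoc M, hM, Matrix.one_mul, ← conjTranspose_mul, hs0,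
      conjTranspose_one]
  have hd3' : d3 = Mi * d2ᴴ * N := by
    rw [Matrix.mul_assoc, ← hd3, ← Matrix.mul_assoc, hMi, Matrix.one_mul]
  have e2 : s3 * d4 + d3 * s2 = 1 := by
    have h1 : d3 * s2 = Mi * (d2ᴴ * s1ᴴ) * M := by
      rw [hd3']
      simp only [s2]
      simp only [Matrix.mul_assoc]
      rw [← Matrix.mul_assoc N, hN, Matrix.one_mul]
    rw [h1, ← conjTranspose_mul, ← hs1, conjTranspose_sub, conjTranspose_one, conjTranspose_mul]
    simp only [s3]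
    rw [hd4, Matrix.mul_sub, Matrix.sub_mul, Matrix.mul_one, hMi]
    simp only [Matrix.mul_assoc]
    abel
  have e3 : d4 * d3 = 0 := h43
  -- idempotents
  let p : Matrix m2 m2 (MonoidAlgebra ℤ G) := d2 * s1
  let q : Matrix m2 m2 (MonoidAlgebra ℤ G) := s2 * d3
  have hp : p * p = p := by
    simp only [p]
    rw [Matrix.mul_assoc, ← Matrix.mul_assoc s1, ← hs1, Matrix.sub_mul, Matrix.one_mul,
      Matrix.mul_sub, ← Matrix.mul_assoc, ← Matrix.mul_assoc, h21, Matrix.zero_mul,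
      Matrix.zero_mul, sub_zero]
  have hq : q * q = q := by
    simp only [q]
    have : d3 * s2 = 1 - s3 * d4 := by rw [← e2]; abel
    rw [Matrix.mul_assoc, ← Matrix.mul_assoc d3, this, Matrix.sub_mul, Matrix.one_mul,
      Matrix.mul_assoc s3, e3, Matrix.mul_zero, sub_zero]
  have hqp : q * p = 0 := by
    simp only [p, q]
    rw [Matrix.mul_assoc, ← Matrix.mul_assoc d3, h32, Matrix.zero_mul, Matrix.mul_zero]
  have htp : trc p = Fintype.card m1 - Fintype.card m0 := by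
    simp only [p]
    rw [trc_comm, ← hs1, sub_eq_add_neg, trc_add, trc_one]
    have : trc (-(d1 * s0)) = - trc (d1 * s0) := by
      simp only [trc, Matrix.neg_apply, ← Finset.sum_neg_distrib]
      rfl
    rw [this, trc_comm, hs0, trc_one]
    ring
  have htq : trc q = Fintype.card m3 - Fintype.card m0 := by
    simp only [q]
    have h : d3 * s2 = 1 + (-(s3 * d4)) := by rw [← e2]; abel
    rw [trc_comm, h, trc_add, trc_one]
    have : trc (-(s3 * d4)) = - trc (s3 * d4) := by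
      simp only [trc, Matrix.neg_apply, ← Finset.sum_neg_distrib]
      rfl
    rw [this, trc_comm, e1, trc_one]
    ring
  have htpq : trc (p * q) = 0 := by rw [trc_comm, hqp, trc_zero]
  have hee : (1 - p) * (1 - q) = 0 := by
    apply kap
    · have a1 : (1 - q) * (1 - p) = 1 - p - q := by
        rw [Matrix.sub_mul, Matrix.one_mul, Matrix.mul_sub, Matrix.mul_one, hqp]
        abel
      have a2 : (1 - p) * p = 0 := by rw [Matrix.sub_mul, Matrix.one_mul, hp, sub_self]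
      have a3 : q * (1 - q) = 0 := by rw [Matrix.mul_sub, Matrix.mul_one, hq, sub_self]
      calc (1 - p) * (1 - q) * ((1 - p) * (1 - q))
          = (1 - p) * ((1 - q) * (1 - p)) * (1 - q) := by simp only [Matrix.mul_assoc]
        _ = (1 - p) * (1 - p - q) * (1 - q) := by rw [a1]
        _ = ((1 - p) * 1 - (1 - p) * p) * (1 - q) - (1 - p) * (q * (1 - q)) := by
            rw [← Matrix.mul_sub, ← Matrix.mul_assoc (1 - p) q, ← Matrix.sub_mul, ← Matrix.mul_sub]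
        _ = (1 - p) * (1 - q) := by
            rw [a2, a3, Matrix.mul_one, sub_zero, Matrix.mul_zero, sub_zero]
    · have a1 : (1 - p) * (1 - q) = 1 + -p + -q + p * q := by
        rw [Matrix.sub_mul, Matrix.mul_sub p, Matrix.one_mul, Matrix.mul_one]
        abel
      have hneg : ∀ A : Matrix m2 m2 (MonoidAlgebra ℤ G), trc (-A) = - trc A := by
        intro A
        simp only [trc, Matrix.neg_apply, ← Finset.sum_neg_distrib]
        rfl
      rw [a1, trc_add, trc_add, trc_add, hneg, hneg, htp, htq, htpq, trc_one]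
      have : (Fintype.card m2 : ℤ) + 2 * Fintype.card m0 = Fintype.card m1 + Fintype.card m3 := by
        exact_mod_cast hcard
      linarith
  refine ⟨s0, s1, (1 - p) * s2, s3, hs0, ?_, ?_, ?_, e1⟩
  · rw [← hs1]; abel
  · have : (1 - p) * q = 1 - p := by
      rw [Matrix.mul_sub, Matrix.mul_one] at hee
      exact (sub_eq_zero.1 hee).symm
    rw [Matrix.mul_assoc]
    change p + (1 - p) * q = 1
    rw [this]
    abel
  · have h1 : d3 * p = 0 := by
      simp only [p]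
      rw [← Matrix.mul_assoc, h32, Matrix.zero_mul]
    rw [← Matrix.mul_assoc, Matrix.mul_sub, Matrix.mul_one, h1, sub_zero, ← e2]
    abel

/-- The cone argument. -/
theorem isHEquiv_of_selfdual
    (D1 : Matrix n1 n0 (MonoidAlgebra ℤ G)) (D2 : Matrix n2 n1 (MonoidAlgebra ℤ G))
    (D3 : Matrix n3 n2 (MonoidAlgebra ℤ G))
    (F0 : Matrix n3 n0 (MonoidAlgebra ℤ G)) (F1 : Matrix n2 n1 (MonoidAlgebra ℤ G))
    (F2 : Matrix n1 n2 (MonoidAlgebra ℤ G)) (F3 : Matrix n0 n3 (MonoidAlgebra ℤ G))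
    (K0 : Matrix n3 n1 (MonoidAlgebra ℤ G)) (K1 : Matrix n2 n2 (MonoidAlgebra ℤ G))
    (h21 : D2 * D1 = 0) (h32 : D3 * D2 = 0)
    (c1 : F1 * D1 = -D3ᴴ * F0) (c2 : F2 * D2 = D2ᴴ * F1) (c3 : F3 * D3 = -D1ᴴ * F2)
    (k0 : F0 - F3ᴴ = K0 * D1) (k1 : F2 - F1ᴴ = K0ᴴ * D3 + D2ᴴ * K1)
    (hcard : Fintype.card n0 + Fintype.card n2 = Fintype.card n1 + Fintype.card n3)
    (ha : ∃ (sa : Matrix n0 n1 (MonoidAlgebra ℤ G)) (sb : Matrix n0 n3 (MonoidAlgebra ℤ G)),
      sa * D1 + sb * F0 = 1)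
    (hb : ∀ (x1 : n1 → MonoidAlgebra ℤ G) (x3 : n3 → MonoidAlgebra ℤ G),
      x1 ᵥ* D1 + x3 ᵥ* F0 = 0 → ∃ (y z : n2 → MonoidAlgebra ℤ G),
        x1 = y ᵥ* D2 + z ᵥ* F1 ∧ x3 = z ᵥ* D3ᴴ) :
    IsHEquiv (-D3ᴴ) D2ᴴ (-D1ᴴ) D1 D2 D3 F0 F1 F2 F3 := by
  obtain ⟨sa, sb, hs⟩ := ha
  have h12 : D1ᴴ * D2ᴴ = 0 := by rw [← conjTranspose_mul, h21, conjTranspose_zero]
  have h23 : D2ᴴ * D3ᴴ = 0 := by rw [← conjTranspose_mul, h32, conjTranspose_zero]
  have k0' : F0ᴴ = F3 + D1ᴴ * K0ᴴ := by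
    have := congrArg conjTranspose k0
    rw [conjTranspose_sub, conjTranspose_conjTranspose, conjTranspose_mul] at this
    rw [← this]
    abel
  have k1' : F2 = F1ᴴ + K0ᴴ * D3 + D2ᴴ * K1 := by
    rw [add_assoc, ← k1]
    abel
  obtain ⟨h0, h1, h2, h3, g0, g1, g2, g3, g4⟩ := cone_contr
    (fromRows D1 F0) (fromBlocks D2 0 F1 D3ᴴ) (fromBlocks D3 0 F2 (-D2ᴴ)) (fromCols F3 D1ᴴ)
    (by
      rw [fromBlocks_mul_fromRows, h21, c1]
      ext i j
      rcases i with i | i <;> simp)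
    (by
      rw [fromBlocks_multiply, h32, c2, Matrix.neg_mul, Matrix.neg_mul, h23]
      simp [fromBlocks_zero])
    (by
      rw [fromCols_mul_fromBlocks, c3, Matrix.mul_neg, h12]
      ext i j
      rcases j with j | j <;> simp)
    (fromBlocks (-K0ᴴ) 1 1 0) (fromBlocks 0 1 1 K0ᴴ) (fromBlocks K1 (-1) 1 0)
    (fromBlocks 0 1 (-1) K1) (by simp [fromBlocks_multiply]) (by simp [fromBlocks_multiply])
    (by simp [fromBlocks_multiply])
    (by
      rw [conjTranspose_fromRows_eq_fromCols_conjTranspose, fromCols_mul_fromBlocks, k0']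
      congr 1
      · rw [Matrix.mul_neg, Matrix.mul_one]; abel
      · simp)
    (by
      rw [fromBlocks_conjTranspose, fromBlocks_multiply, fromBlocks_multiply,
        conjTranspose_conjTranspose, k1']
      congr 1
      · simp only [Matrix.neg_mul, Matrix.one_mul, Matrix.mul_one]; abel
      · simp
      · simp
      · simp)
    (by simp; omega) (fromCols sa sb) (by rw [fromCols_mul_fromRows, hs])
    (by
      intro x hx
      obtain ⟨y, z, hy, hz⟩ := hb (x ∘ Sum.inl) (x ∘ Sum.inr) (by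
        rw [← hx]
        ext j
        simp [Matrix.vecMul, dotProduct])
      refine ⟨Sum.elim y z, ?_⟩
      rw [Matrix.vecMul_fromBlocks]
      funext i
      rcases i with i | i
      · exact congrFun hy i
      · simpa using congrFun hz i)
  have e0 : h0 = fromCols h0.toCols₁ h0.toCols₂ := (fromCols_toCols h0).symm
  have e1 : h1 = fromBlocks h1.toBlocks₁₁ h1.toBlocks₁₂ h1.toBlocks₂₁ h1.toBlocks₂₂ :=
    (fromBlocks_toBlocks h1).symm
  have e2 : h2 = fromBlocks h2.toBlocks₁₁ h2.toBlocks₁₂ h2.toBlocks₂₁ h2.toBlocks₂₂ :=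
    (fromBlocks_toBlocks h2).symm
  have e3 : h3 = fromRows h3.toRows₁ h3.toRows₂ := (fromRows_toRows h3).symm
  rw [e0, fromCols_mul_fromRows] at g0
  rw [e0, e1, fromRows_mul_fromCols, fromBlocks_multiply, fromBlocks_add, ← fromBlocks_one,
    fromBlocks_inj] at g1
  rw [e1, e2, fromBlocks_multiply, fromBlocks_multiply, fromBlocks_add, ← fromBlocks_one,
    fromBlocks_inj] at g2
  rw [e2, e3, fromRows_mul_fromCols, fromBlocks_multiply, fromBlocks_add, ← fromBlocks_one,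
    fromBlocks_inj] at g3
  rw [e3, fromCols_mul_fromRows] at g4
  obtain ⟨g11, g12, g13, g14⟩ := g1
  obtain ⟨g21, g22, g23, g24⟩ := g2
  obtain ⟨g31, g32, g33, g34⟩ := g3
  refine ⟨⟨c1, c2, c3⟩, h0.toCols₂, h1.toBlocks₁₂, h2.toBlocks₁₂, h3.toRows₁, h1.toBlocks₂₂,
    h2.toBlocks₂₂, h3.toRows₂, -h0.toCols₁, -h1.toBlocks₁₁, -h2.toBlocks₁₁, ⟨?_, ?_, ?_⟩,
    ⟨?_, ?_, ?_, ?_⟩, ⟨?_, ?_, ?_, ?_⟩⟩
  · rw [eq_comm, ← sub_eq_zero, ← g12]
    simp only [Matrix.mul_neg, Matrix.neg_mul, Matrix.mul_zero, Matrix.zero_mul]; abel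
  · rw [eq_comm, ← sub_eq_zero, ← g22]
    simp only [Matrix.mul_neg, Matrix.neg_mul, Matrix.mul_zero, Matrix.zero_mul]; abel
  · rw [eq_comm, ← sub_eq_zero, ← g32]
    simp only [Matrix.mul_neg, Matrix.neg_mul, Matrix.mul_zero, Matrix.zero_mul]; abel
  · rw [← g14]
    simp only [Matrix.mul_neg, Matrix.neg_mul, Matrix.mul_zero, Matrix.zero_mul]; abel
  · rw [← g24]
    simp only [Matrix.mul_neg, Matrix.neg_mul, Matrix.mul_zero, Matrix.zero_mul]; abel
  · rw [← g34]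
    simp only [Matrix.mul_neg, Matrix.neg_mul, Matrix.mul_zero, Matrix.zero_mul]; abel
  · rw [← g4]
    simp only [Matrix.mul_neg, Matrix.neg_mul, Matrix.mul_zero, Matrix.zero_mul]; abel
  · rw [← g0]
    simp only [Matrix.mul_neg, Matrix.neg_mul, Matrix.mul_zero, Matrix.zero_mul]; abel
  · rw [← g11]
    simp only [Matrix.mul_neg, Matrix.neg_mul, Matrix.mul_zero, Matrix.zero_mul]; abel
  · rw [← g21]
    simp only [Matrix.mul_neg, Matrix.neg_mul, Matrix.mul_zero, Matrix.zero_mul]; abel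
  · rw [← g31]
    simp only [Matrix.mul_neg, Matrix.neg_mul, Matrix.mul_zero, Matrix.zero_mul]; abel

end

end Pool.Agent.H832R2
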