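import Pool.Agent.H832R2.Glue

namespace Pool.Agent.H832R2

/-- the data -/
def DA : SD where
  nE := 4
  nT := 4
  nV := 6
  nS := 12
  nF := 8
  nI := 1
  e01 := fun i => nt 8 50462976 i
  e12 := fun i => nt 8 33751041 i
  e02 := fun i => nt 8 16777731 i
  src := fun i => nt 8 623810482181122986977788160 i
  tgt := fun i => nt 8 929687659638864872304935425 i
  lab := fun i => nt 8 622606241978899730146722048 i
  f01 := fun i => nt 8 219280027777304320 i
  f12 := fun i => nt 8 289647659709893121 i
  f02 := fun i => nt 8 362544198215860226 i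
  tl := fun i => nt 8 566252833669632 i
  base := fun i => nt 8 0 i
  sgn := fun i => if nt 1 228 i = 0 then 1 else -1
  idx := fun _ => 0

/-- roots -/
def DAroot : ℕ → ℕ := fun i => nt 8 0 i
/-- parents -/
def DApar : ℕ → ℕ := fun i => nt 8 288794429911728128 i
/-- edges to parents -/
def DApe : ℕ → ℕ := fun i => nt 8 218435607142137856 i
/-- vertex tree -/
def DAvp : ℕ → ℕ := fun i => nt 8 9925770215424 i

/-- codes -/
def KA : Cod where
  cE := FA.cg
  lE := FA.cg
  cV := fun i => nt 8 11059776258304 i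

/-- certificate -/
def certAa : ℕ → List (ℤ × List ℕ)
  | 0 => [(-1, [0]), (-1, [3]), (-1, [6]), (-1, [12]), (-1, [14]), (-1, [18]), (-1, [22])]
  | 1 => [(1, [12]), (-1, [17])]
  | _ => []

/-- certificate -/
def certAb : ℕ → List (ℤ × List ℕ)
  | 0 => [(-1, [0])]
  | _ => []

theorem DA_ok : DA.Ok where
  b1 := by decide +kernel
  b2 := by decide +kernel
  b3 := by decide +kernel
  b4 := by decide +kernel
  b5 := by decide +kernel
  v := by decide +kernel
  l := by decide +kernel

theorem DA_dual : DA.Dual DAroot DApar DApe where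
  r := by decide +kernel
  sg := by decide +kernel
  p := by decide +kernel

theorem DA_vt : DA.VT DAvp := by
  unfold SD.VT
  decide +kernel

theorem KA_ok : KA.Ok DA FA.tab (fun w => decide (w < FA.n)) (fun w => decide (w < FA.n)) where
  k1 := by decide +kernel
  k2 := by decide +kernel
  k3 := by decide +kernel
  v1 := by decide +kernel
  v2 := by decide +kernel
  v3 := by decide +kernel

theorem DA_cyc1 : ∀ s < DA.nS, sumTo DA.nF (fun f => DA.fc 0 f * DA.inc f s) = 0 := by
  decide +kernel
theorem DA_cyc2 : ∀ t < DA.nT, sumTo DA.nF (fun f => DA.fc 0 f * (if t = DA.tl f then 1 else 0)) = 0 := by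
  decide +kernel
theorem certAa_ok : (goTar [(-1, KA.cE 0), (1, 0)] (goF DA FA.tab KA.cV certAa 0 DA.nF Tr.nil)).allz = true := by
  decide +kernel
theorem certAb_ok : (goTar [(-1, KA.cE 1), (1, 0)] (goF DA FA.tab KA.cV certAb 0 DA.nF Tr.nil)).allz = true := by
  decide +kernel
theorem certAa_l : ∀ t < DA.nT, ∀ q ∈ certAa t, ∀ s ∈ q.2, decide (s < FA.n) = true := by
  decide +kernel
theorem certAb_l : ∀ t < DA.nT, ∀ q ∈ certAb t, ∀ s ∈ q.2, decide (s < FA.n) = true := by
  decide +kernel

end Pool.Agent.H832R2
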