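import Pool.Agent.H832R2.Glue

namespace Pool.Agent.H832R2

/-- the data -/
def DB : SD where
  nE := 6
  nT := 6
  nV := 24
  nS := 66
  nF := 44
  nI := 1
  e01 := fun i => nt 8 4398113817088 i
  e12 := fun i => nt 8 8623686144 i
  e02 := fun i => nt 8 5519050015489 i
  src := fun i => nt 8 34471736064747111681034691860670182472108986703950038826092038734495180616949408856040514818389681925567383845978023124392165942430202873058571572163446309120 i
  tgt := fun i => nt 8 58431332532754523493568669047192064285712286676002070575202475422189902272123751256826267826334018792675079141540015964931074849674494267729253623481480905217 i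
  lab := fun i => nt 8 17229296088155333286076554066067270460023284381826739985709116802617461938138283716970978651687387247109699186202425219249613299614474667413880210686205820928 i
  f01 := fun i => nt 8 1295291592454856986026345610846090979676279439147106700823579149535385471978598884942787075414527659343872 i
  f12 := fun i => nt 8 1331549105203681059443388597173969594505609703218003081308690891290995486459289952971086348823071153010433 i
  f02 := fun i => nt 8 1367529932996278797163340891000609329651447160729779713530217076897275803831810983603286394076690888211970 i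
  tl := fun i => nt 8 35976995699365839132718035084591282627782375139646328085349408779062404870637626746102740612293945787392 i
  base := fun i => nt 8 0 i
  sgn := fun i => if nt 1 11952922390926 i = 0 then 1 else -1
  idx := fun _ => 0

/-- roots -/
def DBroot : ℕ → ℕ := fun i => nt 8 0 i
/-- parents -/
def DBpar : ℕ → ℕ := fun i => nt 8 1438635807138493489866631060491082976941736235750861890145805901612637720393843298518595302436447977472000 i
/-- edges to parents -/
def DBpe : ℕ → ℕ := fun i => nt 8 1295851528814479529305361977416564908388273636426472267775982787793622656834977928122499020144969009659904 i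
/-- vertex tree -/
def DBvp : ℕ → ℕ := fun i => nt 8 1156184867968830976521432190345571329471330145974958030848 i

/-- codes -/
def KB : Cod where
  cE := FB.cg
  lE := FB.cg
  cV := fun i => nt 8 2690120330739315985235795827749324701629593576693432576 i

/-- certificate -/
def certBa : ℕ → List (ℤ × List ℕ)
  | 0 => [(-2, [2]), (1, [7]), (-1, [14]), (-1, [17]), (1, [21]), (-2, [25]), (-2, [28])]
  | 1 => [(-1, [2]), (2, [3]), (1, [11])]
  | 2 => [(1, [0]), (3, [6]), (1, [9]), (-3, [15])]
  | 4 => [(1, [13]), (-2, [28])]
  | _ => []

/-- certificate -/
def certBy : ℕ → List (ℤ × List ℕ)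
  | 0 => [(-1, [0]), (-1, [2]), (1, [4]), (-2, [8]), (-1, [10]), (1, [12]), (-3, [14]), (-3, [17]), (1, [19]), (-1, [21]), (-2, [25]), (-2, [28]), (-2, [29])]
  | 1 => [(-1, [2]), (-1, [3]), (2, [11])]
  | 2 => [(-3, [0])]
  | 4 => [(-1, [1]), (1, [13]), (-1, [28])]
  | _ => []

theorem DB_ok : DB.Ok where
  b1 := by decide +kernel
  b2 := by decide +kernel
  b3 := by decide +kernel
  b4 := by decide +kernel
  b5 := by decide +kernel
  v := by decide +kernel
  l := by decide +kernel

theorem DB_dual : DB.Dual DBroot DBpar DBpe where
  r := by decide +kernel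
  sg := by decide +kernel
  p := by decide +kernel

theorem DB_vt : DB.VT DBvp := by
  unfold SD.VT
  decide +kernel

theorem KB_ok : KB.Ok DB FB.tab (fun w => decide (w < FB.n)) (fun w => decide (w < FB.n)) where
  k1 := by decide +kernel
  k2 := by decide +kernel
  k3 := by decide +kernel
  v1 := by decide +kernel
  v2 := by decide +kernel
  v3 := by decide +kernel

theorem DB_cyc1 : ∀ s < DB.nS, sumTo DB.nF (fun f => DB.fc 0 f * DB.inc f s) = 0 := by
  decide +kernel
theorem DB_cyc2 : ∀ t < DB.nT, sumTo DB.nF (fun f => DB.fc 0 f * (if t = DB.tl f then 1 else 0)) = 0 := by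
  decide +kernel
theorem certBa_ok : (goTar [(-1, KB.cE 0), (1, 0)] (goF DB FB.tab KB.cV certBa 0 DB.nF Tr.nil)).allz = true := by
  decide +kernel
theorem certBy_ok : (goTar [(-1, KB.cE 2), (1, 0)] (goF DB FB.tab KB.cV certBy 0 DB.nF Tr.nil)).allz = true := by
  decide +kernel
theorem certBa_l : ∀ t < DB.nT, ∀ q ∈ certBa t, ∀ s ∈ q.2, decide (s < FB.n) = true := by
  decide +kernel
theorem certBy_l : ∀ t < DB.nT, ∀ q ∈ certBy t, ∀ s ∈ q.2, decide (s < FB.n) = true := by
  decide +kernel

end Pool.Agent.H832R2
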