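import Mathlib

/-!
Finite Δ-complexes of dimension at most three with one vertex, the cellular chain complex of the
universal cover, the cap product, and `PD_3`-complexes.
-/

namespace Pool.Agent.H832R2

noncomputable section

/-! ### The group ring with its involution -/

section GroupRing

variable {G : Type} [Group G]

/-- The group ring `ℤ[G]` with the anti-involution `g ↦ g⁻¹`. -/
instance starGR : StarRing (MonoidAlgebra ℤ G) where
  star x := x.mapDomain (fun g => g⁻¹)
  star_involutive x := by
    induction x using MonoidAlgebra.induction_linear with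
    | zero => simp
    | add f g hf hg =>
      simp only [MonoidAlgebra.mapDomain_add] at *
      rw [hf, hg]
    | single g r => simp
  star_mul x y := by
    induction x using MonoidAlgebra.induction_linear with
    | zero => simp
    | add f g hf hg =>
      simp only [MonoidAlgebra.mapDomain_add, add_mul, mul_add] at *
      rw [hf, hg]
    | single g r =>
      induction y using MonoidAlgebra.induction_linear with
      | zero => simp
      | add f g hf hg =>
        simp only [MonoidAlgebra.mapDomain_add, add_mul, mul_add] at *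
        rw [hf, hg]
      | single h s => simp [MonoidAlgebra.single_mul_single, mul_comm]
  star_add x y := by
    exact MonoidAlgebra.mapDomain_add ..

end GroupRing

/-! ### Chain homotopy equivalences of complexes of finitely generated free modules -/

section Equivalence

variable {R : Type} [Ring R]
variable {A0 A1 A2 A3 B0 B1 B2 B3 : Type}
  [Fintype A0] [Fintype A1] [Fintype A2] [Fintype A3]
  [Fintype B0] [Fintype B1] [Fintype B2] [Fintype B3]
  [DecidableEq A0] [DecidableEq A1] [DecidableEq A2] [DecidableEq A3]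
  [DecidableEq B0] [DecidableEq B1] [DecidableEq B2] [DecidableEq B3]

/-- Matrices act on row vectors from the right, so a `m × n` matrix over `R` is a homomorphism
`R^m → R^n` of free left `R`-modules, and `M * N` is the composite first `M`, then `N`.
`IsHEquiv a1 a2 a3 b1 b2 b3 F0 F1 F2 F3` says that `F` is a chain homotopy equivalence from the
complex `R^A3 → R^A2 → R^A1 → R^A0` (with the maps `a3`, `a2`, `a1`) to the complex
`R^B3 → R^B2 → R^B1 → R^B0` (with the maps `b3`, `b2`, `b1`): it is a chain map, and there are a chain map `K`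
in the opposite direction and chain homotopies `S : F K ≃ 1` and `T : K F ≃ 1`. -/
def IsHEquiv (a1 : Matrix A1 A0 R) (a2 : Matrix A2 A1 R) (a3 : Matrix A3 A2 R)
    (b1 : Matrix B1 B0 R) (b2 : Matrix B2 B1 R) (b3 : Matrix B3 B2 R)
    (F0 : Matrix A0 B0 R) (F1 : Matrix A1 B1 R) (F2 : Matrix A2 B2 R) (F3 : Matrix A3 B3 R) :
    Prop :=
  (F1 * b1 = a1 * F0 ∧ F2 * b2 = a2 * F1 ∧ F3 * b3 = a3 * F2) ∧
  ∃ (K0 : Matrix B0 A0 R) (K1 : Matrix B1 A1 R) (K2 : Matrix B2 A2 R) (K3 : Matrix B3 A3 R)
    (S0 : Matrix A0 A1 R) (S1 : Matrix A1 A2 R) (S2 : Matrix A2 A3 R)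
    (T0 : Matrix B0 B1 R) (T1 : Matrix B1 B2 R) (T2 : Matrix B2 B3 R),
    (K1 * a1 = b1 * K0 ∧ K2 * a2 = b2 * K1 ∧ K3 * a3 = b3 * K2) ∧
    (F0 * K0 = 1 + S0 * a1 ∧ F1 * K1 = 1 + (a1 * S0 + S1 * a2) ∧
      F2 * K2 = 1 + (a2 * S1 + S2 * a3) ∧ F3 * K3 = 1 + a3 * S2) ∧
    (K0 * F0 = 1 + T0 * b1 ∧ K1 * F1 = 1 + (b1 * T0 + T1 * b2) ∧
      K2 * F2 = 1 + (b2 * T1 + T2 * b3) ∧ K3 * F3 = 1 + b3 * T2)

end Equivalence

/-! ### Δ-complexes with one vertex -/

/-- A finite Δ-complex (semi-simplicial set) of dimension at most three with exactly one vertex.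
`E`, `T`, `H` are the finite sets of its edges, triangles and tetrahedra.  A triangle with ordered
vertices `0,1,2` has the faces `e01, e12, e02`; a tetrahedron with ordered vertices `0,1,2,3` has
the faces `f012, f013, f023, f123`.  The fields `h..` say that any two faces of a tetrahedron agree
along their common edge.  The geometric realization is a connected finite CW complex. -/
structure DCx where
  /-- edges -/
  E : Type
  /-- triangles -/
  T : Type
  /-- tetrahedra -/
  H : Type
  [fE : Fintype E]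
  [fT : Fintype T]
  [fH : Fintype H]
  [dE : DecidableEq E]
  [dT : DecidableEq T]
  [dH : DecidableEq H]
  /-- the edge `01` of a triangle -/
  e01 : T → E
  /-- the edge `12` of a triangle -/
  e12 : T → E
  /-- the edge `02` of a triangle -/
  e02 : T → E
  /-- the face `012` of a tetrahedron -/
  f012 : H → T
  /-- the face `013` of a tetrahedron -/
  f013 : H → T
  /-- the face `023` of a tetrahedron -/
  f023 : H → T
  /-- the face `123` of a tetrahedron -/
  f123 : H → T
  h01 : ∀ s, e01 (f012 s) = e01 (f013 s)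
  h12 : ∀ s, e12 (f012 s) = e01 (f123 s)
  h02 : ∀ s, e02 (f012 s) = e01 (f023 s)
  h23 : ∀ s, e12 (f023 s) = e12 (f123 s)
  h13 : ∀ s, e12 (f013 s) = e02 (f123 s)
  h03 : ∀ s, e02 (f013 s) = e02 (f023 s)

attribute [instance] DCx.fE DCx.fT DCx.fH DCx.dE DCx.dT DCx.dH

namespace DCx

variable (X : DCx)

/-- The fundamental group: generated by the edges, with one relation `e01 * e12 = e02` for each
triangle. -/
abbrev Pi1 : Type :=
  PresentedGroup {r : FreeGroup X.E | ∃ t : X.T,
    r = FreeGroup.of (X.e01 t) * FreeGroup.of (X.e12 t) * (FreeGroup.of (X.e02 t))⁻¹}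

/-- The class of an edge in the fundamental group. -/
def gen (e : X.E) : X.Pi1 := PresentedGroup.of e

section Matrices

variable {G : Type} [Group G] (g : X.E → G)

/-- The element of the group ring given by a group element. -/
abbrev gr (x : G) : MonoidAlgebra ℤ G := MonoidAlgebra.of ℤ G x

/-- The boundary map from edges to vertices in the universal cover: with the lift of each cell
starting at the base point, `∂ e = g_e - 1`. -/
def D1 : Matrix X.E Unit (MonoidAlgebra ℤ G) := fun e _ => gr (g e) - 1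

/-- The boundary map from triangles to edges in the universal cover:
`∂ t = g01 · [12] - [02] + [01]`. -/
def D2 : Matrix X.T X.E (MonoidAlgebra ℤ G) := fun t e =>
  (if e = X.e12 t then gr (g (X.e01 t)) else 0) - (if e = X.e02 t then 1 else 0)
    + (if e = X.e01 t then 1 else 0)

/-- The edge `01` of a tetrahedron. -/
def i01 (s : X.H) : X.E := X.e01 (X.f012 s)
/-- The edge `02` of a tetrahedron. -/
def i02 (s : X.H) : X.E := X.e02 (X.f012 s)
/-- The edge `03` of a tetrahedron. -/
def i03 (s : X.H) : X.E := X.e02 (X.f013 s)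
/-- The edge `23` of a tetrahedron. -/
def i23 (s : X.H) : X.E := X.e12 (X.f023 s)

/-- The boundary map from tetrahedra to triangles in the universal cover:
`∂ s = g01 · [123] - [023] + [013] - [012]`. -/
def D3 : Matrix X.H X.T (MonoidAlgebra ℤ G) := fun s t =>
  (if t = X.f123 s then gr (g (X.i01 s)) else 0) - (if t = X.f023 s then 1 else 0)
    + (if t = X.f013 s then 1 else 0) - (if t = X.f012 s then 1 else 0)

/-- An integral chain of tetrahedra which is a cycle. -/
def IsCycle (c : X.H → ℤ) : Prop :=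
  ∀ t : X.T, ∑ s, c s * ((if t = X.f123 s then 1 else 0) - (if t = X.f023 s then 1 else 0)
    + (if t = X.f013 s then 1 else 0) - (if t = X.f012 s then 1 else 0)) = 0

/-- Cap product with `c` on 3-cochains (values in 0-chains):
`φ ↦ ∑ c_s · star (φ [0123]) · [0]`. -/
def Cap0 (c : X.H → ℤ) : Matrix X.H Unit (MonoidAlgebra ℤ G) := fun s _ => (c s : MonoidAlgebra ℤ G)

/-- Cap product with `c` on 2-cochains (values in 1-chains):
`φ ↦ ∑ c_s · star (φ (g01 · [123])) · [01]`. -/
def Cap1 (c : X.H → ℤ) : Matrix X.T X.E (MonoidAlgebra ℤ G) := fun t e =>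
  ∑ s, if t = X.f123 s ∧ e = X.i01 s then c s • gr (g (X.i01 s))⁻¹ else 0

/-- Cap product with `c` on 1-cochains (values in 2-chains):
`φ ↦ ∑ c_s · star (φ (g02 · [23])) · [012]`. -/
def Cap2 (c : X.H → ℤ) : Matrix X.E X.T (MonoidAlgebra ℤ G) := fun e t =>
  ∑ s, if e = X.i23 s ∧ t = X.f012 s then c s • gr (g (X.i02 s))⁻¹ else 0

/-- Cap product with `c` on 0-cochains (values in 3-chains):
`φ ↦ ∑ c_s · star (φ (g03 · [3])) · [0123]`. -/
def Cap3 (c : X.H → ℤ) : Matrix Unit X.H (MonoidAlgebra ℤ G) := fun _ s =>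
  c s • gr (g (X.i03 s))⁻¹

end Matrices

open scoped Matrix in
/-- `X` is an orientable `PD_3`-complex: there is an integral 3-cycle `c` such that the cap product
with `c` is a chain homotopy equivalence from the cellular cochain complex `C^{3-*}(X; Λ)` of the
universal cover to the cellular chain complex `C_*(X; Λ)`, `Λ = ℤ[π₁ X]`.

A cochain `φ : C_j → Λ` is recorded as the row vector of the values `star (φ cell)`; in this
description (which turns `C^{3-*}(X; Λ)` into a complex of free left modules by means of the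
involution of `Λ`) the coboundary map is the conjugate transpose of the boundary map, up to the
usual sign. -/
def IsPD3 : Prop :=
  ∃ c : X.H → ℤ, X.IsCycle c ∧
    IsHEquiv (-(X.D3 X.gen)ᴴ) ((X.D2 X.gen)ᴴ) (-(X.D1 X.gen)ᴴ)
      (X.D1 X.gen) (X.D2 X.gen) (X.D3 X.gen)
      (X.Cap0 c) (X.Cap1 X.gen c) (X.Cap2 X.gen c) (X.Cap3 X.gen c)

end DCx

/-! ### Groups -/

/-- `G` is not a nontrivial free product. -/
def Indecomposable (G : Type) [Group G] : Prop :=
  ∀ (G₁ G₂ : Type) [Group G₁] [Group G₂], Nonempty (G ≃* Monoid.Coprod G₁ G₂) →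
    Subsingleton G₁ ∨ Subsingleton G₂

/-- `G` has a free subgroup of finite index. -/
def VirtuallyFree (G : Type) [Group G] : Prop :=
  ∃ H : Subgroup G, H.FiniteIndex ∧ IsFreeGroup H

/-- The finite group `G` has cohomological period dividing four, in the form of the classical
characterization by periodic resolutions: there is an exact sequence
`0 → ℤ → P₃ → P₂ → P₁ → P₀ → ℤ → 0` of `ℤ[G]`-modules, where `G` acts trivially on both copies of
`ℤ` and the modules `Pᵢ` are finitely generated and projective. -/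
def PeriodDvdFour (G : Type) [Group G] : Prop :=
  ∃ (P₀ P₁ P₂ P₃ : Type)
    (_ : AddCommGroup P₀) (_ : AddCommGroup P₁) (_ : AddCommGroup P₂) (_ : AddCommGroup P₃)
    (_ : Module (MonoidAlgebra ℤ G) P₀) (_ : Module (MonoidAlgebra ℤ G) P₁)
    (_ : Module (MonoidAlgebra ℤ G) P₂) (_ : Module (MonoidAlgebra ℤ G) P₃)
    (η : ℤ →+ P₃) (d₃ : P₃ →ₗ[MonoidAlgebra ℤ G] P₂) (d₂ : P₂ →ₗ[MonoidAlgebra ℤ G] P₁)
    (d₁ : P₁ →ₗ[MonoidAlgebra ℤ G] P₀) (ε : P₀ →+ ℤ),
    (Module.Finite (MonoidAlgebra ℤ G) P₀ ∧ Module.Finite (MonoidAlgebra ℤ G) P₁ ∧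
      Module.Finite (MonoidAlgebra ℤ G) P₂ ∧ Module.Finite (MonoidAlgebra ℤ G) P₃) ∧
    (Module.Projective (MonoidAlgebra ℤ G) P₀ ∧ Module.Projective (MonoidAlgebra ℤ G) P₁ ∧
      Module.Projective (MonoidAlgebra ℤ G) P₂ ∧ Module.Projective (MonoidAlgebra ℤ G) P₃) ∧
    (∀ (g : G) (n : ℤ), MonoidAlgebra.of ℤ G g • η n = η n) ∧
    (∀ (g : G) (x : P₀), ε (MonoidAlgebra.of ℤ G g • x) = ε x) ∧
    Function.Injective η ∧ Function.Exact η d₃ ∧ Function.Exact d₃ d₂ ∧ Function.Exact d₂ d₁ ∧
    Function.Exact d₁ ε ∧ Function.Surjective ε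

end

end Pool.Agent.H832R2
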