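import Pool.Agent.H832R2.Defs

/-!
Identities between the boundary maps and the cap product.
-/

namespace Pool.Agent.H832R2

open Matrix

noncomputable section

theorem star_single' {G : Type} [Group G] (g : G) (n : ℤ) :
    star (MonoidAlgebra.single g n) = MonoidAlgebra.single g⁻¹ n := by
  change MonoidAlgebra.mapDomain (fun g => g⁻¹) _ = _
  simp

namespace DCx

variable {X : DCx} {G : Type} [Group G] {g : X.E → G}

theorem star_gr (x : G) : star (gr x) = gr x⁻¹ := by
  simp only [gr, MonoidAlgebra.of_apply]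
  exact star_single' x 1

theorem gr_mul (x y : G) : gr (x * y) = gr x * gr y := map_mul _ _ _
theorem gr_one : gr (1 : G) = 1 := map_one _

/-- indicator -/
def dl (p : Prop) [Decidable p] : ℤ := if p then 1 else 0

theorem ite_dl {M : Type} [AddCommGroup M] (p : Prop) [Decidable p] (x : M) :
    (if p then x else 0) = dl p • x := by
  unfold dl
  split_ifs <;> simp

theorem D2_eq (t : X.T) (e : X.E) : X.D2 g t e =
    dl (e = X.e12 t) • gr (g (X.e01 t)) - dl (e = X.e02 t) • 1 + dl (e = X.e01 t) • 1 := by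
  simp only [D2, ite_dl]

theorem D3_eq (s : X.H) (t : X.T) : X.D3 g s t =
    dl (t = X.f123 s) • gr (g (X.i01 s)) - dl (t = X.f023 s) • 1 + dl (t = X.f013 s) • 1
      - dl (t = X.f012 s) • 1 := by
  simp only [D3, ite_dl]

theorem cyc {c : X.H → ℤ} (hc : X.IsCycle c) {M : Type} [AddCommGroup M] (F : X.T → M) :
    ∑ s, c s • (F (X.f123 s) - F (X.f023 s) + F (X.f013 s) - F (X.f012 s)) = 0 := by
  have h1 : ∀ s : X.H, c s • (F (X.f123 s) - F (X.f023 s) + F (X.f013 s) - F (X.f012 s)) =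
      ∑ t : X.T, (c s * ((if t = X.f123 s then 1 else 0) - (if t = X.f023 s then 1 else 0)
        + (if t = X.f013 s then 1 else 0) - (if t = X.f012 s then 1 else 0))) • F t := by
    intro s
    have h2 : ∀ t0 : X.T, F t0 = ∑ t : X.T, (if t = t0 then (1 : ℤ) else 0) • F t := by
      intro t0
      simp [ite_smul]
    rw [h2 (X.f123 s), h2 (X.f023 s), h2 (X.f013 s), h2 (X.f012 s), ← Finset.sum_sub_distrib,
      ← Finset.sum_add_distrib, ← Finset.sum_sub_distrib, Finset.smul_sum]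
    refine Finset.sum_congr rfl fun t _ => ?_
    rw [← sub_smul, ← add_smul, ← sub_smul, smul_smul]
  simp only [h1]
  rw [Finset.sum_comm]
  refine Finset.sum_eq_zero fun t _ => ?_
  rw [← Finset.sum_smul, hc t, zero_smul]

section sm

variable {S m n k : Type} [Fintype S] [DecidableEq m] [DecidableEq n]
variable {R : Type} [Ring R]

/-- sparse matrix -/
def sm (a : S → m) (b : S → n) (x : S → R) : Matrix m n R := fun i j =>
  ∑ s, dl (i = a s) • dl (j = b s) • x s

theorem sm_mul [Fintype n] (a : S → m) (b : S → n) (x : S → R) (B : Matrix n k R) (i : m) (l : k) :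
    (sm a b x * B) i l = ∑ s, dl (i = a s) • (x s * B (b s) l) := by
  simp only [Matrix.mul_apply, sm, Finset.sum_mul]
  rw [Finset.sum_comm]
  refine Finset.sum_congr rfl fun s _ => ?_
  rw [Finset.sum_eq_single (b s)]
  · simp [dl]
  · intro j _ hj
    simp [dl, hj]
  · intro h; exact absurd (Finset.mem_univ _) h

theorem mul_sm [Fintype m] (a : S → m) (b : S → n) (x : S → R) (B : Matrix k m R) (l : k) (j : n) :
    (B * sm a b x) l j = ∑ s, dl (j = b s) • (B l (a s) * x s) := by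
  simp only [Matrix.mul_apply, sm, Finset.mul_sum]
  rw [Finset.sum_comm]
  refine Finset.sum_congr rfl fun s _ => ?_
  rw [Finset.sum_eq_single (a s)]
  · simp [dl]
  · intro j _ hj
    simp [dl, hj]
  · intro h; exact absurd (Finset.mem_univ _) h

theorem sm_star [StarRing R] (a : S → m) (b : S → n) (x : S → R) :
    (sm a b x)ᴴ = sm b a (fun s => star (x s)) := by
  ext1 i j
  simp only [conjTranspose_apply, sm, star_sum, star_smul]
  refine Finset.sum_congr rfl fun s _ => ?_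
  rw [smul_comm]
  simp

end sm

theorem Cap1_eq (c : X.H → ℤ) :
    X.Cap1 g c = sm X.f123 X.i01 (fun s => c s • gr (g (X.i01 s))⁻¹) := by
  ext1 t e
  simp only [Cap1, sm]
  refine Finset.sum_congr rfl fun s _ => ?_
  rw [ite_and, ite_dl, ite_dl]

theorem Cap2_eq (c : X.H → ℤ) :
    X.Cap2 g c = sm X.i23 X.f012 (fun s => c s • gr (g (X.i02 s))⁻¹) := by
  ext1 t e
  simp only [Cap2, sm]
  refine Finset.sum_congr rfl fun s _ => ?_
  rw [ite_and, ite_dl, ite_dl]

theorem D2_row {k : Type} (B : Matrix X.E k (MonoidAlgebra ℤ G)) (t : X.T) (l : k) :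
    (X.D2 g * B) t l = gr (g (X.e01 t)) * B (X.e12 t) l - B (X.e02 t) l + B (X.e01 t) l := by
  simp only [Matrix.mul_apply, D2, add_mul, sub_mul, ite_mul, zero_mul, one_mul,
    Finset.sum_add_distrib, Finset.sum_sub_distrib, Finset.sum_ite_eq', Finset.mem_univ, if_true]

theorem D3_row {k : Type} (B : Matrix X.T k (MonoidAlgebra ℤ G)) (s : X.H) (l : k) :
    (X.D3 g * B) s l = gr (g (X.i01 s)) * B (X.f123 s) l - B (X.f023 s) l + B (X.f013 s) l
      - B (X.f012 s) l := by
  simp only [Matrix.mul_apply, D3, add_mul, sub_mul, ite_mul, zero_mul, one_mul,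
    Finset.sum_add_distrib, Finset.sum_sub_distrib, Finset.sum_ite_eq', Finset.mem_univ, if_true]

theorem star_D2 (t : X.T) (e : X.E) : star (X.D2 g t e) =
    dl (e = X.e12 t) • gr (g (X.e01 t))⁻¹ - dl (e = X.e02 t) • 1 + dl (e = X.e01 t) • 1 := by
  rw [D2_eq, star_add, star_sub, star_smul, star_smul, star_smul, star_gr, star_one]
  rfl

theorem star_D3 (s : X.H) (t : X.T) : star (X.D3 g s t) =
    dl (t = X.f123 s) • gr (g (X.i01 s))⁻¹ - dl (t = X.f023 s) • 1 + dl (t = X.f013 s) • 1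
      - dl (t = X.f012 s) • 1 := by
  rw [D3_eq, star_sub, star_add, star_sub, star_smul, star_smul, star_smul, star_smul, star_gr,
    star_one]
  rfl

section rel

variable (hg : ∀ t : X.T, g (X.e01 t) * g (X.e12 t) = g (X.e02 t))

/-- The edge `12` of a tetrahedron. -/
def i12 (s : X.H) : X.E := X.e01 (X.f123 s)
/-- The edge `13` of a tetrahedron. -/
def i13 (s : X.H) : X.E := X.e02 (X.f123 s)

include hg

theorem g012 (s : X.H) : g (X.i01 s) * g (X.i12 s) = g (X.i02 s) := by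
  have := hg (X.f012 s)
  rwa [X.h12] at this

theorem g013 (s : X.H) : g (X.i01 s) * g (X.i13 s) = g (X.i03 s) := by
  have := hg (X.f013 s)
  rwa [X.h13, ← X.h01] at this

theorem g023 (s : X.H) : g (X.i02 s) * g (X.i23 s) = g (X.i03 s) := by
  have := hg (X.f023 s)
  rwa [← X.h02, ← X.h03] at this

theorem g123 (s : X.H) : g (X.i12 s) * g (X.i23 s) = g (X.i13 s) := by
  have := hg (X.f123 s)
  rwa [← X.h23] at this

omit hg in
theorem x12 (s : X.H) : X.e12 (X.f012 s) = X.i12 s := X.h12 s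
omit hg in
theorem y12 (s : X.H) : X.e02 (X.f012 s) = X.i02 s := rfl
omit hg in
theorem z12 (s : X.H) : X.e01 (X.f012 s) = X.i01 s := rfl
omit hg in
theorem x13 (s : X.H) : X.e12 (X.f013 s) = X.i13 s := X.h13 s
omit hg in
theorem y13 (s : X.H) : X.e02 (X.f013 s) = X.i03 s := rfl
omit hg in
theorem z13 (s : X.H) : X.e01 (X.f013 s) = X.i01 s := (X.h01 s).symm
omit hg in
theorem x23 (s : X.H) : X.e12 (X.f023 s) = X.i23 s := rfl
omit hg in
theorem y23 (s : X.H) : X.e02 (X.f023 s) = X.i03 s := (X.h03 s).symm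
omit hg in
theorem z23 (s : X.H) : X.e01 (X.f023 s) = X.i02 s := (X.h02 s).symm
omit hg in
theorem xx (s : X.H) : X.e12 (X.f123 s) = X.i23 s := (X.h23 s).symm
omit hg in
theorem yy (s : X.H) : X.e02 (X.f123 s) = X.i13 s := rfl
omit hg in
theorem zz (s : X.H) : X.e01 (X.f123 s) = X.i12 s := rfl

theorem k12 (s : X.H) : g (X.i12 s) = (g (X.i01 s))⁻¹ * g (X.i02 s) := by
  rw [← g012 hg s, inv_mul_cancel_left]

theorem k13 (s : X.H) : g (X.i13 s) = (g (X.i01 s))⁻¹ * g (X.i03 s) := by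
  rw [← g013 hg s, inv_mul_cancel_left]

theorem k23 (s : X.H) : g (X.i23 s) = (g (X.i02 s))⁻¹ * g (X.i03 s) := by
  rw [← g023 hg s, inv_mul_cancel_left]

theorem D2D1 : X.D2 g * X.D1 g = 0 := by
  ext1 t u
  rw [D2_row]
  simp only [D1, Matrix.zero_apply]
  rw [mul_sub, ← gr_mul, hg, mul_one]
  abel

theorem D3D2 : X.D3 g * X.D2 g = 0 := by
  ext1 s e
  rw [D3_row]
  simp only [D2_eq, Matrix.zero_apply]
  have e1 : g (X.e01 (X.f123 s)) = (g (X.i01 s))⁻¹ * g (X.i02 s) := by
    rw [← g012 hg s, inv_mul_cancel_left]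
    rfl
  have e2 : g (X.e01 (X.f023 s)) = g (X.i02 s) := by rw [← X.h02]; rfl
  have e3 : g (X.e01 (X.f013 s)) = g (X.i01 s) := by rw [← X.h01]; rfl
  have e4 : g (X.e01 (X.f012 s)) = g (X.i01 s) := rfl
  rw [e1, e2, e3, e4, X.h23, X.h13, X.h12, X.h02, X.h01, X.h03]
  simp only [mul_add, mul_sub, mul_smul_comm, mul_one, ← gr_mul, mul_inv_cancel_left]
  abel

end rel

section caps

variable {c : X.H → ℤ} (hc : X.IsCycle c)

include hc

theorem cap_c1 : X.Cap1 g c * X.D1 g = -((X.D3 g)ᴴ * X.Cap0 (G := G) c) := by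
  ext1 t u
  rw [Matrix.neg_apply, Cap1_eq, sm_mul, Matrix.mul_apply, ← sub_eq_zero,
    ← Finset.sum_neg_distrib, ← Finset.sum_sub_distrib,
    ← cyc hc (fun x => dl (t = x) • (1 : MonoidAlgebra ℤ G))]
  refine Finset.sum_congr rfl fun s _ => ?_
  simp only [D1, Cap0, conjTranspose_apply, star_D3]
  rw [mul_sub, smul_mul_assoc, ← gr_mul, inv_mul_cancel, gr_one, mul_one, ← zsmul_eq_mul']
  module

theorem cap_c2 (hg : ∀ t : X.T, g (X.e01 t) * g (X.e12 t) = g (X.e02 t)) :
    X.Cap2 g c * X.D2 g = (X.D2 g)ᴴ * X.Cap1 g c := by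
  ext1 e e'
  rw [Cap2_eq, Cap1_eq, sm_mul, mul_sm, ← sub_eq_zero, ← Finset.sum_sub_distrib,
    ← cyc hc (fun x => dl (e = X.e12 x) • dl (e' = X.e01 x) • gr (g (X.e01 x))⁻¹)]
  refine Finset.sum_congr rfl fun s _ => ?_
  rw [conjTranspose_apply, star_D2, D2_eq]
  rw [x12, y12, z12, x13, z13, x23, z23, xx, yy, zz, k12 hg, ← x23]
  simp only [mul_add, mul_sub, add_mul, sub_mul, mul_smul_comm, smul_mul_assoc, mul_one, one_mul,
    ← gr_mul, _root_.mul_inv_rev, inv_inv, mul_inv_cancel_right]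
  module

theorem cap_c3 (hg : ∀ t : X.T, g (X.e01 t) * g (X.e12 t) = g (X.e02 t)) :
    X.Cap3 g c * X.D3 g = -((X.D1 g)ᴴ * X.Cap2 g c) := by
  ext1 u t
  rw [Matrix.neg_apply, Cap2_eq, mul_sm, Matrix.mul_apply, ← sub_eq_zero,
    ← Finset.sum_neg_distrib, ← Finset.sum_sub_distrib,
    ← cyc hc (fun x => dl (t = x) • gr (g (X.e02 x))⁻¹)]
  refine Finset.sum_congr rfl fun s _ => ?_
  rw [conjTranspose_apply, D3_eq]
  simp only [D1, Cap3]
  rw [yy, y23, y13, y12, k13 hg, k23 hg, star_sub, star_one, star_gr]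
  simp only [mul_add, mul_sub, add_mul, sub_mul, mul_smul_comm, smul_mul_assoc, mul_one, one_mul,
    ← gr_mul, _root_.mul_inv_rev, inv_inv, mul_inv_cancel_right]
  module

end caps

theorem cap_k0 (c : X.H → ℤ) : X.Cap0 (G := G) c - (X.Cap3 g c)ᴴ =
    sm id X.i03 (fun s => -(c s • (1 : MonoidAlgebra ℤ G))) * X.D1 g := by
  ext1 s u
  rw [sm_mul, Matrix.sub_apply, conjTranspose_apply]
  simp only [Cap0, Cap3, D1]
  rw [Finset.sum_eq_single s]
  · simp only [dl, id, if_true, star_smul, star_gr, inv_inv, one_smul, neg_mul, smul_mul_assoc,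
      one_mul]
    rw [← Int.smul_one_eq_cast]
    rw [star_trivial]
    module
  · intro j _ hj
    simp [dl, Ne.symm hj]
  · intro h; exact absurd (Finset.mem_univ _) h

theorem cap_k1 {c : X.H → ℤ} (hc : X.IsCycle c)
    (hg : ∀ t : X.T, g (X.e01 t) * g (X.e12 t) = g (X.e02 t)) :
    X.Cap2 g c - (X.Cap1 g c)ᴴ =
    (sm id X.i03 (fun s => -(c s • (1 : MonoidAlgebra ℤ G))))ᴴ * X.D3 g +
    (X.D2 g)ᴴ * (sm X.f023 X.f012 (fun s => c s • 1) -
      sm X.f013 X.f123 (fun s => c s • gr (g (X.i01 s)))) := by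
  rw [Matrix.mul_sub]
  ext1 e t
  rw [Matrix.sub_apply, Matrix.add_apply, Matrix.sub_apply, sm_star, sm_mul, mul_sm, mul_sm,
    Cap1_eq, sm_star, Cap2_eq, ← sub_eq_zero]
  simp only [sm]
  rw [← Finset.sum_sub_distrib, ← Finset.sum_sub_distrib, ← Finset.sum_add_distrib,
    ← Finset.sum_sub_distrib, ← cyc hc (fun x => dl (e = X.e02 x) • dl (t = x) •
      (1 : MonoidAlgebra ℤ G))]
  refine Finset.sum_congr rfl fun s _ => ?_
  rw [conjTranspose_apply, conjTranspose_apply, star_D2, star_D2, D3_eq]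
  simp only [id]
  rw [x13, y13, z13, x23, y23, z23, yy, y12, star_smul, star_neg, star_smul, star_one,
    star_gr, star_trivial]
  simp only [mul_add, mul_sub, add_mul, sub_mul, mul_smul_comm, smul_mul_assoc, mul_one, one_mul,
    ← gr_mul, inv_inv, neg_mul, inv_mul_cancel, gr_one]
  module

end DCx

end

end Pool.Agent.H832R2
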