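import Pool.Agent.Helper386.PD3.Alg
import Pool.Agent.H832R2.Ident
import Pool.Agent.H832R2.Cone

/-!
Exactness of the cellular chain complex of the universal cover in degrees `0` and `1`, and a
criterion for being a `PD_3`-complex.
-/

namespace Pool.Agent.H832R2

open Matrix Pool.Agent.Helper386.PD3

noncomputable section

namespace DCx

variable (X : DCx)

/-- the group ring -/
abbrev La : Type := MonoidAlgebra ℤ X.Pi1

theorem gen_rel (t : X.T) : X.gen (X.e01 t) * X.gen (X.e12 t) = X.gen (X.e02 t) := by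
  have h : (PresentedGroup.mk {r : FreeGroup X.E | ∃ t : X.T,
    r = FreeGroup.of (X.e01 t) * FreeGroup.of (X.e12 t) * (FreeGroup.of (X.e02 t))⁻¹})
    (FreeGroup.of (X.e01 t) * FreeGroup.of (X.e12 t) * (FreeGroup.of (X.e02 t))⁻¹) = 1 :=
    PresentedGroup.one_of_mem ⟨t, rfl⟩
  rw [map_mul, map_mul, map_inv] at h
  exact mul_inv_eq_one.1 h

theorem pi1_ind {p : X.Pi1 → Prop} (h1 : ∀ e, p (X.gen e)) (h2 : p 1)
    (h3 : ∀ x y, p x → p y → p (x * y)) (h4 : ∀ x, p x → p x⁻¹) (x : X.Pi1) : p x := by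
  have hx : x ∈ Subgroup.closure (Set.range (PresentedGroup.of : X.E → X.Pi1)) := by
    rw [PresentedGroup.closure_range_of]
    trivial
  induction hx using Subgroup.closure_induction with
  | mem x hx => obtain ⟨e, rfl⟩ := hx; exact h1 e
  | one => exact h2
  | mul x y _ _ hx hy => exact h3 x y hx hy
  | inv x _ hx => exact h4 x hx

section

variable {X} {N : Type} [AddCommGroup N] [Module (MonoidAlgebra ℤ X.Pi1) N]

/-- affine permutation -/
def aff (x : X.Pi1) (b : N) : Equiv.Perm N where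
  toFun n := gr x • n + b
  invFun n := gr x⁻¹ • (n - b)
  left_inv n := by
    simp only [add_sub_cancel_right, smul_smul, ← gr_mul, inv_mul_cancel, gr_one, one_smul]
  right_inv n := by
    simp only [smul_smul, ← gr_mul, mul_inv_cancel, gr_one, one_smul, sub_add_cancel]

theorem aff_apply (x : X.Pi1) (b n : N) : aff x b n = gr x • n + b := rfl

theorem aff_mul (x y : X.Pi1) (b c : N) :
    aff x b * aff y c = aff (x * y) (gr x • c + b) := by
  ext n
  simp only [Equiv.Perm.mul_apply, aff_apply, smul_add, smul_smul, ← gr_mul]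
  abel

/-- A solution of the linearized relations gives a derivation. -/
theorem exists_der (b : X.E → N)
    (hb : ∀ t, gr (X.gen (X.e01 t)) • b (X.e12 t) + b (X.e01 t) = b (X.e02 t)) :
    ∃ δ : X.Pi1 → N, (∀ e, δ (X.gen e) = b e) ∧ ∀ x y, δ (x * y) = gr x • δ y + δ x := by
  let F : X.Pi1 →* Equiv.Perm N := PresentedGroup.toGroup (f := fun e => aff (X.gen e) (b e)) (by
    rintro r ⟨t, rfl⟩
    rw [map_mul, map_mul, map_inv, FreeGroup.lift_apply_of, FreeGroup.lift_apply_of,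
      FreeGroup.lift_apply_of, mul_inv_eq_one, aff_mul, X.gen_rel, hb])
  have hF : ∀ e, F (X.gen e) = aff (X.gen e) (b e) := fun e => PresentedGroup.toGroup.of _
  have h1 : ∀ x : X.Pi1, ∀ n, F x n = gr x • n + F x 0 := by
    intro x
    induction x using pi1_ind with
    | h1 e => intro n; rw [hF, aff_apply, aff_apply, smul_zero, zero_add]
    | h2 => intro n; rw [map_one, gr_one, one_smul]; simp
    | h3 x y hx hy =>
      intro n
      rw [map_mul, Equiv.Perm.mul_apply, Equiv.Perm.mul_apply, hx, hy, hx (F y 0), gr_mul,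
        smul_add, smul_smul]
      abel
    | h4 x hx =>
      intro n
      rw [map_inv]
      have h2 : ∀ m, (F x)⁻¹ m = gr x⁻¹ • (m - F x 0) := by
        intro m
        apply (F x).injective
        rw [Equiv.Perm.inv_def, Equiv.apply_symm_apply, hx, smul_smul, ← gr_mul, mul_inv_cancel, gr_one, one_smul]
        abel
      rw [h2, h2, zero_sub, smul_sub, smul_neg]
      abel
  refine ⟨fun x => F x 0, fun e => ?_, fun x y => ?_⟩
  · simp only [hF, aff_apply, smul_zero, zero_add]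
  · simp only [map_mul, Equiv.Perm.mul_apply]
    rw [h1 x]

end

/-- `H₁` of the universal cover vanishes. -/
theorem exact1 (x : X.E → X.La) (hx : x ᵥ* X.D1 X.gen = 0) : ∃ y, x = y ᵥ* X.D2 X.gen := by
  let L : (X.T → X.La) →ₗ[X.La] (X.E → X.La) := Matrix.vecMulLinear (X.D2 X.gen)
  let b : X.E → (X.E → X.La) ⧸ LinearMap.range L := fun e =>
    Submodule.Quotient.mk (Pi.single e 1)
  have hrow : ∀ t, X.D2 X.gen t = gr (X.gen (X.e01 t)) • Pi.single (X.e12 t) (1 : X.La) -
      Pi.single (X.e02 t) 1 + Pi.single (X.e01 t) 1 := by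
    intro t
    ext1 e
    simp [D2, Pi.single_apply]
  have hb : ∀ t, gr (X.gen (X.e01 t)) • b (X.e12 t) + b (X.e01 t) = b (X.e02 t) := by
    intro t
    rw [← sub_eq_zero, ← Submodule.Quotient.mk_smul, ← Submodule.Quotient.mk_add,
      ← Submodule.Quotient.mk_sub, Submodule.Quotient.mk_eq_zero]
    refine ⟨Pi.single t 1, ?_⟩
    change Pi.single t 1 ᵥ* X.D2 X.gen = _
    rw [Matrix.single_one_vecMul]
    refine (hrow t).trans ?_
    abel
  obtain ⟨δ, h1, h2⟩ := exists_der b hb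
  have h3 : ∀ (z : X.La) (e : X.E), addR δ (z * (gr (X.gen e) - 1)) = z • b e := by
    intro z e
    induction z using rr_ind with
    | h1 k =>
      rw [mul_sub, mul_one, map_sub, ← gof_mul, addR_of, addR_of, h2, h1]
      abel
    | h2 x y hx hy => rw [add_mul, map_add, hx, hy, add_smul]
    | h3 x hx => rw [neg_mul, map_neg, hx, neg_smul]
  have h4 : ∑ e, x e • b e = 0 := by
    have h5 : (x ᵥ* X.D1 X.gen) () = 0 := by rw [hx]; rfl
    have h6 : (x ᵥ* X.D1 X.gen) () = ∑ e, x e * (gr (X.gen e) - 1) := rfl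
    rw [h6] at h5
    have h7 := congrArg (addR δ) h5
    rw [map_sum, map_zero] at h7
    rw [← h7]
    exact Finset.sum_congr rfl fun e _ => (h3 _ _).symm
  have h5 : (Submodule.Quotient.mk x : (X.E → X.La) ⧸ LinearMap.range L) = 0 := by
    rw [← h4]
    have h6 : x = ∑ e, x e • (Pi.single e (1 : X.La) : X.E → X.La) := by
      ext1 e
      simp [Finset.sum_apply, Pi.single_apply]
    conv_lhs => rw [h6]
    change (LinearMap.range L).mkQ (∑ e, x e • (Pi.single e (1 : X.La) : X.E → X.La)) = _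
    rw [map_sum]
    rfl
  rw [Submodule.Quotient.mk_eq_zero] at h5
  obtain ⟨y, hy⟩ := h5
  exact ⟨y, hy.symm⟩

theorem exact0 (x : X.La) : ∃ y : X.E → X.La, (y ᵥ* X.D1 X.gen) () = x - (eps x : X.La) := by
  have h1 : ∀ k : X.Pi1, ∃ y : X.E → X.La, (y ᵥ* X.D1 X.gen) () = gr k - 1 := by
    intro k
    induction k using pi1_ind with
    | h1 e =>
      refine ⟨Pi.single e 1, ?_⟩
      rw [Matrix.single_one_vecMul]
      rfl
    | h2 => exact ⟨0, by rw [Matrix.zero_vecMul, gr_one, sub_self]; rfl⟩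
    | h3 x y hx hy =>
      obtain ⟨u, hu⟩ := hx
      obtain ⟨v, hv⟩ := hy
      refine ⟨gr x • v + u, ?_⟩
      rw [Matrix.add_vecMul, Matrix.smul_vecMul, Pi.add_apply, Pi.smul_apply, hu, hv, gr_mul,
        smul_eq_mul, mul_sub, mul_one]
      abel
    | h4 x hx =>
      obtain ⟨u, hu⟩ := hx
      refine ⟨-(gr x⁻¹ • u), ?_⟩
      rw [Matrix.neg_vecMul, Matrix.smul_vecMul, Pi.neg_apply, Pi.smul_apply, hu,
        smul_eq_mul, mul_sub, mul_one, ← gr_mul, inv_mul_cancel, gr_one]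
      abel
  induction x using rr_ind with
  | h1 k =>
    obtain ⟨y, hy⟩ := h1 k
    refine ⟨y, ?_⟩
    rw [hy, eps_of, Int.cast_one]
  | h2 x y hx hy =>
    obtain ⟨u, hu⟩ := hx
    obtain ⟨v, hv⟩ := hy
    refine ⟨u + v, ?_⟩
    rw [Matrix.add_vecMul, Pi.add_apply, hu, hv, map_add, Int.cast_add]
    abel
  | h3 x hx =>
    obtain ⟨u, hu⟩ := hx
    refine ⟨-u, ?_⟩
    rw [Matrix.neg_vecMul, Pi.neg_apply, hu, map_neg, Int.cast_neg]
    abel

theorem eps_D1 (x : X.E → X.La) : eps ((x ᵥ* X.D1 X.gen) ()) = 0 := by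
  have h6 : (x ᵥ* X.D1 X.gen) () = ∑ e, x e * (gr (X.gen e) - 1) := rfl
  rw [h6, map_sum]
  refine Finset.sum_eq_zero fun e _ => ?_
  rw [map_mul, map_sub, eps_of, map_one, sub_self, mul_zero]

/-- The criterion. -/
theorem isPD3_of (c : X.H → ℤ) (hc : X.IsCycle c)
    (hcard : 1 + Fintype.card X.T = Fintype.card X.E + Fintype.card X.H)
    (φ : X.H → ℤ) (hφ : ∑ s, φ s * c s = 1)
    (hinj : ∀ x : X.H → X.La, ∑ s, eps (x s) * c s = 0 → ∃ z, x = z ᵥ* (X.D3 X.gen)ᴴ) :
    X.IsPD3 := by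
  refine ⟨c, hc, isHEquiv_of_selfdual (X.D1 X.gen) (X.D2 X.gen) (X.D3 X.gen) _ _ _ _
    (sm id X.i03 (fun s => -(c s • (1 : X.La))))
    (sm X.f023 X.f012 (fun s => c s • 1) - sm X.f013 X.f123 (fun s => c s • gr (X.gen (X.i01 s))))
    (D2D1 X.gen_rel) (D3D2 X.gen_rel) ?_ (cap_c2 hc X.gen_rel) ?_ (cap_k0 c)
    (cap_k1 hc X.gen_rel) ?_ ?_ ?_⟩
  · rw [cap_c1 hc, Matrix.neg_mul]
  · rw [cap_c3 hc X.gen_rel, Matrix.neg_mul]
  · simpa using hcard
  · refine ⟨0, fun _ s => (φ s : X.La), ?_⟩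
    rw [Matrix.zero_mul, zero_add]
    ext1 i j
    rw [Matrix.mul_apply]
    have h1 : ∑ s, (φ s : X.La) * X.Cap0 c s j = ((∑ s, φ s * c s : ℤ) : X.La) := by
      push_cast
      rfl
    rw [h1, hφ]
    simp
  · intro x1 x3 hx
    have h1 : ∑ s, eps (x3 s) * c s = 0 := by
      have h2 := congrArg eps (congrFun hx ())
      rw [Pi.add_apply, map_add, eps_D1, zero_add] at h2
      have h3 : (x3 ᵥ* (X.Cap0 c)) () = ∑ s, x3 s * (c s : X.La) := rfl
      rw [h3, map_sum, Pi.zero_apply, map_zero] at h2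
      rw [← h2]
      refine Finset.sum_congr rfl fun s _ => ?_
      rw [map_mul, map_intCast]
      rfl
    obtain ⟨z, hz⟩ := hinj x3 h1
    obtain ⟨y, hy⟩ := X.exact1 (x1 - z ᵥ* X.Cap1 X.gen c) (by
      rw [Matrix.sub_vecMul, Matrix.vecMul_vecMul, cap_c1 hc, Matrix.vecMul_neg, sub_neg_eq_add,
        ← Matrix.vecMul_vecMul, ← hz, hx])
    exact ⟨y, z, by rw [← hy]; abel, hz⟩

end DCx

end

end Pool.Agent.H832R2
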