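import Pool.Agent.H832R2.Amalg

/-!
Glue between the data and the general criterion.
-/

namespace Pool.Agent.H832R2

open Matrix Pool.Agent.Helper386.PD3

noncomputable section

/-- system of codes from a table -/
def FT.sys {F : FT} (hF : F.Ok) (h0 : F.word 0 = []) {P : Type} [Group P] (x : ℕ → P)
    (hx : ∀ r ∈ F.tris, x r.1 * x r.2.1 = x r.2.2) : Sys P where
  ev := F.f x
  lt := F.f x
  mul := F.tab
  vw w := decide (w < F.n)
  vl l := decide (l < F.n)
  ev0 := by simp [FT.f, h0]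
  vmul w l hw hl := by
    simp only [decide_eq_true_eq] at *
    exact hF.lt w hw l hl
  sound w l hw hl := by
    simp only [decide_eq_true_eq] at *
    exact FT.f_mul x hF hx w hw l hl

namespace SD

variable {D : SD} (h : D.Ok)

/-- generators, total -/
def gE' (e : ℕ) : (cx h).Pi1 := if he : e < D.nE then gE h e he else 1

theorem gE'_eq (e : ℕ) (he : e < D.nE) : gE' h e = gE h e he := dif_pos he

theorem rel_T' (t : ℕ) (ht : t < D.nT) :
    gE' h (D.e01 t) * gE' h (D.e12 t) = gE' h (D.e02 t) := by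
  rw [gE'_eq h _ (h.b1 t ht).1, gE'_eq h _ (h.b1 t ht).2.1, gE'_eq h _ (h.b1 t ht).2.2,
    rel_T h t ht]

theorem rel_of (tris : List (ℕ × ℕ × ℕ)) (g : ℕ → ℕ)
    (ht : ∀ r ∈ tris, ∃ t < D.nT, D.e01 t = g r.1 ∧ D.e12 t = g r.2.1 ∧ D.e02 t = g r.2.2) :
    ∀ r ∈ tris, gE' h (g r.1) * gE' h (g r.2.1) = gE' h (g r.2.2) := by
  intro r hr
  obtain ⟨t, h1, h2, h3, h4⟩ := ht r hr
  rw [← h2, ← h3, ← h4, rel_T' h t h1]

/-- the vertex tree -/
def VT (D : SD) (vp : ℕ → ℕ) : Prop :=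
  ∀ v < D.nV, (∃ i < D.nI, v = D.base i) ∨ (vp v < D.nS ∧
      ((D.tgt (vp v) = v ∧ D.src (vp v) < v) ∨ (D.src (vp v) = v ∧ D.tgt (vp v) < v)))

theorem gV_mem {vp : ℕ → ℕ} (hvp : D.VT vp) (H : Subgroup (cx h).Pi1)
    (hH : ∀ e (he : e < D.nE), gE h e he ∈ H) : ∀ v (hv : v < D.nV), gV h v hv ∈ H := by
  intro v
  induction v using Nat.strong_induction_on with
  | _ v ih =>
    intro hv
    rcases hvp v hv with ⟨i, hi, rfl⟩ | ⟨h1, h2 | h2⟩
    · rw [rel_I h i hi]; exact H.one_mem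
    · have h3 := rel_S h _ h1
      have h4 := ih _ h2.2 (h.b2 _ h1).1
      have h5 : gV h v hv = gV h (D.tgt (vp v)) (h.b2 _ h1).2.1 := by
        congr 1
        exact h2.1.symm
      rw [h5, ← h3]
      exact H.mul_mem h4 (hH _ _)
    · have h3 := rel_S h _ h1
      have h4 := ih _ h2.2 (h.b2 _ h1).2.1
      have h5 : gV h v hv = gV h (D.src (vp v)) (h.b2 _ h1).1 := by
        congr 1
        exact h2.1.symm
      rw [h5, eq_mul_inv_of_mul_eq h3]
      exact H.mul_mem h4 (H.inv_mem (hH _ _))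

theorem gen_mem {vp : ℕ → ℕ} (hvp : D.VT vp) (H : Subgroup (cx h).Pi1)
    (hH : ∀ e (he : e < D.nE), gE h e he ∈ H) : H = ⊤ := by
  have h1 : ∀ e : (cx h).E, (cx h).gen e ∈ H := by
    rintro (⟨e, he⟩ | ⟨v, hv⟩)
    · exact hH e he
    · exact gV_mem h hvp H hH v hv
  rw [eq_top_iff]
  intro x _
  induction x using DCx.pi1_ind with
  | h1 e => exact h1 e
  | h2 => exact H.one_mem
  | h3 x y hx hy => exact H.mul_mem (hx trivial) (hy trivial)
  | h4 x hx => exact H.inv_mem (hx trivial)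

/-- the stabilizer of a class -/
def stab (b : Q h) : Subgroup (cx h).Pi1 where
  carrier := {g | DCx.gr g • b = b}
  one_mem' := by
    change DCx.gr 1 • b = b
    rw [DCx.gr_one, one_smul]
  mul_mem' {x y} hx hy := by
    change DCx.gr (x * y) • b = b
    rw [DCx.gr_mul, mul_smul, show DCx.gr y • b = b from hy, show DCx.gr x • b = b from hx]
  inv_mem' {x} hx := by
    change DCx.gr x⁻¹ • b = b
    have : DCx.gr x⁻¹ • (DCx.gr x • b) = b := by
      rw [smul_smul, ← DCx.gr_mul, inv_mul_cancel, DCx.gr_one, one_smul]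
    rw [show DCx.gr x • b = b from hx] at this
    exact this

/-- The final criterion for one component or two components. -/
theorem final {K : Cod} {root par pe vp : ℕ → ℕ} (hd : D.Dual root par pe) (hvp : D.VT vp)
    (S : Sys (cx h).Pi1) (hK : K.Ok D S.mul S.vw S.vl)
    (hl : ∀ e (he : e < D.nE), gE h e he = S.lt (K.lE e))
    (i0 : ℕ) (hi0 : i0 < D.nI)
    (h1 : ∀ s < D.nS, sumTo D.nF (fun f => D.fc i0 f * D.inc f s) = 0)
    (h2 : ∀ t < D.nT, sumTo D.nF (fun f => D.fc i0 f * (if t = D.tl f then 1 else 0)) = 0)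
    (hcard : 1 + (D.nT + (D.nS + D.nI)) = (D.nE + D.nV) + D.nF)
    (hB : ∀ i < D.nI, i ≠ i0 → B h root i = 0)
    (gs : List (ℕ × (ℕ → List (ℤ × List ℕ))))
    (hgs : ∀ p ∈ gs, (∀ t < D.nT, ∀ q ∈ p.2 t, ∀ s ∈ q.2, S.vl s = true) ∧
      (goTar [(-1, K.cE p.1), (1, 0)] (goF D S.mul K.cV p.2 i0 D.nF Tr.nil)).allz = true ∧
      p.1 < D.nE ∧ S.ev (K.cE p.1) = S.lt (K.lE p.1))
    (hgen : ∀ H : Subgroup (cx h).Pi1, (∀ p ∈ gs, gE' h p.1 ∈ H) → ∀ e < D.nE, gE' h e ∈ H) :
    (cx h).IsPD3 := by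
  have hV := gV_eq h S hK hl vp hvp
  refine isPD3_SD h hd i0 hi0 h1 h2 hcard hB ?_
  intro g
  have htop : stab h (B h root i0) = ⊤ := by
    apply gen_mem h hvp
    intro e he
    rw [← gE'_eq h e he]
    refine hgen _ ?_ e he
    intro p hp
    obtain ⟨a1, a2, a3, a4⟩ := hgs p hp
    have h3 := W_eq h S hK hV p.2 a1 i0 _ a2
    have h4 := cert_rel h hd (fun t => XL S (p.2 t))
    have h5 : ∑ i : Fin D.nI, star (W h (fun t => XL S (p.2 t)) i) • B h root i =
        star (W h (fun t => XL S (p.2 t)) i0) • B h root i0 := by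
      rw [Finset.sum_eq_single ⟨i0, hi0⟩]
      · intro i _ hi
        rw [hB i i.2 (fun h' => hi (Fin.ext h')), smul_zero]
      · intro h'; exact absurd (Finset.mem_univ _) h'
    rw [h5] at h4
    have h6 : W h (fun t => XL S (p.2 t)) i0 = DCx.gr (gE' h p.1) - 1 := by
      rw [eq_neg_of_add_eq_zero_left h3]
      have : TL S [(-1, K.cE p.1), (1, 0)] = -(DCx.gr (gE' h p.1) - 1) := by
        simp only [TL, List.map_cons, List.map_nil, List.sum_cons, List.sum_nil, S.ev0,
          DCx.gr_one, one_smul, add_zero, neg_smul]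
        rw [a4, ← hl _ a3, ← gE'_eq h _ a3]
        abel
      rw [this, neg_neg]
    rw [h6, star_sub, star_one, DCx.star_gr, sub_smul, one_smul, sub_eq_zero] at h4
    change DCx.gr (gE' h p.1) • B h root i0 = B h root i0
    conv_lhs => rw [← h4]
    rw [smul_smul, ← DCx.gr_mul, mul_inv_cancel, DCx.gr_one, one_smul]
  have : g ∈ stab h (B h root i0) := by rw [htop]; trivial
  exact this

/-- the class of the other component vanishes -/
theorem B_zero {K : Cod} {root par pe vp : ℕ → ℕ} (hd : D.Dual root par pe) (hvp : D.VT vp)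
    (S : Sys (cx h).Pi1) (hK : K.Ok D S.mul S.vw S.vl)
    (hl : ∀ e (he : e < D.nE), gE h e he = S.lt (K.lE e)) (hI : D.nI = 2)
    (L : ℕ → List (ℤ × List ℕ)) (hL : ∀ t < D.nT, ∀ q ∈ L t, ∀ s ∈ q.2, S.vl s = true)
    (c0 : (goTar [(-1, 0)] (goF D S.mul K.cV L 0 D.nF Tr.nil)).allz = true)
    (c1 : (goTar [] (goF D S.mul K.cV L 1 D.nF Tr.nil)).allz = true) :
    ∀ i < D.nI, i ≠ 1 → B h root i = 0 := by
  have hV := gV_eq h S hK hl vp hvp
  intro i hi hi1
  have : i = 0 := by omega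
  subst this
  have h3 := W_eq h S hK hV L hL 0 _ c0
  have h3' := W_eq h S hK hV L hL 1 _ c1
  have h4 := cert_rel h hd (fun t => XL S (L t))
  have e1 : W h (fun t => XL S (L t)) 0 = 1 := by
    have : TL S [(-1, 0)] = -1 := by
      simp only [TL, List.map_cons, List.map_nil, List.sum_cons, List.sum_nil, S.ev0,
        DCx.gr_one, one_smul, add_zero, neg_smul]
    rw [this] at h3
    exact (eq_neg_of_add_eq_zero_left h3).trans (neg_neg 1)
  have e2 : W h (fun t => XL S (L t)) 1 = 0 := by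
    have : TL S [] = 0 := by simp [TL]
    rw [this, add_zero] at h3'
    exact h3'
  have h5 : ∑ i : Fin D.nI, star (W h (fun t => XL S (L t)) i) • B h root i =
      B h root 0 := by
    rw [Finset.sum_eq_single ⟨0, by omega⟩]
    · simp only
      rw [e1, star_one, one_smul]
    · intro j _ hj
      have : (j : ℕ) = 1 := by
        have h6 : (j : ℕ) ≠ 0 := fun h' => hj (Fin.ext h')
        have := j.2
        omega
      rw [this, e2, star_zero, zero_smul]
    · intro h'; exact absurd (Finset.mem_univ _) h'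
  rw [← h5, h4]

end SD

end

end Pool.Agent.H832R2
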