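import Pool.Agent.H832R2.PD

/-!
The fundamental groups: finiteness of `π₁(X_A)`, `π₁(X_B)`, and the amalgam decomposition of
`π₁(X)`.
-/

namespace Pool.Agent.H832R2

open SD

noncomputable section

section Z6

variable {G : Type} [Group G]

/-- the homomorphism from the cyclic group of order six -/
def pow6 (t : G) (ht : t ^ 6 = 1) : Multiplicative (ZMod 6) →* G :=
  AddMonoidHom.toMultiplicativeLeft (ZMod.lift 6 ⟨zmultiplesHom (Additive G) (Additive.ofMul t), by
    change (6 : ℤ) • Additive.ofMul t = 0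
    rw [← ofMul_zpow]
    change Additive.ofMul (t ^ (6 : ℤ)) = Additive.ofMul 1
    congr 1
    exact_mod_cast ht⟩)

theorem pow6_ofAdd (t : G) (ht : t ^ 6 = 1) (n : ℤ) :
    pow6 t ht (Multiplicative.ofAdd (n : ZMod 6)) = t ^ n := by
  change ((ZMod.lift 6 _ ((n : ℤ) : ZMod 6)) : Additive G).toMul = _
  rw [ZMod.lift_coe]
  change ((n : ℤ) • Additive.ofMul t).toMul = _
  rw [← ofMul_zpow]
  rfl

theorem pow6_one (t : G) (ht : t ^ 6 = 1) : pow6 t ht (Multiplicative.ofAdd 1) = t := by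
  have := pow6_ofAdd t ht 1
  simpa using this

theorem z6_ext {f g : Multiplicative (ZMod 6) →* G}
    (h : f (Multiplicative.ofAdd 1) = g (Multiplicative.ofAdd 1)) : f = g := by
  refine MonoidHom.ext fun x => ?_
  obtain ⟨n, rfl⟩ : ∃ n : ℕ, x = Multiplicative.ofAdd (1 : ZMod 6) ^ n := by
    refine ⟨(Multiplicative.toAdd x).val, ?_⟩
    rw [← ofAdd_nsmul]
    simp
  rw [map_pow, map_pow, h]

theorem pow6_inj (t : G) (ht : t ^ 6 = 1) (h2 : t ^ 2 ≠ 1) (h3 : t ^ 3 ≠ 1) :
    Function.Injective (pow6 t ht) := by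
  rw [injective_iff_map_eq_one]
  intro x hx
  obtain ⟨n, hn, rfl⟩ : ∃ n : ℕ, n < 6 ∧ x = Multiplicative.ofAdd (1 : ZMod 6) ^ n := by
    refine ⟨(Multiplicative.toAdd x).val, ZMod.val_lt _, ?_⟩
    rw [← ofAdd_nsmul]
    simp
  rw [map_pow, pow6_one] at hx
  have : n = 0 := by
    by_contra hn0
    have h6 : orderOf t ∣ 6 := orderOf_dvd_of_pow_eq_one ht
    have hn' : orderOf t ∣ n := orderOf_dvd_of_pow_eq_one hx
    have hd : orderOf t ∣ Nat.gcd 6 n := Nat.dvd_gcd h6 hn'
    have a2 : ¬ orderOf t ∣ 2 := fun h => h2 (orderOf_dvd_iff_pow_eq_one.1 h)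
    have a3 : ¬ orderOf t ∣ 3 := fun h => h3 (orderOf_dvd_iff_pow_eq_one.1 h)
    interval_cases n
    · exact hn0 rfl
    · exact a2 (hd.trans (by norm_num))
    · exact a2 (hd.trans (by norm_num))
    · exact a3 (hd.trans (by norm_num))
    · exact a2 (hd.trans (by norm_num))
    · exact a2 (hd.trans (by norm_num))
  rw [this, pow_zero]

theorem pow6_comm (t : G) (ht : t ^ 6 = 1) (x : Multiplicative (ZMod 6)) :
    Commute (pow6 t ht x) t := by
  have : Commute x (Multiplicative.ofAdd (1 : ZMod 6)) := Commute.all _ _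
  have := this.map (pow6 t ht)
  rwa [pow6_one] at this

end Z6

/-- two homomorphisms agreeing on the generators of the 2-complex are equal -/
theorem hom_ext_gE {D : SD} (h : D.Ok) {vp : ℕ → ℕ} (hvp : D.VT vp) {P : Type} [Group P]
    {f g : (cx h).Pi1 →* P} (hfg : ∀ e (he : e < D.nE), f (gE h e he) = g (gE h e he)) : f = g := by
  have := gen_mem h hvp (f.eqLocus g) hfg
  refine MonoidHom.ext fun x => ?_
  have hx : x ∈ f.eqLocus g := by rw [this]; trivial
  exact hx

theorem map_f {G P : Type} [Group G] [Group P] (φ : G →* P) {F : FT} (hF : F.Ok) (x : ℕ → G)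
    (y : ℕ → P) (hxy : ∀ s < F.m, φ (x s) = y s) (i : ℕ) (hi : i < F.n) :
    φ (F.f x i) = F.f y i := by
  unfold FT.f
  rw [map_list_prod, List.map_map]
  congr 1
  apply List.map_congr_left
  intro s hs
  exact hxy s (hF.wl i hi s hs)

/-! ### Orders of the elements -/

theorem tA6 : gE' DA_ok 0 ^ 6 = 1 := by
  have h3 := FT.f_cg (gE' DA_ok) FA_ok (s := 0) (by decide +kernel)
  have h1 : FA.cg 0 = 1 := by decide +kernel
  rw [h1] at h3
  have hm := FT.f_mul (gE' DA_ok) FA_ok relA
  have h6 : FA.tab (FA.tab (FA.tab (FA.tab (FA.tab 1 1) 1) 1) 1) 1 = 0 := by decide +kernel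
  have h0 : FA.f (gE' DA_ok) 0 = 1 := rfl
  rw [← h0, ← h6, hm _ (by decide +kernel) _ (by decide +kernel),
    hm _ (by decide +kernel) _ (by decide +kernel), hm _ (by decide +kernel) _ (by decide +kernel),
    hm _ (by decide +kernel) _ (by decide +kernel), hm _ (by decide +kernel) _ (by decide +kernel),
    h3]
  rfl

theorem tB6 : gE' DB_ok 0 ^ 6 = 1 := by
  have h3 := FT.f_cg (gE' DB_ok) FB_ok (s := 0) (by decide +kernel)
  have h1 : FB.cg 0 = 1 := by decide +kernel
  rw [h1] at h3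
  have hm := FT.f_mul (gE' DB_ok) FB_ok relB
  have h6 : FB.tab (FB.tab (FB.tab (FB.tab (FB.tab 1 1) 1) 1) 1) 1 = 0 := by decide +kernel
  have h0 : FB.f (gE' DB_ok) 0 = 1 := rfl
  rw [← h0, ← h6, hm _ (by decide +kernel) _ (by decide +kernel),
    hm _ (by decide +kernel) _ (by decide +kernel), hm _ (by decide +kernel) _ (by decide +kernel),
    hm _ (by decide +kernel) _ (by decide +kernel), hm _ (by decide +kernel) _ (by decide +kernel),
    h3]
  rfl

theorem tX6 : gE' DX_ok 0 ^ 6 = 1 := by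
  have h3 := FT.f_cg (fun s => gE' DX_ok s) FA_ok (s := 0) (by decide +kernel)
  have h1 : FA.cg 0 = 1 := by decide +kernel
  rw [h1] at h3
  have hm := FT.f_mul (fun s => gE' DX_ok s) FA_ok relXA
  have h6 : FA.tab (FA.tab (FA.tab (FA.tab (FA.tab 1 1) 1) 1) 1) 1 = 0 := by decide +kernel
  have h0 : FA.f (fun s => gE' DX_ok s) 0 = 1 := rfl
  rw [← h0, ← h6, hm _ (by decide +kernel) _ (by decide +kernel),
    hm _ (by decide +kernel) _ (by decide +kernel), hm _ (by decide +kernel) _ (by decide +kernel),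
    hm _ (by decide +kernel) _ (by decide +kernel), hm _ (by decide +kernel) _ (by decide +kernel),
    h3]
  rfl

/-- the vertex groups -/
def GG : Bool → Type
  | false => (cx DA_ok).Pi1
  | true => (cx DB_ok).Pi1

instance instGG : ∀ b, Group (GG b)
  | false => inferInstanceAs (Group (cx DA_ok).Pi1)
  | true => inferInstanceAs (Group (cx DB_ok).Pi1)

/-- the inclusions of the edge group -/
def phi : ∀ b, Multiplicative (ZMod 6) →* GG b
  | false => pow6 (gE' DA_ok 0) tA6
  | true => pow6 (gE' DB_ok 0) tB6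

/-- the amalgam -/
abbrev PP : Type := Monoid.PushoutI phi

/-- the inclusion of the first factor -/
def jA : (cx DA_ok).Pi1 →* PP := Monoid.PushoutI.of (φ := phi) false
/-- the inclusion of the second factor -/
def jB : (cx DB_ok).Pi1 →* PP := Monoid.PushoutI.of (φ := phi) true

theorem jA_t : jA (gE' DA_ok 0) = Monoid.PushoutI.base phi (Multiplicative.ofAdd 1) := by
  rw [← Monoid.PushoutI.of_apply_eq_base phi false]
  change _ = jA (pow6 (gE' DA_ok 0) tA6 (Multiplicative.ofAdd 1))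
  rw [pow6_one]

theorem jB_t : jB (gE' DB_ok 0) = Monoid.PushoutI.base phi (Multiplicative.ofAdd 1) := by
  rw [← Monoid.PushoutI.of_apply_eq_base phi true]
  change _ = jB (pow6 (gE' DB_ok 0) tB6 (Multiplicative.ofAdd 1))
  rw [pow6_one]

/-- codes in the amalgam -/
def RP : AmRep PP where
  fA i := jA (FA.f (gE' DA_ok) i)
  fB i := jB (FB.f (gE' DB_ok) i)
  mA i hi j hj := by rw [← map_mul]; congr 1; exact FT.f_mul _ FA_ok relA i hi j hj
  mB i hi j hj := by rw [← map_mul]; congr 1; exact FT.f_mul _ FB_ok relB i hi j hj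
  one := by
    have h1 : FA.cg 0 = 1 := by decide +kernel
    have h2 : FB.cg 0 = 1 := by decide +kernel
    have h3 := FT.f_cg (gE' DA_ok) FA_ok (s := 0) (by decide +kernel)
    have h4 := FT.f_cg (gE' DB_ok) FB_ok (s := 0) (by decide +kernel)
    rw [h1] at h3
    rw [h2] at h4
    rw [h3, h4, jA_t, jB_t]

theorem ev_eq_lt {P : Type} [Group P] (R : AmRep P) (e : ℕ) (he : e < DX.nE) :
    R.sys.ev (KX.cE e) = R.sys.lt (KX.lE e) := by
  have h1 : KX.cE e = mulL 0 (KX.lE e) := by
    have : ∀ e < 9, KX.cE e = mulL 0 (KX.lE e) := by decide +kernel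
    exact this e he
  have h2 := R.sys.sound 0 (KX.lE e) (by change decide (0 % 8 < 6) = true; decide)
    (KX_ok.v2 e he)
  rw [h1]
  exact h2.trans (by rw [R.sys.ev0, one_mul])

/-- the map to the amalgam -/
def rho : (cx DX_ok).Pi1 →* PP := hom DX_ok RP.sys KX_ok (ev_eq_lt RP)

theorem rho_A (e : ℕ) (he : e < 4) : rho (gE' DX_ok e) = jA (gE' DA_ok e) := by
  have he9 : e < DX.nE := lt_trans he (by decide +kernel)
  rw [gE'_eq DX_ok e he9, rho, hom_gE, ev_eq_lt RP e he9]
  have h3 := FT.f_cg (gE' DA_ok) FA_ok (s := e) he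
  have h5 : KX.lE e = FA.cg e ∧ FA.cg e < 24 := by
    have : ∀ e < 4, KX.lE e = FA.cg e ∧ FA.cg e < 24 := by decide +kernel
    exact this e he
  rw [h5.1]
  change RP.lt (FA.cg e) = _
  rw [AmRep.lt, if_pos h5.2]
  change jA (FA.f (gE' DA_ok) (FA.cg e)) = _
  rw [h3]

theorem rho_B (e : ℕ) (he : e < 6) : rho (gE' DX_ok (gXB e)) = jB (gE' DB_ok e) := by
  have he9 : gXB e < DX.nE := by
    have : ∀ e < 6, gXB e < DX.nE := by decide +kernel
    exact this e he
  by_cases h0 : e = 0
  · subst h0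
    have := rho_A 0 (by norm_num)
    rw [jA_t, ← jB_t] at this
    exact this
  · rw [gE'_eq DX_ok _ he9, rho, hom_gE, ev_eq_lt RP _ he9]
    have h3 := FT.f_cg (gE' DB_ok) FB_ok (s := e) he
    have h5 : KX.lE (gXB e) = 24 + FB.cg e := by
      have : ∀ e < 6, e ≠ 0 → KX.lE (gXB e) = 24 + FB.cg e := by decide +kernel
      exact this e he h0
    rw [h5]
    change RP.lt (24 + FB.cg e) = _
    rw [AmRep.lt, if_neg (by omega), Nat.add_sub_cancel_left]
    change jB (FB.f (gE' DB_ok) (FB.cg e)) = _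
    rw [h3]

/-- codes -/
def SXA : Sys (cx DX_ok).Pi1 := FT.sys FA_ok rfl (fun s => gE' DX_ok s) relXA
/-- codes -/
def SXB : Sys (cx DX_ok).Pi1 := FT.sys FB_ok rfl (fun s => gE' DX_ok (gXB s)) relXB

/-- the map from the first factor -/
def psiA : (cx DA_ok).Pi1 →* (cx DX_ok).Pi1 := hom DA_ok SXA KA_ok (fun _ _ => rfl)
/-- the map from the second factor -/
def psiB : (cx DB_ok).Pi1 →* (cx DX_ok).Pi1 := hom DB_ok SXB KB_ok (fun _ _ => rfl)

theorem psiA_gE (e : ℕ) (he : e < 4) : psiA (gE' DA_ok e) = gE' DX_ok e := by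
  rw [gE'_eq DA_ok e he, psiA, hom_gE]
  exact FT.f_cg (fun s => gE' DX_ok s) FA_ok (s := e) he

theorem psiB_gE (e : ℕ) (he : e < 6) : psiB (gE' DB_ok e) = gE' DX_ok (gXB e) := by
  rw [gE'_eq DB_ok e he, psiB, hom_gE]
  exact FT.f_cg (fun s => gE' DX_ok (gXB s)) FB_ok (s := e) he

/-- the maps from the two factors -/
def psiG : ∀ b, GG b →* (cx DX_ok).Pi1
  | false => psiA
  | true => psiB

/-- the map from the amalgam -/
def psi : PP →* (cx DX_ok).Pi1 :=
  Monoid.PushoutI.lift psiG (pow6 (gE' DX_ok 0) tX6) (by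
    intro b
    apply z6_ext
    rw [pow6_one]
    cases b with
    | false =>
      change psiA (pow6 (gE' DA_ok 0) tA6 (Multiplicative.ofAdd 1)) = _
      rw [pow6_one]
      exact psiA_gE 0 (by norm_num)
    | true =>
      change psiB (pow6 (gE' DB_ok 0) tB6 (Multiplicative.ofAdd 1)) = _
      rw [pow6_one]
      exact psiB_gE 0 (by norm_num))

theorem psi_jA (x : (cx DA_ok).Pi1) : psi (jA x) = psiA x :=
  Monoid.PushoutI.lift_of psiG (pow6 (gE' DX_ok 0) tX6) _ (i := false) x

theorem psi_jB (x : (cx DB_ok).Pi1) : psi (jB x) = psiB x :=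
  Monoid.PushoutI.lift_of psiG (pow6 (gE' DX_ok 0) tX6) _ (i := true) x

theorem psi_rho : psi.comp rho = MonoidHom.id _ := by
  apply hom_ext_gE DX_ok DX_vt
  intro e he
  rw [MonoidHom.comp_apply, MonoidHom.id_apply, ← gE'_eq DX_ok e he]
  by_cases h4 : e < 4
  · rw [rho_A e h4, psi_jA, psiA_gE e h4]
  · have he' : e < 9 := he
    have h5 : e = gXB (e - 3) := by
      rw [gXB, if_neg (by omega)]
      omega
    rw [h5, rho_B _ (by omega), psi_jB, psiB_gE _ (by omega)]

theorem rho_psi : rho.comp psi = MonoidHom.id _ := by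
  apply Monoid.PushoutI.hom_ext_nonempty
  intro b
  cases b with
  | false =>
    have : (rho.comp psi).comp jA = (MonoidHom.id PP).comp jA := by
      apply hom_ext_gE DA_ok DA_vt
      intro e he
      rw [MonoidHom.comp_apply, MonoidHom.comp_apply, MonoidHom.comp_apply, MonoidHom.id_apply,
        psi_jA, ← gE'_eq DA_ok e he, psiA_gE e he, rho_A e he]
    exact this
  | true =>
    have : (rho.comp psi).comp jB = (MonoidHom.id PP).comp jB := by
      apply hom_ext_gE DB_ok DB_vt
      intro e he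
      rw [MonoidHom.comp_apply, MonoidHom.comp_apply, MonoidHom.comp_apply, MonoidHom.id_apply,
        psi_jB, ← gE'_eq DB_ok e he, psiB_gE e he, rho_B e he]
    exact this

/-- `π₁(X)` is the amalgam. -/
def piEquiv : (cx DX_ok).Pi1 ≃* PP where
  toFun := rho
  invFun := psi
  left_inv x := congrArg (fun f => f x) psi_rho
  right_inv x := congrArg (fun f => f x) rho_psi
  map_mul' := map_mul rho

end

end Pool.Agent.H832R2
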