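import Pool.Agent.H832R2.Tors
import Pool.Agent.H832R2.Defs
import Pool.Agent.Helper270.Cop

/-!
A criterion for a group to be freely indecomposable.
-/

namespace Pool.Agent.H832R2

open Monoid.Coprod Pool.Agent.Helper270.Cop

section

variable (G₁ G₂ : Type) [Group G₁] [Group G₂]

/-- the family of the two factors -/
def FF : Bool → Type
  | false => G₁
  | true => G₂

instance instFF : ∀ b, Group (FF G₁ G₂ b)
  | false => inferInstanceAs (Group G₁)
  | true => inferInstanceAs (Group G₂)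

/-- comparison -/
def toI : Monoid.Coprod G₁ G₂ →* Monoid.CoprodI (FF G₁ G₂) :=
  Monoid.Coprod.lift (Monoid.CoprodI.of (M := FF G₁ G₂) (i := false))
    (Monoid.CoprodI.of (M := FF G₁ G₂) (i := true))

/-- the components -/
def fromF : ∀ b, FF G₁ G₂ b →* Monoid.Coprod G₁ G₂
  | false => (inl : G₁ →* Monoid.Coprod G₁ G₂)
  | true => (inr : G₂ →* Monoid.Coprod G₁ G₂)

/-- comparison -/
def fromI : Monoid.CoprodI (FF G₁ G₂) →* Monoid.Coprod G₁ G₂ :=
  Monoid.CoprodI.lift (fromF G₁ G₂)

theorem fromI_toI (x : Monoid.Coprod G₁ G₂) : fromI G₁ G₂ (toI G₁ G₂ x) = x := by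
  have : (fromI G₁ G₂).comp (toI G₁ G₂) = MonoidHom.id _ := by
    apply Monoid.Coprod.hom_ext
    · ext g
      simp only [MonoidHom.comp_apply, toI, Monoid.Coprod.lift_apply_inl, MonoidHom.id_apply]
      exact Monoid.CoprodI.lift_of (fromF G₁ G₂) (i := false) g
    · ext g
      simp only [MonoidHom.comp_apply, toI, Monoid.Coprod.lift_apply_inr, MonoidHom.id_apply]
      exact Monoid.CoprodI.lift_of (fromF G₁ G₂) (i := true) g
  exact congrArg (fun f => f x) this

end

variable {G₁ G₂ : Type} [Group G₁] [Group G₂]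

/-- An involution in a free product is conjugate into a factor. -/
theorem invol_conj (z : Monoid.Coprod G₁ G₂) (hz : z * z = 1) (hne : z ≠ 1) :
    ∃ c, (∃ m, c⁻¹ * z * c = inl m) ∨ (∃ n, c⁻¹ * z * c = inr n) := by
  obtain ⟨c, i, m, h⟩ := exists_conj (toI G₁ G₂ z) (by rw [← map_mul, hz, map_one])
    (fun h => hne (by rw [← fromI_toI G₁ G₂ z, h, map_one]))
  have h2 := congrArg (fromI G₁ G₂) h
  rw [map_mul, map_mul, map_inv, fromI_toI] at h2
  refine ⟨fromI G₁ G₂ c, ?_⟩
  cases i with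
  | false =>
    left
    exact ⟨m, h2.trans (Monoid.CoprodI.lift_of (fromF G₁ G₂) (i := false) m)⟩
  | true =>
    right
    exact ⟨m, h2.trans (Monoid.CoprodI.lift_of (fromF G₁ G₂) (i := true) m)⟩

section

variable {G : Type} [Group G]

theorem commute_conj {H : Type} [Group H] (τ : G →* H) (d : H) {g z : G} (h : Commute g z) :
    Commute (d⁻¹ * τ g * d) (d⁻¹ * τ z * d) := by
  have := h.map τ
  unfold Commute SemiconjBy at *
  calc d⁻¹ * τ g * d * (d⁻¹ * τ z * d) = d⁻¹ * (τ g * τ z) * d := by group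
    _ = d⁻¹ * (τ z * τ g) * d := by rw [this]
    _ = d⁻¹ * τ z * d * (d⁻¹ * τ g * d) := by group

theorem indec (z κ : G) (hz : z * z = 1) (hz1 : z ≠ 1) (hk1 : κ ≠ 1) (hzk : Commute κ z)
    (hgen : ∀ H : Subgroup G, (∀ g, Commute g z → g ∈ H) → (∀ g, Commute g κ → g ∈ H) → H = ⊤)
    (θ : G ≃* Monoid.Coprod G₁ G₂) : Subsingleton G₁ ∨ Subsingleton G₂ := by
  have hθ : ∀ {g : G}, g ≠ 1 → θ g ≠ 1 := fun hg h => hg (θ.injective (by rw [h, map_one]))
  obtain ⟨d, h | h⟩ := invol_conj (θ z) (by rw [← map_mul, hz, map_one]) (hθ hz1)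
  · obtain ⟨m, hm⟩ := h
    right
    have hd : ∀ {g : G}, g ≠ 1 → d⁻¹ * θ g * d ≠ 1 := by
      intro g hg h
      apply hθ hg
      have : θ g = d * (d⁻¹ * θ g * d) * d⁻¹ := by group
      rw [this, h]; group
    have hm1 : m ≠ 1 := by
      rintro rfl
      exact hd hz1 (by rw [hm, map_one])
    let H : Subgroup G := ((inl : G₁ →* Monoid.Coprod G₁ G₂).range).comap
      ((MulAut.conj d⁻¹).toMonoidHom.comp θ.toMonoidHom)
    have hH : ∀ g, g ∈ H ↔ ∃ m0, inl m0 = d⁻¹ * θ g * d := by
      intro g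
      simp only [H, Subgroup.mem_comap, MonoidHom.mem_range, MonoidHom.comp_apply,
        MulEquiv.toMonoidHom_eq_coe, MonoidHom.coe_coe, MulAut.conj_apply, inv_inv]
    have h1 : ∀ g, Commute g z → g ∈ H := by
      intro g hg
      have := commute_conj θ.toMonoidHom d hg
      change Commute (d⁻¹ * θ g * d) (d⁻¹ * θ z * d) at this
      rw [hm] at this
      obtain ⟨m0, h0⟩ := commute_inl hm1 this
      exact (hH g).2 ⟨m0, h0.symm⟩
    obtain ⟨k, hk⟩ := (hH κ).1 (h1 κ hzk)
    have hk1' : k ≠ 1 := by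
      rintro rfl
      exact hd hk1 (by rw [← hk, map_one])
    have h2 : ∀ g, Commute g κ → g ∈ H := by
      intro g hg
      have := commute_conj θ.toMonoidHom d hg
      change Commute (d⁻¹ * θ g * d) (d⁻¹ * θ κ * d) at this
      rw [← hk] at this
      obtain ⟨m0, h0⟩ := commute_inl hk1' this
      exact (hH g).2 ⟨m0, h0.symm⟩
    have htop := hgen H h1 h2
    refine ⟨fun a b => ?_⟩
    have key : ∀ n : G₂, n = 1 := by
      intro n
      have : θ.symm (d * inr n * d⁻¹) ∈ H := by rw [htop]; trivial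
      obtain ⟨m0, h0⟩ := (hH _).1 this
      rw [MulEquiv.apply_symm_apply] at h0
      have h3 : d⁻¹ * (d * inr n * d⁻¹) * d = (inr n : Monoid.Coprod G₁ G₂) := by group
      rw [h3] at h0
      have h4 := congrArg snd h0
      simpa using h4.symm
    rw [key a, key b]
  · obtain ⟨m, hm⟩ := h
    left
    have hd : ∀ {g : G}, g ≠ 1 → d⁻¹ * θ g * d ≠ 1 := by
      intro g hg h
      apply hθ hg
      have : θ g = d * (d⁻¹ * θ g * d) * d⁻¹ := by group
      rw [this, h]; group
    have hm1 : m ≠ 1 := by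
      rintro rfl
      exact hd hz1 (by rw [hm, map_one])
    let H : Subgroup G := ((inr : G₂ →* Monoid.Coprod G₁ G₂).range).comap
      ((MulAut.conj d⁻¹).toMonoidHom.comp θ.toMonoidHom)
    have hH : ∀ g, g ∈ H ↔ ∃ m0, inr m0 = d⁻¹ * θ g * d := by
      intro g
      simp only [H, Subgroup.mem_comap, MonoidHom.mem_range, MonoidHom.comp_apply,
        MulEquiv.toMonoidHom_eq_coe, MonoidHom.coe_coe, MulAut.conj_apply, inv_inv]
    have h1 : ∀ g, Commute g z → g ∈ H := by
      intro g hg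
      have := commute_conj θ.toMonoidHom d hg
      change Commute (d⁻¹ * θ g * d) (d⁻¹ * θ z * d) at this
      rw [hm] at this
      obtain ⟨m0, h0⟩ := commute_inr hm1 this
      exact (hH g).2 ⟨m0, h0.symm⟩
    obtain ⟨k, hk⟩ := (hH κ).1 (h1 κ hzk)
    have hk1' : k ≠ 1 := by
      rintro rfl
      exact hd hk1 (by rw [← hk, map_one])
    have h2 : ∀ g, Commute g κ → g ∈ H := by
      intro g hg
      have := commute_conj θ.toMonoidHom d hg
      change Commute (d⁻¹ * θ g * d) (d⁻¹ * θ κ * d) at this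
      rw [← hk] at this
      obtain ⟨m0, h0⟩ := commute_inr hk1' this
      exact (hH g).2 ⟨m0, h0.symm⟩
    have htop := hgen H h1 h2
    refine ⟨fun a b => ?_⟩
    have key : ∀ n : G₁, n = 1 := by
      intro n
      have : θ.symm (d * inl n * d⁻¹) ∈ H := by rw [htop]; trivial
      obtain ⟨m0, h0⟩ := (hH _).1 this
      rw [MulEquiv.apply_symm_apply] at h0
      have h3 : d⁻¹ * (d * inl n * d⁻¹) * d = (inl n : Monoid.Coprod G₁ G₂) := by group
      rw [h3] at h0
      have h4 := congrArg fst h0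
      simpa using h4.symm
    rw [key a, key b]

end

end Pool.Agent.H832R2
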