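import Pool.Agent.H832R2.Grp
import Pool.Agent.H832R2.Indec

/-!
Finiteness of the vertex groups, concrete models, and indecomposability.
-/

namespace Pool.Agent.H832R2

open SD

noncomputable section

/-- every element of the fundamental group of a complex with a finite table -/
theorem all_f {D : SD} (h : D.Ok) {F : FT} (hF : F.Ok) (h0 : F.word 0 = []) (hn : 0 < F.n)
    (hx : ∀ r ∈ F.tris, gE' h r.1 * gE' h r.2.1 = gE' h r.2.2) {vp : ℕ → ℕ} (hvp : D.VT vp)
    (hE : D.nE ≤ F.m) (hinv : ∀ i < F.n, ∃ j < F.n, F.tab i j = 0) (g : (cx h).Pi1) :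
    ∃ i < F.n, F.f (gE' h) i = g := by
  have hm := FT.f_mul (gE' h) hF hx
  have hf0 : F.f (gE' h) 0 = 1 := by simp [FT.f, h0]
  let H : Subgroup (cx h).Pi1 :=
    { carrier := {g | ∃ i < F.n, F.f (gE' h) i = g}
      one_mem' := ⟨0, hn, hf0⟩
      mul_mem' := by
        rintro _ _ ⟨i, hi, rfl⟩ ⟨j, hj, rfl⟩
        exact ⟨F.tab i j, hF.lt i hi j hj, hm i hi j hj⟩
      inv_mem' := by
        rintro _ ⟨i, hi, rfl⟩
        obtain ⟨j, hj, h1⟩ := hinv i hi
        refine ⟨j, hj, ?_⟩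
        have := hm i hi j hj
        rw [h1, hf0] at this
        exact (inv_eq_of_mul_eq_one_right this.symm).symm }
  have htop : H = ⊤ := by
    apply gen_mem h hvp
    intro e he
    have he' : e < F.m := lt_of_lt_of_le he hE
    refine ⟨F.cg e, hF.cgl e he', ?_⟩
    rw [FT.f_cg (gE' h) hF he', gE'_eq h e he]
  have : g ∈ H := by rw [htop]; trivial
  exact this

theorem all_A (g : (cx DA_ok).Pi1) : ∃ i < FA.n, FA.f (gE' DA_ok) i = g :=
  all_f DA_ok FA_ok rfl (by decide +kernel) relA DA_vt (by decide +kernel) (by decide +kernel) g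

theorem all_B (g : (cx DB_ok).Pi1) : ∃ i < FB.n, FB.f (gE' DB_ok) i = g :=
  all_f DB_ok FB_ok rfl (by decide +kernel) relB DB_vt (by decide +kernel) (by decide +kernel) g

instance finA : Finite (cx DA_ok).Pi1 :=
  Finite.of_surjective (fun i : Fin FA.n => FA.f (gE' DA_ok) i) (fun g => by
    obtain ⟨i, hi, h⟩ := all_A g
    exact ⟨⟨i, hi⟩, h⟩)

instance finB : Finite (cx DB_ok).Pi1 :=
  Finite.of_surjective (fun i : Fin FB.n => FB.f (gE' DB_ok) i) (fun g => by
    obtain ⟨i, hi, h⟩ := all_B g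
    exact ⟨⟨i, hi⟩, h⟩)

instance instFinGG : ∀ b, Finite (GG b)
  | false => finA
  | true => finB

/-- `SL(2, 3)` -/
abbrev SL := Matrix.SpecialLinearGroup (Fin 2) (ZMod 3)
/-- `D_10 × Z/3` -/
abbrev DZ := DihedralGroup 5 × Multiplicative (ZMod 3)

/-- images of the generators in `SL(2,3)` -/
def xSL : ℕ → SL
  | 0 => ⟨!![0, 1; 2, 1], by decide⟩
  | 1 => ⟨!![1, 1; 2, 0], by decide⟩
  | 2 => ⟨!![1, 1; 2, 0], by decide⟩ * ⟨!![0, 1; 2, 1], by decide⟩
  | 3 => ⟨!![0, 1; 2, 1], by decide⟩ * ⟨!![1, 1; 2, 0], by decide⟩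
  | _ => 1

/-- images of the generators in `D_10 × Z/3` -/
def xDZ : ℕ → DZ
  | 0 => (DihedralGroup.sr 0, Multiplicative.ofAdd 1)
  | 1 => (DihedralGroup.sr 0, Multiplicative.ofAdd 1) * (DihedralGroup.sr 0, Multiplicative.ofAdd 1)
  | 2 => (DihedralGroup.r 1, Multiplicative.ofAdd 1)
  | 3 => (DihedralGroup.r 2, Multiplicative.ofAdd 2)
  | 4 => (DihedralGroup.r 4, Multiplicative.ofAdd 1)
  | 5 => (DihedralGroup.sr 0, Multiplicative.ofAdd 1) * (DihedralGroup.r 1, Multiplicative.ofAdd 1)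
  | _ => 1

theorem rSL : ∀ r ∈ FA.tris, xSL r.1 * xSL r.2.1 = xSL r.2.2 := by decide +kernel
theorem rDZ : ∀ r ∈ FB.tris, xDZ r.1 * xDZ r.2.1 = xDZ r.2.2 := by decide +kernel

/-- the map to `SL(2,3)` -/
def homA : (cx DA_ok).Pi1 →* SL := hom DA_ok (FT.sys FA_ok rfl xSL rSL) KA_ok (fun _ _ => rfl)
/-- the map to `D_10 × Z/3` -/
def homB : (cx DB_ok).Pi1 →* DZ := hom DB_ok (FT.sys FB_ok rfl xDZ rDZ) KB_ok (fun _ _ => rfl)

theorem homA_gE (e : ℕ) (he : e < 4) : homA (gE' DA_ok e) = xSL e := by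
  rw [gE'_eq DA_ok e he, homA, hom_gE]
  exact FT.f_cg xSL FA_ok (s := e) he

theorem homB_gE (e : ℕ) (he : e < 6) : homB (gE' DB_ok e) = xDZ e := by
  rw [gE'_eq DB_ok e he, homB, hom_gE]
  exact FT.f_cg xDZ FB_ok (s := e) he

theorem tA2 : gE' DA_ok 0 ^ 2 ≠ 1 := by
  intro h
  have := congrArg homA h
  rw [map_pow, homA_gE 0 (by norm_num), map_one] at this
  exact absurd this (by decide +kernel)

theorem tA3 : gE' DA_ok 0 ^ 3 ≠ 1 := by
  intro h
  have := congrArg homA h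
  rw [map_pow, homA_gE 0 (by norm_num), map_one] at this
  exact absurd this (by decide +kernel)

theorem tB2 : gE' DB_ok 0 ^ 2 ≠ 1 := by
  intro h
  have := congrArg homB h
  rw [map_pow, homB_gE 0 (by norm_num), map_one] at this
  exact absurd this (by decide +kernel)

theorem tB3 : gE' DB_ok 0 ^ 3 ≠ 1 := by
  intro h
  have := congrArg homB h
  rw [map_pow, homB_gE 0 (by norm_num), map_one] at this
  exact absurd this (by decide +kernel)

theorem phi_inj : ∀ b, Function.Injective (phi b)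
  | false => pow6_inj _ tA6 tA2 tA3
  | true => pow6_inj _ tB6 tB2 tB3

theorem phi_nsurj : ∀ b, ¬ Function.Surjective (phi b)
  | false => by
    intro h
    obtain ⟨x, hx⟩ := h (gE' DA_ok 1)
    have h1 : Commute (gE' DA_ok 1) (gE' DA_ok 0) := by
      rw [← hx]
      exact pow6_comm _ tA6 x
    have := congrArg homA h1.eq
    rw [map_mul, map_mul, homA_gE 0 (by norm_num), homA_gE 1 (by norm_num)] at this
    exact absurd this (by decide +kernel)
  | true => by
    intro h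
    obtain ⟨x, hx⟩ := h (gE' DB_ok 2)
    have h1 : Commute (gE' DB_ok 2) (gE' DB_ok 0) := by
      rw [← hx]
      exact pow6_comm _ tB6 x
    have := congrArg homB h1.eq
    rw [map_mul, map_mul, homB_gE 0 (by norm_num), homB_gE 2 (by norm_num)] at this
    exact absurd this (by decide +kernel)

theorem homA_f (i : ℕ) (hi : i < FA.n) : homA (FA.f (gE' DA_ok) i) = FA.f xSL i :=
  map_f homA FA_ok (gE' DA_ok) xSL (fun s hs => homA_gE s hs) i hi

theorem homB_f (i : ℕ) (hi : i < FB.n) : homB (FB.f (gE' DB_ok) i) = FB.f xDZ i :=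
  map_f homB FB_ok (gE' DB_ok) xDZ (fun s hs => homB_gE s hs) i hi

theorem homA_inj : Function.Injective homA := by
  rw [injective_iff_map_eq_one]
  intro g hg
  obtain ⟨i, hi, rfl⟩ := all_A g
  rw [homA_f i hi] at hg
  have h1 : ∀ i < 24, FA.f xSL i = 1 → i = 0 := by decide +kernel
  rw [h1 i hi hg]
  rfl

theorem homB_inj : Function.Injective homB := by
  rw [injective_iff_map_eq_one]
  intro g hg
  obtain ⟨i, hi, rfl⟩ := all_B g
  rw [homB_f i hi] at hg
  have h1 : ∀ i < 30, FB.f xDZ i = 1 → i = 0 := by decide +kernel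
  rw [h1 i hi hg]
  rfl

theorem homA_surj : Function.Surjective homA := by
  intro m
  have h1 : ∀ m : SL, ∃ i < 24, FA.f xSL i = m := by decide +kernel
  obtain ⟨i, hi, h2⟩ := h1 m
  exact ⟨FA.f (gE' DA_ok) i, by rw [homA_f i hi, h2]⟩

theorem homB_surj : Function.Surjective homB := by
  intro m
  have h1 : ∀ m : DZ, ∃ i < 30, FB.f xDZ i = m := by decide +kernel
  obtain ⟨i, hi, h2⟩ := h1 m
  exact ⟨FB.f (gE' DB_ok) i, by rw [homB_f i hi, h2]⟩

/-- `π₁(X_A) ≅ SL(2,3)` -/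
def eqA : (cx DA_ok).Pi1 ≃* SL := MulEquiv.ofBijective homA ⟨homA_inj, homA_surj⟩
/-- `π₁(X_B) ≅ D_10 × Z/3` -/
def eqB : (cx DB_ok).Pi1 ≃* DZ := MulEquiv.ofBijective homB ⟨homB_inj, homB_surj⟩

end

end Pool.Agent.H832R2
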