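import Pool.Agent.H832R2.SD

/-!
The third cohomology of the complexes obtained by coning off spheres.
-/

namespace Pool.Agent.H832R2

open Matrix Pool.Agent.Helper386.PD3

noncomputable section

namespace SD

variable {D : SD} (h : D.Ok)

/-- the third cohomology -/
abbrev Q : Type := ((cx h).H → (cx h).La) ⧸
  LinearMap.range (Matrix.vecMulLinear ((cx h).D3 (cx h).gen)ᴴ)

/-- the class of a tetrahedron -/
def bas (f : Fin D.nF) : Q h := Submodule.Quotient.mk (Pi.single (M := fun _ => (cx h).La) f 1)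

theorem mk_eq (x : (cx h).H → (cx h).La) :
    (Submodule.Quotient.mk x : Q h) = ∑ f : Fin D.nF, x f • bas h f := by
  have h6 : x = ∑ e : (cx h).H, x e • (Pi.single e (1 : (cx h).La) : (cx h).H → (cx h).La) := by
    ext1 e
    rw [Finset.sum_apply, Finset.sum_eq_single e]
    · simp
    · intro b _ hb
      rw [Pi.smul_apply, Pi.single_eq_of_ne (Ne.symm hb), smul_zero]
    · intro h'; exact absurd (Finset.mem_univ _) h'
  have h7 : (Submodule.Quotient.mk x : Q h) =
      (LinearMap.range (Matrix.vecMulLinear ((cx h).D3 (cx h).gen)ᴴ)).mkQ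
    (∑ e : (cx h).H, x e • (Pi.single e (1 : (cx h).La) : (cx h).H → (cx h).La)) := by
    rw [← h6]
    rfl
  rw [h7, map_sum]
  rfl

theorem rel (t : (cx h).T) : ∑ f : Fin D.nF, star ((cx h).D3 (cx h).gen f t) • bas h f = 0 := by
  rw [← mk_eq h (fun f => star ((cx h).D3 (cx h).gen f t)), Submodule.Quotient.mk_eq_zero]
  refine ⟨Pi.single t 1, ?_⟩
  change Pi.single t 1 ᵥ* ((cx h).D3 (cx h).gen)ᴴ = _
  rw [Matrix.single_one_vecMul]
  rfl

/-- a triangle of the 2-complex -/
def tT (t : ℕ) (ht : t < D.nT) : (cx h).T := Sum.inl ⟨t, ht⟩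
/-- the cone over an edge -/
def tS (s : ℕ) (hs : s < D.nS) : (cx h).T := Sum.inr (Sum.inl ⟨s, hs⟩)

theorem rel_inc (s : ℕ) (hs : s < D.nS) : ∑ f : Fin D.nF, D.inc f s • bas h f = 0 := by
  rw [← rel h (tS h s hs)]
  refine Finset.sum_congr rfl fun f _ => ?_
  have e1 : star ((cx h).D3 (cx h).gen f (tS h s hs)) = D.inc f s • (1 : (cx h).La) := by
    refine (DCx.star_D3 (X := cx h) (g := (cx h).gen) f (tS h s hs)).trans ?_
    have a1 : DCx.dl (tS h s hs = (cx h).f123 f) = 0 := by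
      unfold DCx.dl
      rw [if_neg]
      intro h'
      cases h'
    have a2 : DCx.dl (tS h s hs = (cx h).f023 f) =
        (if s = D.f12 f then 1 else 0) := by
      unfold DCx.dl
      refine if_congr ?_ rfl rfl
      change (Sum.inr (Sum.inl ⟨s, hs⟩) : Fin D.nT ⊕ (Fin D.nS ⊕ Fin D.nI)) = Sum.inr (Sum.inl ⟨D.f12 f, _⟩) ↔ _
      simp
    have a3 : DCx.dl (tS h s hs = (cx h).f013 f) =
        (if s = D.f02 f then 1 else 0) := by
      unfold DCx.dl
      refine if_congr ?_ rfl rfl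
      change (Sum.inr (Sum.inl ⟨s, hs⟩) : Fin D.nT ⊕ (Fin D.nS ⊕ Fin D.nI)) = Sum.inr (Sum.inl ⟨D.f02 f, _⟩) ↔ _
      simp
    have a4 : DCx.dl (tS h s hs = (cx h).f012 f) =
        (if s = D.f01 f then 1 else 0) := by
      unfold DCx.dl
      refine if_congr ?_ rfl rfl
      change (Sum.inr (Sum.inl ⟨s, hs⟩) : Fin D.nT ⊕ (Fin D.nS ⊕ Fin D.nI)) = Sum.inr (Sum.inl ⟨D.f01 f, _⟩) ↔ _
      simp
    rw [a1, a2, a3, a4, zero_smul, zero_sub, ← neg_smul, ← add_smul, ← sub_smul]
    rfl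
  rw [e1, smul_assoc, one_smul]

theorem rel_tl (t : ℕ) (ht : t < D.nT) : ∑ f : Fin D.nF, DCx.dl (t = D.tl f) •
    (DCx.gr (gV h (D.src (D.f01 f)) (h.b2 _ (h.b3 f f.2).1).1)⁻¹ • bas h f) = 0 := by
  rw [← rel h (tT h t ht)]
  refine Finset.sum_congr rfl fun f _ => ?_
  refine Eq.trans ?_ (congrArg (fun z => z • bas h f)
    (DCx.star_D3 (X := cx h) (g := (cx h).gen) f (tT h t ht)).symm)
  have a1 : DCx.dl (tT h t ht = (cx h).f123 f) = DCx.dl (t = D.tl f) := by
    unfold DCx.dl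
    refine if_congr ?_ rfl rfl
    change (Sum.inl ⟨t, ht⟩ : Fin D.nT ⊕ (Fin D.nS ⊕ Fin D.nI)) = Sum.inl ⟨D.tl f, _⟩ ↔ _
    simp
  have a2 : DCx.dl (tT h t ht = (cx h).f023 f) = 0 := by
    unfold DCx.dl
    rw [if_neg]
    intro h'
    cases h'
  have a3 : DCx.dl (tT h t ht = (cx h).f013 f) = 0 := by
    unfold DCx.dl
    rw [if_neg]
    intro h'
    cases h'
  have a4 : DCx.dl (tT h t ht = (cx h).f012 f) = 0 := by
    unfold DCx.dl
    rw [if_neg]
    intro h'
    cases h'
  rw [a1, a2, a3, a4, zero_smul, sub_zero, add_zero, sub_zero, smul_assoc]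
  rfl

/-- certificate that the classes of the tetrahedra in one component agree up to sign -/
structure Dual (D : SD) (root par pe : ℕ → ℕ) : Prop where
  r : ∀ i < D.nI, root i < D.nF ∧ D.idx (root i) = i
  sg : ∀ f < D.nF, D.sgn f * D.sgn f = 1
  p : ∀ f < D.nF, f = root (D.idx f) ∨ (par f < f ∧ D.idx (par f) = D.idx f ∧ pe f < D.nS ∧
    (∀ g < D.nF, D.inc g (pe f) =
      if g = f then D.inc f (pe f) else if g = par f then D.inc (par f) (pe f) else 0) ∧
    D.inc f (pe f) * D.sgn f = -(D.inc (par f) (pe f) * D.sgn (par f)) ∧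
    D.inc f (pe f) * D.inc f (pe f) = 1)

variable {root par pe : ℕ → ℕ}

/-- the class of a component -/
def B (root : ℕ → ℕ) (i : ℕ) : Q h :=
  if hi : root i < D.nF then D.sgn (root i) • bas h ⟨root i, hi⟩ else 0

theorem bas_eq (hd : D.Dual root par pe) : ∀ f (hf : f < D.nF),
    D.sgn f • bas h ⟨f, hf⟩ = B h root (D.idx f) := by
  intro f
  induction f using Nat.strong_induction_on with
  | _ f ih =>
    intro hf
    rcases hd.p f hf with h1 | ⟨h1, h2, h3, h4, h5, h6⟩
    · unfold B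
      rw [dif_pos (hd.r _ (h.b5 f hf)).1]
      congr 1
      · rw [← h1]
      · congr 1
        ext
        exact h1
    · have hp : par f < D.nF := h1.trans hf
      have ih' := ih (par f) h1 hp
      rw [← h2, ← ih']
      have h7 := rel_inc h (pe f) h3
      have hne : (⟨par f, hp⟩ : Fin D.nF) ≠ ⟨f, hf⟩ := by
        intro h'
        have := congrArg Fin.val h'
        simp only at this
        omega
      have h8 : ∑ g : Fin D.nF, D.inc g (pe f) • bas h g =
          D.inc f (pe f) • bas h ⟨f, hf⟩ + D.inc (par f) (pe f) • bas h ⟨par f, hp⟩ := by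
        rw [Fintype.sum_eq_add ⟨f, hf⟩ ⟨par f, hp⟩ hne.symm]
        intro g hg
        rw [h4 g g.2, if_neg (fun h' => hg.1 (Fin.ext h')), if_neg (fun h' => hg.2 (Fin.ext h')),
          zero_smul]
      rw [h8] at h7
      have s1 : bas h ⟨f, hf⟩ = D.sgn f • (D.sgn f • bas h ⟨f, hf⟩) := by
        rw [smul_smul, hd.sg f hf, one_smul]
      have s2 : bas h ⟨par f, hp⟩ = D.sgn (par f) • (D.sgn (par f) • bas h ⟨par f, hp⟩) := by
        rw [smul_smul, hd.sg _ hp, one_smul]
      rw [s1, s2, smul_smul, smul_smul (D.inc (par f) (pe f)), h5, neg_smul] at h7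
      have h9 : (D.inc (par f) (pe f) * D.sgn (par f)) • (D.sgn (par f) • bas h ⟨par f, hp⟩ -
          D.sgn f • bas h ⟨f, hf⟩) = 0 := by
        rw [smul_sub, ← h7]
        abel
      have h10 : (D.inc (par f) (pe f) * D.sgn (par f)) * (D.inc (par f) (pe f) * D.sgn (par f)) = 1 := by
        have : (D.inc (par f) (pe f) * D.sgn (par f)) = -(D.inc f (pe f) * D.sgn f) := by
          rw [h5, neg_neg]
        rw [this, neg_mul_neg, mul_mul_mul_comm, h6, hd.sg f hf, mul_one]
      have h11 := congrArg (fun z => (D.inc (par f) (pe f) * D.sgn (par f)) • z) h9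
      simp only [smul_zero, smul_smul, h10, one_smul] at h11
      exact (sub_eq_zero.1 h11).symm

/-- evaluation of a certificate -/
def W (X' : ℕ → (cx h).La) (i : ℕ) : (cx h).La :=
  ∑ f : Fin D.nF, DCx.dl (i = D.idx f) • (D.sgn f •
    (DCx.gr (gV h (D.src (D.f01 f)) (h.b2 _ (h.b3 f f.2).1).1) * X' (D.tl f)))

theorem cert_rel (hd : D.Dual root par pe) (X' : ℕ → (cx h).La) :
    ∑ i : Fin D.nI, star (W h X' i) • B h root i = 0 := by
  have h1 : ∀ i : Fin D.nI, star (W h X' i) • B h root i =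
      ∑ f : Fin D.nF, DCx.dl ((i : ℕ) = D.idx f) • (star (X' (D.tl f)) •
        (DCx.gr (gV h (D.src (D.f01 f)) (h.b2 _ (h.b3 f f.2).1).1)⁻¹ • bas h f)) := by
    intro i
    rw [W, star_sum, Finset.sum_smul]
    refine Finset.sum_congr rfl fun f _ => ?_
    by_cases hi : (i : ℕ) = D.idx f
    · rw [hi, ← bas_eq h hd f f.2]
      have : (⟨(f : ℕ), f.2⟩ : Fin D.nF) = f := rfl
      rw [this]
      have e1 : DCx.dl ((D.idx f) = D.idx f) = 1 := by simp [DCx.dl]
      rw [e1, one_smul, one_smul, star_smul, star_mul, DCx.star_gr, star_trivial, smul_assoc,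
        smul_comm _ (D.sgn f) (bas h f), smul_smul, hd.sg f f.2, one_smul, mul_smul]
    · have e1 : DCx.dl ((i : ℕ) = D.idx f) = 0 := by simp [DCx.dl, hi]
      rw [e1, zero_smul, zero_smul, star_zero, zero_smul]
  simp only [h1]
  rw [Finset.sum_comm]
  have h2 : ∀ f : Fin D.nF, ∑ i : Fin D.nI, DCx.dl ((i : ℕ) = D.idx f) • (star (X' (D.tl f)) •
        (DCx.gr (gV h (D.src (D.f01 f)) (h.b2 _ (h.b3 f f.2).1).1)⁻¹ • bas h f)) =
      ∑ t : Fin D.nT, DCx.dl ((t : ℕ) = D.tl f) • (star (X' t) •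
        (DCx.gr (gV h (D.src (D.f01 f)) (h.b2 _ (h.b3 f f.2).1).1)⁻¹ • bas h f)) := by
    intro f
    rw [Finset.sum_eq_single ⟨D.idx f, h.b5 f f.2⟩, Finset.sum_eq_single
      ⟨D.tl f, (h.b3 f f.2).2.2.2⟩]
    · simp [DCx.dl]
    · intro t _ ht
      have : ¬ ((t : ℕ) = D.tl f) := fun h' => ht (Fin.ext h')
      simp [DCx.dl, this]
    · intro h'; exact absurd (Finset.mem_univ _) h'
    · intro t _ ht
      have : ¬ ((t : ℕ) = D.idx f) := fun h' => ht (Fin.ext h')
      simp [DCx.dl, this]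
    · intro h'; exact absurd (Finset.mem_univ _) h'
  simp only [h2]
  rw [Finset.sum_comm]
  refine Finset.sum_eq_zero fun t _ => ?_
  have h3 := rel_tl h t t.2
  have h4 : ∑ f : Fin D.nF, DCx.dl ((t : ℕ) = D.tl f) • (star (X' t) •
        (DCx.gr (gV h (D.src (D.f01 f)) (h.b2 _ (h.b3 f f.2).1).1)⁻¹ • bas h f)) =
      star (X' t) • ∑ f : Fin D.nF, DCx.dl ((t : ℕ) = D.tl f) •
        (DCx.gr (gV h (D.src (D.f01 f)) (h.b2 _ (h.b3 f f.2).1).1)⁻¹ • bas h f) := by
    rw [Finset.smul_sum]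
    refine Finset.sum_congr rfl fun f _ => ?_
    rw [smul_comm]
  rw [h4, h3, smul_zero]

/-- the fundamental cycle -/
def fc (D : SD) (i0 : ℕ) (f : ℕ) : ℤ := if D.idx f = i0 then D.sgn f else 0

theorem inj_of (hd : D.Dual root par pe) (i0 : ℕ) (hB : ∀ i < D.nI, i ≠ i0 → B h root i = 0)
    (hg : ∀ g : (cx h).Pi1, DCx.gr g • B h root i0 = B h root i0)
    (x : (cx h).H → (cx h).La) (hx : ∑ f : Fin D.nF, eps (x f) * D.fc i0 f = 0) :
    ∃ z, x = z ᵥ* ((cx h).D3 (cx h).gen)ᴴ := by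
  have h0 : (Submodule.Quotient.mk x : Q h) = 0 := by
    rw [mk_eq]
    have h1 : ∀ f : Fin D.nF, x f • bas h f = (eps (x f) * D.fc i0 f) • B h root i0 := by
      intro f
      have e1 : bas h f = D.sgn f • B h root (D.idx f) := by
        rw [← bas_eq h hd f f.2, smul_smul, hd.sg f f.2, one_smul]
      by_cases hi : D.idx f = i0
      · rw [e1, hi, fc, if_pos hi, smul_comm]
        have h2 : ∀ y : (cx h).La, y • B h root i0 = eps y • B h root i0 := by
          intro y
          induction y using rr_ind with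
          | h1 g => rw [hg, eps_of, one_smul]
          | h2 x y hx hy => rw [add_smul, map_add, add_smul, hx, hy]
          | h3 x hx => rw [neg_smul, map_neg, neg_smul, hx]
        rw [h2, smul_smul, mul_comm]
      · rw [e1, hB _ (h.b5 f f.2) hi, smul_zero, smul_zero, fc, if_neg hi, mul_zero, zero_smul]
    simp only [h1]
    rw [← Finset.sum_smul, hx, zero_smul]
  rw [Submodule.Quotient.mk_eq_zero] at h0
  obtain ⟨z, hz⟩ := h0
  exact ⟨z, hz.symm⟩

/-- invariance under the generators suffices -/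
theorem inv_of {b : Q h} (hg : ∀ e : (cx h).E, DCx.gr ((cx h).gen e) • b = b) (g : (cx h).Pi1) :
    DCx.gr g • b = b := by
  induction g using DCx.pi1_ind with
  | h1 e => exact hg e
  | h2 => rw [DCx.gr_one, one_smul]
  | h3 x y hx hy => rw [DCx.gr_mul, mul_smul, hy, hx]
  | h4 x hx =>
    have : DCx.gr x⁻¹ • (DCx.gr x • b) = b := by
      rw [smul_smul, ← DCx.gr_mul, inv_mul_cancel, DCx.gr_one, one_smul]
    rw [hx] at this
    exact this

end SD

end

end Pool.Agent.H832R2
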