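import Pool.Agent.H832R2.Fox

/-!
A `PD_3`-complex of our kind with finite fundamental group `G` gives a periodic resolution over
`ℤ[G]`.
-/

namespace Pool.Agent.H832R2

open Matrix Pool.Agent.Helper386.PD3

set_option linter.unusedSectionVars false

noncomputable section

namespace DCx

section

variable {G : Type} [Group G]

theorem gr_coeff_mul (g : G) (x : MonoidAlgebra ℤ G) (y : G) :
    (gr g * x).coeff y = x.coeff (g⁻¹ * y) := by
  have := MonoidAlgebra.coeff_single_mul_apply (R := ℤ) x 1 g y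
  rw [one_mul] at this
  exact this

theorem gr_coeff (g y : G) [Decidable (g = y)] :
    (gr g : MonoidAlgebra ℤ G).coeff y = if g = y then 1 else 0 := by
  classical
  change (Finsupp.single g (1 : ℤ)) y = _
  rw [Finsupp.single_apply]

theorem ext_coeff {x y : MonoidAlgebra ℤ G} (h : ∀ g, x.coeff g = y.coeff g) : x = y := by
  ext g
  exact h g

variable [Fintype G]

/-- an element of the group ring with given coefficients -/
def mkf (f : G → ℤ) : MonoidAlgebra ℤ G := ∑ x, f x • gr x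

theorem mkf_coeff (f : G → ℤ) (y : G) : (mkf f).coeff y = f y := by
  classical
  have h1 : (mkf f).coeff y = ∑ x, (f x • (gr x : MonoidAlgebra ℤ G)).coeff y := by
    change (MonoidAlgebra.coeffAddEquiv (R := ℤ) (M := G) (mkf f)) y = _
    rw [mkf, map_sum, Finsupp.finsetSum_apply]
    rfl
  rw [h1, Finset.sum_eq_single y]
  · rw [MonoidAlgebra.coeff_smul, Finsupp.smul_apply, gr_coeff, if_pos rfl, smul_eq_mul, mul_one]
  · intro x _ hx
    rw [MonoidAlgebra.coeff_smul, Finsupp.smul_apply, gr_coeff, if_neg hx, smul_zero]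
  · intro h; exact absurd (Finset.mem_univ _) h

/-- derivations of a finite group with values in the group ring are inner -/
theorem der_inner (δ : G → MonoidAlgebra ℤ G) (hδ : ∀ x y, δ (x * y) = gr x * δ y + δ x) :
    ∃ m, ∀ g, δ g = gr g * m - m := by
  refine ⟨mkf (fun x => -(δ x).coeff x), fun g => ?_⟩
  apply ext_coeff
  intro x
  have h1 := hδ g (g⁻¹ * x)
  rw [mul_inv_cancel_left] at h1
  rw [MonoidAlgebra.coeff_sub, Finsupp.sub_apply, gr_coeff_mul, mkf_coeff, mkf_coeff, h1,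
    MonoidAlgebra.coeff_add, Finsupp.add_apply, gr_coeff_mul]
  ring

/-- the norm element -/
def NN (G : Type) [Group G] [Fintype G] : MonoidAlgebra ℤ G := mkf (fun _ => 1)

theorem gr_NN (g : G) : gr g * NN G = NN G := by
  apply ext_coeff
  intro x
  rw [gr_coeff_mul, NN, mkf_coeff, mkf_coeff]

theorem star_coeff (x : MonoidAlgebra ℤ G) (g : G) : (star x).coeff g = x.coeff g⁻¹ := by
  classical
  induction x using rr_ind with
  | h1 k =>
    rw [star_gr, gr_coeff, gr_coeff]
    refine if_congr ?_ rfl rfl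
    rw [inv_eq_iff_eq_inv]
  | h2 x y hx hy =>
    rw [star_add, MonoidAlgebra.coeff_add, MonoidAlgebra.coeff_add, Finsupp.add_apply,
      Finsupp.add_apply, hx, hy]
  | h3 x hx =>
    rw [star_neg, MonoidAlgebra.coeff_neg, MonoidAlgebra.coeff_neg, Finsupp.neg_apply,
      Finsupp.neg_apply, hx]

theorem star_NN : star (NN G) = NN G := by
  apply ext_coeff
  intro x
  rw [star_coeff, NN, mkf_coeff, mkf_coeff]

theorem NN_gr (g : G) : NN G * gr g = NN G := by
  have := congrArg star (gr_NN g⁻¹)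
  rw [star_mul, star_NN, star_gr, inv_inv] at this
  exact this

theorem inv_eq_NN (v : MonoidAlgebra ℤ G) (hv : ∀ g, v * gr g = v) : v = v.coeff 1 • NN G := by
  have h2 : ∀ g, gr g * star v = star v := by
    intro g
    have := congrArg star (hv g⁻¹)
    rw [star_mul, star_gr, inv_inv] at this
    exact this
  apply ext_coeff
  intro x
  rw [MonoidAlgebra.coeff_smul, Finsupp.smul_apply, NN, mkf_coeff, smul_eq_mul, mul_one]
  have h3 := congrArg (fun z : MonoidAlgebra ℤ G => z.coeff 1) (h2 x)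
  simp only [gr_coeff_mul, star_coeff, mul_one, inv_inv, inv_one] at h3
  exact h3

end

section

variable (X : DCx) [Fintype X.Pi1]

/-- `H¹` of the universal cover with finite fundamental group vanishes. -/
theorem coexact (y : X.E → X.La) (hy : y ᵥ* (X.D2 X.gen)ᴴ = 0) :
    ∃ w : Unit → X.La, y = w ᵥ* (X.D1 X.gen)ᴴ := by
  have hb : ∀ t, gr (X.gen (X.e01 t)) • star (y (X.e12 t)) + star (y (X.e01 t)) =
      star (y (X.e02 t)) := by
    intro t
    have h1 := congrArg star (congrFun hy t)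
    have h2 : (y ᵥ* (X.D2 X.gen)ᴴ) t = ∑ e, y e * star (X.D2 X.gen t e) := rfl
    rw [h2, star_sum, Pi.zero_apply, star_zero] at h1
    have h3 : ∑ e, star (y e * star (X.D2 X.gen t e)) = ∑ e, X.D2 X.gen t e * star (y e) := by
      refine Finset.sum_congr rfl fun e _ => ?_
      rw [star_mul, star_star]
    rw [h3] at h1
    have h4 := D2_row (g := X.gen) (Matrix.of fun (e : X.E) (_ : Unit) => star (y e)) t ()
    rw [Matrix.mul_apply] at h4
    simp only [Matrix.of_apply] at h4
    rw [h1] at h4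
    rw [smul_eq_mul, ← sub_eq_zero, h4]
    abel
  obtain ⟨δ, h1, h2⟩ := exists_der (fun e => star (y e)) hb
  obtain ⟨m, hm⟩ := der_inner δ h2
  refine ⟨fun _ => star m, ?_⟩
  ext1 e
  have h3 : ((fun _ => star m) ᵥ* (X.D1 X.gen)ᴴ) e = star m * star (gr (X.gen e) - 1) := by
    have : ((fun _ : Unit => star m) ᵥ* (X.D1 X.gen)ᴴ) e =
      ∑ u : Unit, star m * star (X.D1 X.gen e u) := rfl
    rw [this]
    simp [D1]
  rw [h3, ← star_mul, sub_mul, one_mul, ← hm, h1, star_star]

theorem vec_D1H (w : Unit → X.La) (e : X.E) :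
    (w ᵥ* (X.D1 X.gen)ᴴ) e = w () * (gr (X.gen e)⁻¹ - 1) := by
  have : (w ᵥ* (X.D1 X.gen)ᴴ) e = ∑ u : Unit, w u * star (X.D1 X.gen e u) := rfl
  rw [this]
  simp only [D1, star_sub, star_gr, star_one]
  simp

theorem inv_of_gen (v : X.La) (hv : ∀ e, v * (gr (X.gen e)⁻¹ - 1) = 0) : ∀ g, v * gr g = v := by
  intro g
  induction g using pi1_ind with
  | h1 e =>
    have := hv e
    rw [mul_sub, mul_one, sub_eq_zero] at this
    conv_lhs => rw [← this]
    rw [mul_assoc, ← gr_mul, inv_mul_cancel, gr_one, mul_one]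
  | h2 => rw [gr_one, mul_one]
  | h3 x y hx hy => rw [gr_mul, ← mul_assoc, hx, hy]
  | h4 x hx =>
    conv_lhs => rw [← hx]
    rw [mul_assoc, ← gr_mul, mul_inv_cancel, gr_one, mul_one]

theorem periodDvdFour (h : X.IsPD3) : PeriodDvdFour X.Pi1 := by
  obtain ⟨c, hc, ⟨f1, f2, f3⟩, K0, K1, K2, K3, S0, S1, S2, T0, T1, T2, ⟨k1, k2, k3⟩,
    ⟨-, -, -, -⟩, ⟨t0, t1, t2, t3⟩⟩ := h
  have hcne : ∃ s, c s ≠ 0 := by
    by_contra hno
    push Not at hno
    have h0 : X.Cap0 c = (0 : Matrix X.H Unit X.La) := by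
      ext1 s u
      simp [Cap0, hno s]
    rw [h0, Matrix.mul_zero] at t0
    have h1 := congrFun (congrFun t0 ()) ()
    rw [Matrix.zero_apply, Matrix.add_apply, Matrix.one_apply_eq] at h1
    have h2 := congrArg eps h1
    rw [map_zero, map_add, map_one] at h2
    have h3 : (T0 * X.D1 X.gen) () () = ((T0 ()) ᵥ* X.D1 X.gen) () := rfl
    rw [h3, eps_D1] at h2
    norm_num at h2
  have hNF : ∀ n : ℤ, (fun _ : Unit => n • NN X.Pi1) ᵥ* X.Cap3 X.gen c =
      fun s => (n * c s) • NN X.Pi1 := by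
    intro n
    ext1 s
    have : ((fun _ : Unit => n • NN X.Pi1) ᵥ* X.Cap3 X.gen c) s =
      ∑ u : Unit, (n • NN X.Pi1) * X.Cap3 X.gen c u s := rfl
    rw [this]
    simp only [Cap3, Finset.univ_unique, Finset.sum_const, Finset.card_singleton, one_smul]
    rw [smul_mul_assoc, mul_smul_comm, NN_gr, smul_smul]
  refine ⟨Unit → X.La, X.E → X.La, X.T → X.La, X.H → X.La, inferInstance, inferInstance,
    inferInstance, inferInstance, inferInstance, inferInstance, inferInstance, inferInstance,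
    { toFun := fun n s => (n * c s) • NN X.Pi1
      map_zero' := by funext s; simp
      map_add' := by intro a b; funext s; simp [add_mul, add_smul] },
    Matrix.vecMulLinear (X.D3 X.gen), Matrix.vecMulLinear (X.D2 X.gen),
    Matrix.vecMulLinear (X.D1 X.gen),
    { toFun := fun x => eps (x ())
      map_zero' := by simp
      map_add' := by intro a b; simp },
    ⟨inferInstance, inferInstance, inferInstance, inferInstance⟩,
    ⟨inferInstance, inferInstance, inferInstance, inferInstance⟩, ?_, ?_, ?_, ?_, ?_, ?_, ?_, ?_⟩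
  · intro g n
    funext s
    change gr g * ((n * c s) • NN X.Pi1) = (n * c s) • NN X.Pi1
    rw [mul_smul_comm, gr_NN]
  · intro g x
    change eps (gr g * x ()) = eps (x ())
    rw [map_mul, eps_of, one_mul]
  · obtain ⟨s, hs⟩ := hcne
    rw [injective_iff_map_eq_zero]
    intro n hn
    have h1 := congrArg (fun z : X.La => z.coeff 1) (congrFun hn s)
    have h2 : ((n * c s) • NN X.Pi1).coeff 1 = n * c s := by
      rw [MonoidAlgebra.coeff_smul, Finsupp.smul_apply, NN, mkf_coeff, smul_eq_mul, mul_one]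
    have h3 : n * c s = 0 := by
      rw [← h2]
      exact h1
    exact (mul_eq_zero.1 h3).resolve_right hs
  · intro x
    constructor
    · intro hx
      change x ᵥ* X.D3 X.gen = 0 at hx
      have h1 : x ᵥ* (K3 * X.Cap3 X.gen c) = x := by
        rw [t3, Matrix.vecMul_add, Matrix.vecMul_one, ← Matrix.vecMul_vecMul, hx,
          Matrix.zero_vecMul, add_zero]
      have h2 : (x ᵥ* K3) ᵥ* (-(X.D1 X.gen)ᴴ) = 0 := by
        rw [Matrix.vecMul_vecMul, k3, ← Matrix.vecMul_vecMul, hx, Matrix.zero_vecMul]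
      rw [Matrix.vecMul_neg, neg_eq_zero] at h2
      have h3 := X.inv_of_gen ((x ᵥ* K3) ()) (fun e => by
        rw [← vec_D1H, h2]; rfl)
      have h4 := inv_eq_NN _ h3
      refine ⟨((x ᵥ* K3) ()).coeff 1, ?_⟩
      change (fun s => (((x ᵥ* K3) ()).coeff 1 * c s) • NN X.Pi1) = x
      rw [← hNF]
      conv_rhs => rw [← h1, ← Matrix.vecMul_vecMul]
      congr 1
      funext u
      exact h4.symm
    · rintro ⟨n, rfl⟩
      change (fun s => (n * c s) • NN X.Pi1) ᵥ* X.D3 X.gen = 0
      rw [← hNF, Matrix.vecMul_vecMul, f3, ← Matrix.vecMul_vecMul]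
      have : (fun _ : Unit => n • NN X.Pi1) ᵥ* (-(X.D1 X.gen)ᴴ) = 0 := by
        rw [Matrix.vecMul_neg, neg_eq_zero]
        funext e
        rw [vec_D1H, smul_mul_assoc, mul_sub, NN_gr, mul_one, sub_self, smul_zero]
        rfl
      rw [this, Matrix.zero_vecMul]
  · intro x
    constructor
    · intro hx
      change x ᵥ* X.D2 X.gen = 0 at hx
      have h2 : (x ᵥ* K2) ᵥ* (X.D2 X.gen)ᴴ = 0 := by
        rw [Matrix.vecMul_vecMul, k2, ← Matrix.vecMul_vecMul, hx, Matrix.zero_vecMul]
      obtain ⟨w, hw⟩ := X.coexact _ h2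
      have h3 : (x ᵥ* K2) ᵥ* X.Cap2 X.gen c = (-w) ᵥ* X.Cap3 X.gen c ᵥ* X.D3 X.gen := by
        rw [Matrix.vecMul_vecMul (-w), f3, ← Matrix.vecMul_vecMul, Matrix.vecMul_neg,
          Matrix.neg_vecMul, Matrix.neg_vecMul, Matrix.neg_vecMul, neg_neg, ← hw]
      rw [Matrix.vecMul_vecMul, t2, Matrix.vecMul_add, Matrix.vecMul_one, Matrix.vecMul_add,
        ← Matrix.vecMul_vecMul, hx, Matrix.zero_vecMul, zero_add, ← Matrix.vecMul_vecMul] at h3
      refine ⟨(-w) ᵥ* X.Cap3 X.gen c - x ᵥ* T2, ?_⟩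
      change ((-w) ᵥ* X.Cap3 X.gen c - x ᵥ* T2) ᵥ* X.D3 X.gen = x
      rw [Matrix.sub_vecMul, ← h3]
      abel
    · rintro ⟨y, rfl⟩
      change (y ᵥ* X.D3 X.gen) ᵥ* X.D2 X.gen = 0
      rw [Matrix.vecMul_vecMul, D3D2 X.gen_rel, Matrix.vecMul_zero]
  · intro x
    constructor
    · intro hx
      change x ᵥ* X.D1 X.gen = 0 at hx
      obtain ⟨y, hy⟩ := X.exact1 x hx
      exact ⟨y, hy.symm⟩
    · rintro ⟨y, rfl⟩
      change (y ᵥ* X.D2 X.gen) ᵥ* X.D1 X.gen = 0
      rw [Matrix.vecMul_vecMul, D2D1 X.gen_rel, Matrix.vecMul_zero]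
  · intro x
    constructor
    · intro hx
      change eps (x ()) = 0 at hx
      obtain ⟨y, hy⟩ := X.exact0 (x ())
      refine ⟨y, ?_⟩
      funext u
      change (y ᵥ* X.D1 X.gen) () = x ()
      rw [hy, hx]
      simp
    · rintro ⟨y, rfl⟩
      exact X.eps_D1 y
  · intro n
    exact ⟨fun _ => (n : X.La), by
      change eps (n : X.La) = n
      simp⟩

end

end DCx

end

end Pool.Agent.H832R2
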