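import Pool.Agent.H832R2.Grp2
import Pool.Agent.H832R2.Per

/-!
`π₁(X)` is indecomposable and finitely generated; periodicity of the vertex groups.
-/

namespace Pool.Agent.H832R2

open SD

noncomputable section

theorem rho_t : rho (gE' DX_ok 0) = Monoid.PushoutI.base phi (Multiplicative.ofAdd 1) := by
  rw [rho_A 0 (by norm_num), jA_t]

theorem t_pow_ne (n : ℕ) (hn : 0 < n) (hn6 : n < 6) : gE' DX_ok 0 ^ n ≠ 1 := by
  intro h
  have h1 := congrArg rho h
  rw [map_pow, rho_t, ← map_pow] at h1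
  have h2 := Monoid.PushoutI.base_injective phi_inj
    ((h1.trans (map_one rho)).trans (map_one (Monoid.PushoutI.base phi)).symm)
  have h3 : ∀ n < 6, (Multiplicative.ofAdd (1 : ZMod 6)) ^ n = 1 → n = 0 := by decide +kernel
  have := h3 n hn6 h2
  omega

theorem fX1 : FA.f (fun s => gE' DX_ok s) 1 = gE' DX_ok 0 := by
  have h3 := FT.f_cg (fun s => gE' DX_ok s) FA_ok (s := 0) (by decide +kernel)
  have h1 : FA.cg 0 = 1 := by decide +kernel
  rwa [h1] at h3

theorem fXB1 : FB.f (fun s => gE' DX_ok (gXB s)) 1 = gE' DX_ok 0 := by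
  have h3 := FT.f_cg (fun s => gE' DX_ok (gXB s)) FB_ok (s := 0) (by decide +kernel)
  have h1 : FB.cg 0 = 1 := by decide +kernel
  rwa [h1] at h3

theorem fX3 : FA.f (fun s => gE' DX_ok s) 3 = gE' DX_ok 0 ^ 3 := by
  have hm := FT.f_mul (fun s => gE' DX_ok s) FA_ok relXA
  have h : FA.tab (FA.tab 1 1) 1 = 3 := by decide +kernel
  have h2 := hm (FA.tab 1 1) (by decide +kernel) 1 (by decide +kernel)
  rw [h, hm 1 (by decide +kernel) 1 (by decide +kernel), fX1] at h2
  rw [h2, pow_succ, pow_two]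

theorem fXB2 : FB.f (fun s => gE' DX_ok (gXB s)) 2 = gE' DX_ok 0 ^ 2 := by
  have hm := FT.f_mul (fun s => gE' DX_ok (gXB s)) FB_ok relXB
  have h : FB.tab 1 1 = 2 := by decide +kernel
  have h2 := hm 1 (by decide +kernel) 1 (by decide +kernel)
  rw [h, fXB1] at h2
  rw [h2, pow_two]

theorem comm_A (e : ℕ) (he : e < 4) : Commute (gE' DX_ok e) (gE' DX_ok 0 ^ 3) := by
  have hm := FT.f_mul (fun s => gE' DX_ok s) FA_ok relXA
  have h3 := FT.f_cg (fun s => gE' DX_ok s) FA_ok (s := e) he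
  have hlt : FA.cg e < FA.n := FA_ok.cgl e he
  have h4 : ∀ i < 24, FA.tab i 3 = FA.tab 3 i := by decide +kernel
  unfold Commute SemiconjBy
  rw [← fX3, ← h3, ← hm _ hlt _ (by decide +kernel), ← hm _ (by decide +kernel) _ hlt, h4 _ hlt]

theorem comm_B (e : ℕ) (he : e < 6) : Commute (gE' DX_ok (gXB e)) (gE' DX_ok 0 ^ 2) := by
  have hm := FT.f_mul (fun s => gE' DX_ok (gXB s)) FB_ok relXB
  have h3 := FT.f_cg (fun s => gE' DX_ok (gXB s)) FB_ok (s := e) he
  have hlt : FB.cg e < FB.n := FB_ok.cgl e he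
  have h4 : ∀ i < 30, FB.tab i 2 = FB.tab 2 i := by decide +kernel
  unfold Commute SemiconjBy
  rw [← fXB2, ← h3, ← hm _ hlt _ (by decide +kernel), ← hm _ (by decide +kernel) _ hlt, h4 _ hlt]

theorem indecomposable_X : Indecomposable (cx DX_ok).Pi1 := by
  rintro G₁ G₂ _ _ ⟨θ⟩
  refine indec (gE' DX_ok 0 ^ 3) (gE' DX_ok 0 ^ 2) ?_ (t_pow_ne 3 (by norm_num) (by norm_num))
    (t_pow_ne 2 (by norm_num) (by norm_num)) ?_ ?_ θ
  · rw [← pow_add, tX6]
  · exact (Commute.refl _).pow_pow 2 3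
  · intro H h1 h2
    apply gen_mem DX_ok DX_vt
    intro e he
    rw [← gE'_eq DX_ok e he]
    by_cases h4 : e < 4
    · exact h1 _ (comm_A e h4)
    · have he' : e < 9 := he
      have h5 : e = gXB (e - 3) := by
        rw [gXB, if_neg (by omega)]
        omega
      rw [h5]
      exact h2 _ (comm_B _ (by omega))

theorem fg_X : Group.FG (cx DX_ok).Pi1 := by
  rw [Group.fg_iff]
  exact ⟨Set.range (PresentedGroup.of : (cx DX_ok).E → (cx DX_ok).Pi1),
    PresentedGroup.closure_range_of _, Set.finite_range _⟩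

theorem period_GG : ∀ b, PeriodDvdFour (GG b)
  | false => by
    have : Fintype (cx DA_ok).Pi1 := Fintype.ofFinite _
    exact (cx DA_ok).periodDvdFour isPD3_A
  | true => by
    have : Fintype (cx DB_ok).Pi1 := Fintype.ofFinite _
    exact (cx DB_ok).periodDvdFour isPD3_B

end

end Pool.Agent.H832R2
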