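import Pool.Agent.Helper386.PD3.Alg
import Pool.Agent.H832R2.Defs

/-!
The trace, and Kaplansky's theorem over `ℤ[G]`.
-/

namespace Pool.Agent.H832R2

open Pool.Agent.Helper386.PD3

noncomputable section

variable {G : Type} [Group G]

theorem star_def (x : MonoidAlgebra ℤ G) : star x = x.mapDomain (fun g => g⁻¹) := rfl

@[simp] theorem star_single (g : G) (n : ℤ) :
    star (MonoidAlgebra.single g n) = MonoidAlgebra.single g⁻¹ n := by
  rw [star_def]; simp

@[simp] theorem star_of (g : G) :
    star (MonoidAlgebra.of ℤ G g) = MonoidAlgebra.of ℤ G g⁻¹ := by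
  simp [MonoidAlgebra.of_apply]

/-- coefficient at `1` -/
def tau (x : MonoidAlgebra ℤ G) : ℤ := x.coeff 1

theorem tau_iota (x : MonoidAlgebra ℤ G) : τ (iota 1 x) = (tau x : ℤ) := τ_iota 1 x

theorem tau_comm (x y : MonoidAlgebra ℤ G) : tau (x * y) = tau (y * x) := by
  have h : ((tau (x * y) : ℤ) : ℝ) = (tau (y * x) : ℤ) := by
    rw [← tau_iota, ← tau_iota, map_mul, map_mul, τ_comm]
  exact_mod_cast h

theorem tau_add (x y : MonoidAlgebra ℤ G) : tau (x + y) = tau x + tau y := rfl
theorem tau_one : tau (1 : MonoidAlgebra ℤ G) = 1 := by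
  simp [tau]
theorem tau_sum {ι : Type*} (s : Finset ι) (f : ι → MonoidAlgebra ℤ G) :
    tau (∑ i ∈ s, f i) = ∑ i ∈ s, tau (f i) :=
  map_sum (AddMonoidHom.mk' (tau : MonoidAlgebra ℤ G → ℤ) tau_add) f s

open scoped Classical in
theorem iota_inj (x : MonoidAlgebra ℤ G) (h : iota (1 : G →* ℝ) x = 0) : x = 0 := by
  have key : ∀ (x : MonoidAlgebra ℤ G) (g : G), (iota (1 : G →* ℝ) x).1.2 (dl 1) g = (x.coeff g : ℤ) := by
    intro x
    induction x using rr_ind with
    | h1 k =>
      intro g
      rw [iota_of]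
      have h1 : ((((1 : G →* ℝ) k) • lamA k).1.2 (dl (1 : G))) g = ((1 : G →* ℝ) k) * dl (1 : G) (k⁻¹ * g) := rfl
      rw [h1, dl_apply]
      have h2 : (gof k : RR G).coeff g = (Finsupp.single k (1 : ℤ)) g := rfl
      rw [h2, Finsupp.single_apply]
      by_cases hk : k = g
      · subst hk
        simp
      · have h3 : ¬ (k⁻¹ * g = 1) := fun h' => hk (inv_mul_eq_one.1 h')
        rw [if_neg hk, if_neg h3, mul_zero, Int.cast_zero]
    | h2 x y hx hy =>
      intro g
      rw [map_add]
      have : (iota (1 : G →* ℝ) x + iota (1 : G →* ℝ) y).1.2 (dl 1) g =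
        (iota (1 : G →* ℝ) x).1.2 (dl 1) g + (iota (1 : G →* ℝ) y).1.2 (dl 1) g := rfl
      rw [this, hx, hy, MonoidAlgebra.coeff_add, Finsupp.add_apply]
      push_cast
      rfl
    | h3 x hx =>
      intro g
      rw [map_neg]
      have : (-iota (1 : G →* ℝ) x).1.2 (dl 1) g = -(iota (1 : G →* ℝ) x).1.2 (dl 1) g := rfl
      rw [this, hx, MonoidAlgebra.coeff_neg, Finsupp.neg_apply]
      push_cast
      rfl
  ext g
  have h1 := key x g
  rw [h] at h1
  have h2 : ((x.coeff g : ℤ) : ℝ) = 0 := by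
    rw [← h1]
    rfl
  have h3 : (x.coeff g : ℤ) = 0 := by exact_mod_cast h2
  rw [h3]
  rfl

/-- the trace of a matrix over `ℤ[G]`: the sum of the coefficients at `1` of the diagonal entries -/
def trc {m : Type} [Fintype m] (M : Matrix m m (MonoidAlgebra ℤ G)) : ℤ := ∑ i, tau (M i i)

section
variable {m n : Type} [Fintype m] [Fintype n]

theorem trc_comm (M : Matrix m n (MonoidAlgebra ℤ G)) (N : Matrix n m (MonoidAlgebra ℤ G)) :
    trc (M * N) = trc (N * M) := by
  simp only [trc, Matrix.mul_apply, tau_sum]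
  rw [Finset.sum_comm]
  exact Finset.sum_congr rfl fun i _ => Finset.sum_congr rfl fun j _ => tau_comm _ _

theorem trc_add (M N : Matrix m m (MonoidAlgebra ℤ G)) : trc (M + N) = trc M + trc N := by
  simp only [trc, Matrix.add_apply, tau_add, Finset.sum_add_distrib]

theorem trc_one [DecidableEq m] : trc (1 : Matrix m m (MonoidAlgebra ℤ G)) = Fintype.card m := by
  simp [trc, tau_one]

theorem trc_zero : trc (0 : Matrix m m (MonoidAlgebra ℤ G)) = 0 := by
  simp [trc, tau]

/-- Kaplansky's theorem -/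
theorem kap (M : Matrix m m (MonoidAlgebra ℤ G)) (h : M * M = M) (h0 : trc M = 0) : M = 0 := by
  classical
  let e := Fintype.equivFin m
  let N : Matrix (Fin (Fintype.card m)) (Fin (Fintype.card m)) (MonoidAlgebra ℤ G) := M.submatrix e.symm e.symm
  have hN : N * N = N := by
    simp only [N]
    rw [Matrix.submatrix_mul_equiv, h]
  let Q := N.map (iota (1 : G →* ℝ))
  have hQ : Q * Q = Q := by
    simp only [Q]
    rw [← Matrix.map_mul, hN]
  have h2 := (idem_trace hQ).2
  have h3 : Tr Q = 0 := by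
    have : Tr Q = ((trc M : ℤ) : ℝ) := by
      simp only [Tr, trc]
      push_cast
      rw [← e.sum_comp]
      refine Finset.sum_congr rfl fun i _ => ?_
      simp only [Q, N, Matrix.map_apply, Matrix.submatrix_apply, Equiv.symm_apply_apply]
      exact tau_iota _
    rw [this, h0]
    simp
  have h4 := h2 h3
  ext1 i j
  have h5 := congrFun (congrFun h4 (e i)) (e j)
  simp only [Q, N, Matrix.map_apply, Matrix.submatrix_apply, Equiv.symm_apply_apply] at h5
  exact iota_inj _ h5

end

end

end Pool.Agent.H832R2
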