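import Pool.Agent.H832R2.DatA
import Pool.Agent.H832R2.DatB
import Pool.Agent.H832R2.ChkX1
import Pool.Agent.H832R2.ChkX2

/-!
The three complexes are `PD_3`-complexes.
-/

namespace Pool.Agent.H832R2

open SD

noncomputable section

theorem relA : ∀ r ∈ FA.tris, gE' DA_ok r.1 * gE' DA_ok r.2.1 = gE' DA_ok r.2.2 :=
  rel_of DA_ok FA.tris (fun s => s) (by decide +kernel)

theorem relB : ∀ r ∈ FB.tris, gE' DB_ok r.1 * gE' DB_ok r.2.1 = gE' DB_ok r.2.2 :=
  rel_of DB_ok FB.tris (fun s => s) (by decide +kernel)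

/-- edges of the common complex which generate the second group -/
def gXB (s : ℕ) : ℕ := if s = 0 then 0 else s + 3

theorem relXA : ∀ r ∈ FA.tris, gE' DX_ok r.1 * gE' DX_ok r.2.1 = gE' DX_ok r.2.2 :=
  rel_of DX_ok FA.tris (fun s => s) (by decide +kernel)

theorem relXB : ∀ r ∈ FB.tris, gE' DX_ok (gXB r.1) * gE' DX_ok (gXB r.2.1) =
    gE' DX_ok (gXB r.2.2) :=
  rel_of DX_ok FB.tris gXB (by decide +kernel)

/-- codes in `π₁(X_A)` -/
def SA : Sys (cx DA_ok).Pi1 := FT.sys FA_ok rfl (gE' DA_ok) relA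
/-- codes in `π₁(X_B)` -/
def SB : Sys (cx DB_ok).Pi1 := FT.sys FB_ok rfl (gE' DB_ok) relB

/-- codes in `π₁(X)` -/
def RX : AmRep (cx DX_ok).Pi1 where
  fA := FA.f (fun s => gE' DX_ok s)
  fB := FB.f (fun s => gE' DX_ok (gXB s))
  mA := FT.f_mul _ FA_ok relXA
  mB := FT.f_mul _ FB_ok relXB
  one := by
    have h1 : FA.cg 0 = 1 := by decide +kernel
    have h2 : FB.cg 0 = 1 := by decide +kernel
    have h3 := FT.f_cg (fun s => gE' DX_ok s) FA_ok (s := 0) (by decide +kernel)
    have h4 := FT.f_cg (fun s => gE' DX_ok (gXB s)) FB_ok (s := 0) (by decide +kernel)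
    rw [h1] at h3
    rw [h2] at h4
    rw [h3, h4]
    rfl

theorem hlA : ∀ e (he : e < DA.nE), gE DA_ok e he = SA.lt (KA.lE e) := by
  intro e he
  have h3 := FT.f_cg (gE' DA_ok) FA_ok (s := e) he
  rw [gE'_eq DA_ok e he] at h3
  exact h3.symm

theorem hlB : ∀ e (he : e < DB.nE), gE DB_ok e he = SB.lt (KB.lE e) := by
  intro e he
  have h3 := FT.f_cg (gE' DB_ok) FB_ok (s := e) he
  rw [gE'_eq DB_ok e he] at h3
  exact h3.symm

theorem hlX : ∀ e (he : e < DX.nE), gE DX_ok e he = RX.sys.lt (KX.lE e) := by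
  intro e he
  rw [← gE'_eq DX_ok e he]
  by_cases h4 : e < 4
  · have h3 := FT.f_cg (fun s => gE' DX_ok s) FA_ok (s := e) h4
    have h5 : KX.lE e = FA.cg e ∧ FA.cg e < 24 := by
      have : ∀ e < 4, KX.lE e = FA.cg e ∧ FA.cg e < 24 := by decide +kernel
      exact this e h4
    rw [h5.1]
    change _ = RX.lt (FA.cg e)
    rw [AmRep.lt, if_pos h5.2]
    exact h3.symm
  · have he' : e < 9 := he
    have h3 := FT.f_cg (fun s => gE' DX_ok (gXB s)) FB_ok (s := e - 3) (by
      change e - 3 < 6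
      omega)
    have h5 : KX.lE e = 24 + FB.cg (e - 3) := by
      have : ∀ e < 9, 4 ≤ e → KX.lE e = 24 + FB.cg (e - 3) := by decide +kernel
      exact this e he' (by omega)
    rw [h5]
    change _ = RX.lt (24 + FB.cg (e - 3))
    rw [AmRep.lt, if_neg (by omega), Nat.add_sub_cancel_left]
    change _ = FB.f (fun s => gE' DX_ok (gXB s)) (FB.cg (e - 3))
    rw [h3]
    simp only [gXB]
    rw [if_neg (by omega)]
    congr 1
    omega

theorem DA_hcard : 1 + (DA.nT + (DA.nS + DA.nI)) = (DA.nE + DA.nV) + DA.nF := by decide +kernel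
theorem DB_hcard : 1 + (DB.nT + (DB.nS + DB.nI)) = (DB.nE + DB.nV) + DB.nF := by decide +kernel
theorem DX_hcard : 1 + (DX.nT + (DX.nS + DX.nI)) = (DX.nE + DX.nV) + DX.nF := by decide +kernel

theorem isPD3_A : (cx DA_ok).IsPD3 := by
  refine final DA_ok (K := KA) DA_dual DA_vt SA KA_ok hlA 0 (by decide +kernel) DA_cyc1 DA_cyc2
    DA_hcard ?_ [(0, certAa), (1, certAb)] ?_ ?_
  · intro i hi hi0
    have : i < 1 := hi
    omega
  · intro p hp
    simp only [List.mem_cons, List.not_mem_nil, or_false] at hp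
    rcases hp with rfl | rfl
    · exact ⟨certAa_l, certAa_ok, by decide +kernel, rfl⟩
    · exact ⟨certAb_l, certAb_ok, by decide +kernel, rfl⟩
  · intro H hH e he
    have h0 : gE' DA_ok 0 ∈ H := hH (0, certAa) (by simp)
    have h1 : gE' DA_ok 1 ∈ H := hH (1, certAb) (by simp)
    have r1 := relA (0, 1, 3) (by decide +kernel)
    have r2 := relA (1, 0, 2) (by decide +kernel)
    simp only at r1 r2
    have he' : e < 4 := he
    interval_cases e
    · exact h0
    · exact h1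
    · rw [← r2]; exact H.mul_mem h1 h0
    · rw [← r1]; exact H.mul_mem h0 h1

theorem isPD3_B : (cx DB_ok).IsPD3 := by
  refine final DB_ok (K := KB) DB_dual DB_vt SB KB_ok hlB 0 (by decide +kernel) DB_cyc1 DB_cyc2
    DB_hcard ?_ [(0, certBa), (2, certBy)] ?_ ?_
  · intro i hi hi0
    have : i < 1 := hi
    omega
  · intro p hp
    simp only [List.mem_cons, List.not_mem_nil, or_false] at hp
    rcases hp with rfl | rfl
    · exact ⟨certBa_l, certBa_ok, by decide +kernel, rfl⟩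
    · exact ⟨certBy_l, certBy_ok, by decide +kernel, rfl⟩
  · intro H hH e he
    have h0 : gE' DB_ok 0 ∈ H := hH (0, certBa) (by simp)
    have h2 : gE' DB_ok 2 ∈ H := hH (2, certBy) (by simp)
    have r1 := relB (0, 0, 1) (by decide +kernel)
    have r2 := relB (2, 2, 3) (by decide +kernel)
    have r3 := relB (3, 3, 4) (by decide +kernel)
    have r5 := relB (0, 2, 5) (by decide +kernel)
    simp only at r1 r2 r3 r5
    have h1 : gE' DB_ok 1 ∈ H := by rw [← r1]; exact H.mul_mem h0 h0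
    have h3 : gE' DB_ok 3 ∈ H := by rw [← r2]; exact H.mul_mem h2 h2
    have h4 : gE' DB_ok 4 ∈ H := by rw [← r3]; exact H.mul_mem h3 h3
    have h5 : gE' DB_ok 5 ∈ H := by rw [← r5]; exact H.mul_mem h0 h2
    have he' : e < 6 := he
    interval_cases e <;> assumption

theorem genX (H : Subgroup (cx DX_ok).Pi1) (h0 : gE' DX_ok 0 ∈ H) (h1 : gE' DX_ok 1 ∈ H)
    (h5 : gE' DX_ok 5 ∈ H) : ∀ e < DX.nE, gE' DX_ok e ∈ H := by
  intro e he
  have r1 := relXA (0, 1, 3) (by decide +kernel)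
  have r2 := relXA (1, 0, 2) (by decide +kernel)
  have s1 := relXB (0, 0, 1) (by decide +kernel)
  have s2 := relXB (2, 2, 3) (by decide +kernel)
  have s3 := relXB (3, 3, 4) (by decide +kernel)
  have s5 := relXB (0, 2, 5) (by decide +kernel)
  simp only [gXB] at r1 r2 s1 s2 s3 s5
  norm_num at s1 s2 s3 s5
  have h2 : gE' DX_ok 2 ∈ H := by rw [← r2]; exact H.mul_mem h1 h0
  have h3 : gE' DX_ok 3 ∈ H := by rw [← r1]; exact H.mul_mem h0 h1
  have h4 : gE' DX_ok 4 ∈ H := by rw [← s1]; exact H.mul_mem h0 h0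
  have h6 : gE' DX_ok 6 ∈ H := by rw [← s2]; exact H.mul_mem h5 h5
  have h7 : gE' DX_ok 7 ∈ H := by rw [← s3]; exact H.mul_mem h6 h6
  have h8 : gE' DX_ok 8 ∈ H := by rw [← s5]; exact H.mul_mem h0 h5
  have he' : e < 9 := he
  interval_cases e <;> assumption

theorem evX (e : ℕ) (he : e < DX.nE) : RX.sys.ev (KX.cE e) = RX.sys.lt (KX.lE e) := by
  have h1 : KX.cE e = mulL 0 (KX.lE e) := by
    have : ∀ e < 9, KX.cE e = mulL 0 (KX.lE e) := by decide +kernel
    exact this e he
  have h2 := RX.sys.sound 0 (KX.lE e) (by change decide (0 % 8 < 6) = true; decide)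
    (KX_ok.v2 e he)
  rw [h1]
  exact h2.trans (by rw [RX.sys.ev0, one_mul])

theorem isPD3_X : (cx DX_ok).IsPD3 := by
  refine final DX_ok (K := KX) DX_dual DX_vt RX.sys KX_ok hlX 1 (by decide +kernel) DX_cyc1 DX_cyc2
    DX_hcard ?_ [(0, certXa), (1, certXb), (5, certXy)] ?_ ?_
  · exact B_zero DX_ok DX_dual DX_vt RX.sys KX_ok hlX rfl certXf1 certXf1_l certXf1_0 certXf1_1
  · intro p hp
    simp only [List.mem_cons, List.not_mem_nil, or_false] at hp
    rcases hp with rfl | rfl | rfl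
    · exact ⟨certXa_l, certXa_1, by decide +kernel, evX _ (by decide +kernel)⟩
    · exact ⟨certXb_l, certXb_1, by decide +kernel, evX _ (by decide +kernel)⟩
    · exact ⟨certXy_l, certXy_1, by decide +kernel, evX _ (by decide +kernel)⟩
  · intro H hH
    exact genX H (hH (0, certXa) (by simp)) (hH (1, certXb) (by simp)) (hH (5, certXy) (by simp))

end

end Pool.Agent.H832R2
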