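import Pool.Agent.H832R2.Fox

/-!
Δ-complexes obtained from a one-vertex 2-complex by attaching cones over triangulated spheres.
-/

namespace Pool.Agent.H832R2

open Matrix Pool.Agent.Helper386.PD3

noncomputable section

/-- combinatorial data: a 2-complex with one vertex with edges `< nE` and triangles `< nT`;
triangulated surfaces with vertices `< nV`, edges `< nS`, triangles `< nF`, components `< nI`,
labelled by edges and triangles of the 2-complex -/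
structure SD where
  nE : ℕ
  nT : ℕ
  nV : ℕ
  nS : ℕ
  nF : ℕ
  nI : ℕ
  e01 : ℕ → ℕ
  e12 : ℕ → ℕ
  e02 : ℕ → ℕ
  src : ℕ → ℕ
  tgt : ℕ → ℕ
  lab : ℕ → ℕ
  f01 : ℕ → ℕ
  f12 : ℕ → ℕ
  f02 : ℕ → ℕ
  tl : ℕ → ℕ
  base : ℕ → ℕ
  sgn : ℕ → ℤ
  idx : ℕ → ℕ

namespace SD

variable (D : SD)

/-- consistency of the data -/
structure Ok : Prop where
  b1 : ∀ t < D.nT, D.e01 t < D.nE ∧ D.e12 t < D.nE ∧ D.e02 t < D.nE
  b2 : ∀ s < D.nS, D.src s < D.nV ∧ D.tgt s < D.nV ∧ D.lab s < D.nE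
  b3 : ∀ f < D.nF, D.f01 f < D.nS ∧ D.f12 f < D.nS ∧ D.f02 f < D.nS ∧ D.tl f < D.nT
  b4 : ∀ i < D.nI, D.base i < D.nV
  b5 : ∀ f < D.nF, D.idx f < D.nI
  v : ∀ f < D.nF, D.src (D.f01 f) = D.src (D.f02 f) ∧ D.tgt (D.f01 f) = D.src (D.f12 f) ∧
    D.tgt (D.f02 f) = D.tgt (D.f12 f)
  l : ∀ f < D.nF, D.lab (D.f01 f) = D.e01 (D.tl f) ∧ D.lab (D.f12 f) = D.e12 (D.tl f) ∧
    D.lab (D.f02 f) = D.e02 (D.tl f)

variable {D}

/-- the Δ-complex -/
def cx (h : D.Ok) : DCx where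
  E := Fin D.nE ⊕ Fin D.nV
  T := Fin D.nT ⊕ (Fin D.nS ⊕ Fin D.nI)
  H := Fin D.nF
  e01 t := match t with
    | Sum.inl t => Sum.inl ⟨D.e01 t, (h.b1 t t.2).1⟩
    | Sum.inr (Sum.inl s) => Sum.inr ⟨D.src s, (h.b2 s s.2).1⟩
    | Sum.inr (Sum.inr i) => Sum.inr ⟨D.base i, h.b4 i i.2⟩
  e12 t := match t with
    | Sum.inl t => Sum.inl ⟨D.e12 t, (h.b1 t t.2).2.1⟩
    | Sum.inr (Sum.inl s) => Sum.inl ⟨D.lab s, (h.b2 s s.2).2.2⟩
    | Sum.inr (Sum.inr i) => Sum.inr ⟨D.base i, h.b4 i i.2⟩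
  e02 t := match t with
    | Sum.inl t => Sum.inl ⟨D.e02 t, (h.b1 t t.2).2.2⟩
    | Sum.inr (Sum.inl s) => Sum.inr ⟨D.tgt s, (h.b2 s s.2).2.1⟩
    | Sum.inr (Sum.inr i) => Sum.inr ⟨D.base i, h.b4 i i.2⟩
  f012 f := Sum.inr (Sum.inl ⟨D.f01 f, (h.b3 f f.2).1⟩)
  f013 f := Sum.inr (Sum.inl ⟨D.f02 f, (h.b3 f f.2).2.2.1⟩)
  f023 f := Sum.inr (Sum.inl ⟨D.f12 f, (h.b3 f f.2).2.1⟩)
  f123 f := Sum.inl ⟨D.tl f, (h.b3 f f.2).2.2.2⟩
  h01 f := by simp only [Sum.inr.injEq, Fin.mk.injEq]; exact (h.v f f.2).1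
  h12 f := by simp only [Sum.inl.injEq, Fin.mk.injEq]; exact (h.l f f.2).1
  h02 f := by simp only [Sum.inr.injEq, Fin.mk.injEq]; exact (h.v f f.2).2.1
  h23 f := by simp only [Sum.inl.injEq, Fin.mk.injEq]; exact (h.l f f.2).2.1
  h13 f := by simp only [Sum.inl.injEq, Fin.mk.injEq]; exact (h.l f f.2).2.2
  h03 f := by simp only [Sum.inr.injEq, Fin.mk.injEq]; exact (h.v f f.2).2.2

/-- generator of the 2-complex -/
def gE (h : D.Ok) (e : ℕ) (he : e < D.nE) : (cx h).Pi1 := (cx h).gen (Sum.inl ⟨e, he⟩)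
/-- cone edge -/
def gV (h : D.Ok) (v : ℕ) (hv : v < D.nV) : (cx h).Pi1 := (cx h).gen (Sum.inr ⟨v, hv⟩)

theorem rel_T (h : D.Ok) (t : ℕ) (ht : t < D.nT) :
    gE h (D.e01 t) (h.b1 t ht).1 * gE h (D.e12 t) (h.b1 t ht).2.1 =
      gE h (D.e02 t) (h.b1 t ht).2.2 :=
  (cx h).gen_rel (Sum.inl ⟨t, ht⟩)

theorem rel_S (h : D.Ok) (s : ℕ) (hs : s < D.nS) :
    gV h (D.src s) (h.b2 s hs).1 * gE h (D.lab s) (h.b2 s hs).2.2 =
      gV h (D.tgt s) (h.b2 s hs).2.1 :=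
  (cx h).gen_rel (Sum.inr (Sum.inl ⟨s, hs⟩))

theorem rel_I (h : D.Ok) (i : ℕ) (hi : i < D.nI) : gV h (D.base i) (h.b4 i hi) = 1 := by
  have := (cx h).gen_rel (Sum.inr (Sum.inr ⟨i, hi⟩))
  exact mul_eq_left.1 this

/-- incidence number of a triangle and an edge of the surface -/
def inc (D : SD) (f s : ℕ) : ℤ :=
  -(if s = D.f12 f then 1 else 0) + (if s = D.f02 f then 1 else 0)
    - (if s = D.f01 f then 1 else 0)

end SD

/-- a system of codes and letters for elements of a group -/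
structure Sys (P : Type) [Group P] where
  ev : ℕ → P
  lt : ℕ → P
  mul : ℕ → ℕ → ℕ
  vw : ℕ → Bool
  vl : ℕ → Bool
  ev0 : ev 0 = 1
  vmul : ∀ w l, vw w = true → vl l = true → vw (mul w l) = true
  sound : ∀ w l, vw w = true → vl l = true → ev (mul w l) = ev w * lt l

/-- codes of the edges of the complex -/
structure Cod where
  cE : ℕ → ℕ
  lE : ℕ → ℕ
  cV : ℕ → ℕ

/-- consistency of the codes with the complex -/
structure Cod.Ok (K : Cod) (D : SD) (mul : ℕ → ℕ → ℕ) (vw vl : ℕ → Bool) : Prop where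
  k1 : ∀ t < D.nT, mul (K.cE (D.e01 t)) (K.lE (D.e12 t)) = K.cE (D.e02 t)
  k2 : ∀ s < D.nS, mul (K.cV (D.src s)) (K.lE (D.lab s)) = K.cV (D.tgt s)
  k3 : ∀ i < D.nI, K.cV (D.base i) = 0
  v1 : ∀ e < D.nE, vw (K.cE e) = true
  v2 : ∀ e < D.nE, vl (K.lE e) = true
  v3 : ∀ v < D.nV, vw (K.cV v) = true

namespace SD

variable {D : SD} {K : Cod}

/-- The homomorphism given by codes. -/
def hom (h : D.Ok) {P : Type} [Group P] (S : Sys P) (hK : K.Ok D S.mul S.vw S.vl)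
    (hl : ∀ e < D.nE, S.ev (K.cE e) = S.lt (K.lE e)) : (cx h).Pi1 →* P :=
  PresentedGroup.toGroup (f := fun e : (cx h).E => match e with
    | Sum.inl e => S.ev (K.cE e)
    | Sum.inr v => S.ev (K.cV v)) (by
    rintro r ⟨t, rfl⟩
    rw [map_mul, map_mul, map_inv, FreeGroup.lift_apply_of, FreeGroup.lift_apply_of,
      FreeGroup.lift_apply_of, mul_inv_eq_one]
    rcases t with t | s | i
    · change S.ev (K.cE (D.e01 t)) * S.ev (K.cE (D.e12 t)) = S.ev (K.cE (D.e02 t))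
      rw [hl _ (h.b1 t t.2).2.1, ← S.sound _ _ (hK.v1 _ (h.b1 t t.2).1)
        (hK.v2 _ (h.b1 t t.2).2.1), hK.k1 t t.2]
    · change S.ev (K.cV (D.src s)) * S.ev (K.cE (D.lab s)) = S.ev (K.cV (D.tgt s))
      rw [hl _ (h.b2 s s.2).2.2, ← S.sound _ _ (hK.v3 _ (h.b2 s s.2).1)
        (hK.v2 _ (h.b2 s s.2).2.2), hK.k2 s s.2]
    · change S.ev (K.cV (D.base i)) * S.ev (K.cV (D.base i)) = S.ev (K.cV (D.base i))
      rw [hK.k3 i i.2, S.ev0, mul_one])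

theorem hom_gE (h : D.Ok) {P : Type} [Group P] (S : Sys P) (hK : K.Ok D S.mul S.vw S.vl)
    (hl : ∀ e < D.nE, S.ev (K.cE e) = S.lt (K.lE e)) (e : ℕ) (he : e < D.nE) :
    hom h S hK hl (gE h e he) = S.ev (K.cE e) := PresentedGroup.toGroup.of _

theorem hom_gV (h : D.Ok) {P : Type} [Group P] (S : Sys P) (hK : K.Ok D S.mul S.vw S.vl)
    (hl : ∀ e < D.nE, S.ev (K.cE e) = S.lt (K.lE e)) (v : ℕ) (hv : v < D.nV) :
    hom h S hK hl (gV h v hv) = S.ev (K.cV v) := PresentedGroup.toGroup.of _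

/-- In the fundamental group the cone edges are given by their codes. -/
theorem gV_eq (h : D.Ok) (S : Sys (cx h).Pi1) (hK : K.Ok D S.mul S.vw S.vl)
    (hl : ∀ e (he : e < D.nE), gE h e he = S.lt (K.lE e))
    (vp : ℕ → ℕ)
    (hvp : ∀ v < D.nV, (∃ i < D.nI, v = D.base i) ∨ (vp v < D.nS ∧
      ((D.tgt (vp v) = v ∧ D.src (vp v) < v) ∨ (D.src (vp v) = v ∧ D.tgt (vp v) < v)))) :
    ∀ v (hv : v < D.nV), gV h v hv = S.ev (K.cV v) := by
  intro v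
  induction v using Nat.strong_induction_on with
  | _ v ih =>
    intro hv
    have hs : ∀ s (hs : s < D.nS), S.ev (K.cV (D.tgt s)) =
        S.ev (K.cV (D.src s)) * S.lt (K.lE (D.lab s)) := by
      intro s hs
      rw [← hK.k2 s hs, S.sound _ _ (hK.v3 _ (h.b2 s hs).1) (hK.v2 _ (h.b2 s hs).2.2)]
    rcases hvp v hv with ⟨i, hi, rfl⟩ | ⟨h1, h2 | h2⟩
    · rw [rel_I h i hi, hK.k3 i hi, S.ev0]
    · have h3 := rel_S h _ h1
      have h4 := ih _ h2.2 (h.b2 _ h1).1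
      rw [h4, hl, ← hs _ h1] at h3
      have h5 : gV h v hv = gV h (D.tgt (vp v)) (h.b2 _ h1).2.1 := by
        congr 1
        exact h2.1.symm
      rw [h5, ← h3, h2.1]
    · have h3 := rel_S h _ h1
      have h4 := ih _ h2.2 (h.b2 _ h1).2.1
      rw [h4, hl, hs _ h1] at h3
      have h5 : gV h v hv = gV h (D.src (vp v)) (h.b2 _ h1).1 := by
        congr 1
        exact h2.1.symm
      rw [h5, mul_right_cancel h3, h2.1]

end SD

end

end Pool.Agent.H832R2
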