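import Mathlib

/-!
Finite groups given by multiplication tables and presentations with relations `x a * x b = x c`.
-/

namespace Pool.Agent.H832R2

/-- a table with a presentation -/
structure FT where
  /-- number of elements -/
  n : ℕ
  /-- number of generators -/
  m : ℕ
  /-- multiplication table -/
  tab : ℕ → ℕ → ℕ
  /-- codes of the generators -/
  cg : ℕ → ℕ
  /-- words representing the elements -/
  word : ℕ → List ℕ
  /-- relations -/
  tris : List (ℕ × ℕ × ℕ)
  /-- edges of a spanning tree of the Cayley graph -/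
  tree : List (ℕ × ℕ)
  /-- certificate: element, relation, kind of inference -/
  cert : List (ℕ × (ℕ × ℕ × ℕ) × ℕ)

namespace FT

variable (F : FT)

/-- propagation of known edges of the Cayley graph -/
def propa : List (ℕ × (ℕ × ℕ × ℕ) × ℕ) → List (ℕ × ℕ) → List (ℕ × ℕ)
  | [], K => K
  | (i, (a, b, c), k) :: L, K =>
    if k = 0 then
      (if (i, a) ∈ K ∧ (F.tab i (F.cg a), b) ∈ K then propa L ((i, c) :: K) else propa L K)
    else if k = 1 then
      (if (i, a) ∈ K ∧ (i, c) ∈ K then propa L ((F.tab i (F.cg a), b) :: K) else propa L K)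
    else
      (if (i, c) ∈ K ∧ (F.tab i (F.cg a), b) ∈ K then propa L ((i, a) :: K) else propa L K)

/-- the conditions on the data -/
structure Ok : Prop where
  lt : ∀ i < F.n, ∀ j < F.n, F.tab i j < F.n
  cgl : ∀ s < F.m, F.cg s < F.n
  wl : ∀ i < F.n, ∀ s ∈ F.word i, s < F.m
  wg : ∀ s < F.m, F.word (F.cg s) = [s]
  tr : ∀ p ∈ F.tree, F.word (F.tab p.1 (F.cg p.2)) = F.word p.1 ++ [p.2]
  ce : ∀ p ∈ F.cert, p.1 < F.n ∧ p.2.1 ∈ F.tris
  rel : ∀ i < F.n, ∀ r ∈ F.tris, F.tab (F.tab i (F.cg r.1)) (F.cg r.2.1) = F.tab i (F.cg r.2.2)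
  all : ∀ i < F.n, ∀ s < F.m, (i, s) ∈ F.propa F.cert F.tree
  fold : ∀ i < F.n, ∀ j < F.n, (F.word j).foldl (fun w s => F.tab w (F.cg s)) i = F.tab i j

variable {F} {P : Type*} [Group P] (x : ℕ → P)

/-- the map from the elements of the table to the group `P` -/
def f (F : FT) (x : ℕ → P) (i : ℕ) : P := ((F.word i).map x).prod

theorem f_cg (h : F.Ok) {s : ℕ} (hs : s < F.m) : F.f x (F.cg s) = x s := by
  simp [f, h.wg s hs]

theorem propa_sound (h : F.Ok) (hx : ∀ r ∈ F.tris, x r.1 * x r.2.1 = x r.2.2) 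
    (L : List (ℕ × (ℕ × ℕ × ℕ) × ℕ)) (hL : ∀ p ∈ L, p.1 < F.n ∧ p.2.1 ∈ F.tris)
    (K : List (ℕ × ℕ))
    (hK : ∀ p ∈ K, F.f x (F.tab p.1 (F.cg p.2)) = F.f x p.1 * x p.2) :
    ∀ p ∈ F.propa L K, F.f x (F.tab p.1 (F.cg p.2)) = F.f x p.1 * x p.2 := by
  induction L generalizing K with
  | nil => exact hK
  | cons q L ih =>
    obtain ⟨i, ⟨a, b, c⟩, k⟩ := q
    have h1 := hL _ List.mem_cons_self
    simp only at h1
    have h2 := h.rel i h1.1 _ h1.2
    have h3 := hx _ h1.2
    simp only at h2 h3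
    have ih' := ih (fun p hp => hL p (List.mem_cons_of_mem _ hp))
    unfold propa
    split_ifs with k0 hc k1 hc hc
    · apply ih'
      intro p hp
      rcases List.mem_cons.1 hp with rfl | hp
      · have a1 := hK _ hc.1
        have a2 := hK _ hc.2
        simp only at a1 a2 ⊢
        rw [← h2, a2, a1, mul_assoc, h3]
      · exact hK p hp
    · exact ih' K hK
    · apply ih'
      intro p hp
      rcases List.mem_cons.1 hp with rfl | hp
      · have a1 := hK _ hc.1
        have a2 := hK _ hc.2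
        simp only at a1 a2 ⊢
        rw [h2, a2, a1, mul_assoc, h3]
      · exact hK p hp
    · exact ih' K hK
    · apply ih'
      intro p hp
      rcases List.mem_cons.1 hp with rfl | hp
      · have a1 := hK _ hc.1
        have a2 := hK _ hc.2
        simp only at a1 a2 ⊢
        rw [h2, a1, ← h3, ← mul_assoc] at a2
        exact (mul_right_cancel a2).symm
      · exact hK p hp
    · exact ih' K hK

theorem f_mul (h : F.Ok) (hx : ∀ r ∈ F.tris, x r.1 * x r.2.1 = x r.2.2) :
    ∀ i < F.n, ∀ j < F.n, F.f x (F.tab i j) = F.f x i * F.f x j := by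
  have h1 : ∀ i < F.n, ∀ s < F.m, F.f x (F.tab i (F.cg s)) = F.f x i * x s := by
    intro i hi s hs
    refine propa_sound x h hx _ h.ce _ ?_ _ (h.all i hi s hs)
    intro p hp
    simp only [f, h.tr p hp, List.map_append, List.prod_append, List.map_cons, List.map_nil,
      List.prod_singleton]
  have h2 : ∀ (l : List ℕ), (∀ s ∈ l, s < F.m) → ∀ i < F.n,
      F.f x (l.foldl (fun w s => F.tab w (F.cg s)) i) = F.f x i * (l.map x).prod := by
    intro l
    induction l with
    | nil => intro _ i hi; simp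
    | cons s l ih =>
      intro hl i hi
      have hs := hl s List.mem_cons_self
      rw [List.foldl_cons, ih (fun s hs => hl s (List.mem_cons_of_mem _ hs)) _
        (h.lt i hi _ (h.cgl s hs)), h1 i hi s hs, List.map_cons, List.prod_cons, mul_assoc]
  intro i hi j hj
  rw [← h.fold i hi j hj, h2 _ (h.wl j hj) i hi]
  rfl

end FT

end Pool.Agent.H832R2
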