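import Mathlib

/-!
Involutions in free products are conjugate into a factor.
-/

namespace Pool.Agent.H832R2

open Monoid.CoprodI

set_option linter.unusedSectionVars false

section

variable {ι : Type} [DecidableEq ι] {M : ι → Type} [∀ i, Group (M i)]

/-- product of a list of syllables -/
def pr (L : List (Σ i, M i)) : Monoid.CoprodI M := (L.map fun s => of s.2).prod

theorem pr_append (L L' : List (Σ i, M i)) : pr (L ++ L') = pr L * pr L' := by
  simp [pr]

theorem pr_cons (s : Σ i, M i) (L : List (Σ i, M i)) : pr (s :: L) = of s.2 * pr L := by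
  simp [pr]

theorem pr_nil : pr ([] : List (Σ i, M i)) = 1 := rfl

theorem exists_pr (z : Monoid.CoprodI M) : ∃ L, pr L = z := by
  induction z using Monoid.CoprodI.induction_on with
  | one => exact ⟨[], rfl⟩
  | of i m => exact ⟨[⟨i, m⟩], by simp [pr]⟩
  | mul x y hx hy =>
    obtain ⟨L, rfl⟩ := hx
    obtain ⟨L', rfl⟩ := hy
    exact ⟨L ++ L', pr_append L L'⟩

theorem not_chain {α : Type} {R : α → α → Prop} (L : List α) (h : ¬ L.IsChain R) :
    ∃ L1 a b L2, L = L1 ++ a :: b :: L2 ∧ ¬ R a b := by
  induction L with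
  | nil => exact absurd List.IsChain.nil h
  | cons a L ih =>
    cases L with
    | nil => exact absurd (List.IsChain.singleton a) h
    | cons b L =>
      by_cases hab : R a b
      · have : ¬ (b :: L).IsChain R := fun h' => h (List.IsChain.cons_cons hab h')
        obtain ⟨L1, c, d, L2, h1, h2⟩ := ih this
        exact ⟨a :: L1, c, d, L2, by rw [h1]; rfl, h2⟩
      · exact ⟨[], a, b, L, rfl, hab⟩

theorem pr_ne_one (L : List (Σ i, M i)) (h1 : ∀ s ∈ L, Sigma.snd s ≠ 1)
    (h2 : L.IsChain (fun s t => Sigma.fst s ≠ Sigma.fst t)) (h3 : L ≠ []) : pr L ≠ 1 := by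
  intro h
  let w : Word M := ⟨L, h1, h2⟩
  have hw : w.prod = (Word.empty : Word M).prod := by
    rw [Word.prod_empty]
    exact h
  classical
  have := (Word.equiv (M := M)).symm.injective (a₁ := w) (a₂ := Word.empty) hw
  exact h3 (congrArg Word.toList this)

theorem exists_conj (z : Monoid.CoprodI M) (hz : z * z = 1) (hne : z ≠ 1) :
    ∃ (c : Monoid.CoprodI M) (i : ι) (m : M i), c⁻¹ * z * c = of m := by
  classical
  have hex : ∃ n, ∃ (c : Monoid.CoprodI M) (L : List (Σ i, M i)), L.length = n ∧
      pr L = c⁻¹ * z * c := by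
    obtain ⟨L, hL⟩ := exists_pr z
    exact ⟨L.length, 1, L, rfl, by simp [hL]⟩
  obtain ⟨c, L, hn, hL⟩ := Nat.find_spec hex
  have hmin : ∀ (c : Monoid.CoprodI M) (L' : List (Σ i, M i)), pr L' = c⁻¹ * z * c →
      L.length ≤ L'.length := by
    intro c L' h
    rw [hn]
    exact Nat.find_min' hex ⟨c, L', rfl, h⟩
  have hne' : pr L ≠ 1 := by
    rw [hL]
    intro h
    apply hne
    have : z = c * (c⁻¹ * z * c) * c⁻¹ := by group
    rw [this, h]; group
  rcases L with _ | ⟨s, L⟩
  · exact absurd rfl hne'
  rcases L with _ | ⟨t, L⟩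
  · exact ⟨c, s.1, s.2, by rw [← hL, pr_cons, pr_nil, mul_one]⟩
  exfalso
  have hred : ∀ s' ∈ (s :: t :: L), Sigma.snd s' ≠ 1 := by
    intro s' hs' h1
    obtain ⟨L1, L2, h2⟩ := List.append_of_mem hs'
    have := hmin c (L1 ++ L2) (by
      rw [← hL, h2, pr_append, pr_append, pr_cons, h1, map_one, one_mul])
    rw [h2] at this
    simp only [List.length_append, List.length_cons] at this
    omega
  have hch : (s :: t :: L).IsChain (fun s t => Sigma.fst s ≠ Sigma.fst t) := by
    by_contra hc
    obtain ⟨L1, a, b, L2, h1, h2⟩ := not_chain _ hc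
    obtain ⟨i, a⟩ := a
    obtain ⟨j, b⟩ := b
    simp only [ne_eq, not_not] at h2
    subst h2
    have := hmin c (L1 ++ ⟨i, a * b⟩ :: L2) (by
      rw [← hL, h1, pr_append, pr_append, pr_cons, pr_cons, pr_cons, ← mul_assoc (of _), ← map_mul])
    rw [h1] at this
    simp only [List.length_append, List.length_cons] at this
    omega
  -- first and last
  obtain ⟨N, u, hN⟩ : ∃ N u, t :: L = N ++ [u] :=
    ⟨(t :: L).dropLast, (t :: L).getLast (by simp), (List.dropLast_append_getLast (by simp)).symm⟩
  have hsu : u.1 ≠ s.1 := by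
    obtain ⟨i, u⟩ := u
    obtain ⟨j, s⟩ := s
    intro h
    simp only at h
    subst h
    have := hmin (c * of s) (N ++ [⟨i, u * s⟩]) (by
      have e1 : pr (⟨i, s⟩ :: t :: L) = of s * (pr N * of u) := by
        rw [pr_cons, hN, pr_append, pr_cons, pr_nil, mul_one]
      rw [hL] at e1
      rw [pr_append, pr_cons, pr_nil, mul_one, map_mul]
      have e2 : (c * of s)⁻¹ * z * (c * of s) = (of s)⁻¹ * (c⁻¹ * z * c) * of s := by group
      rw [e2, e1]
      group)
    rw [hN] at this
    simp only [List.length_append, List.length_cons] at this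
    omega
  refine pr_ne_one ((s :: t :: L) ++ (s :: t :: L)) ?_ ?_ (by simp) ?_
  · intro x hx
    rcases List.mem_append.1 hx with h | h
    · exact hred x h
    · exact hred x h
  · rw [List.isChain_append]
    refine ⟨hch, hch, ?_⟩
    intro x hx y hy
    rw [hN] at hx
    simp only [List.head?_cons, Option.mem_def, Option.some.injEq] at hy
    have hx' : u = x := by
      have : (s :: (N ++ [u])).getLast? = some u := by
        rw [← List.cons_append, List.getLast?_append]
        simp
      rw [this] at hx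
      exact Option.some.inj hx
    rw [← hx', ← hy]
    exact hsu
  · rw [pr_append, hL]
    have : c⁻¹ * z * c * (c⁻¹ * z * c) = c⁻¹ * (z * z) * c := by group
    rw [this, hz]
    group

end

end Pool.Agent.H832R2
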