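import Pool.Agent.H832R2.Defs

/-!
Virtual freeness of an amalgam of finite groups having a compatible faithful representation in a
finite group.
-/

namespace Pool.Agent.H832R2

open Monoid

section

variable {S : Type}

open FreeGroup in
theorem toWord_of_mul [DecidableEq S] (X : S) (s : Bool) (w : FreeGroup S)
    (h : ∀ r, w.toWord ≠ (X, !s) :: r) :
    (FreeGroup.mk [(X, s)] * w).toWord = (X, s) :: w.toWord := by
  rw [toWord_mul, toWord_mk]
  have h1 : reduce [(X, s)] = [(X, s)] := rfl
  rw [h1, List.singleton_append, reduce.cons, reduce_toWord]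
  cases hw : w.toWord with
  | nil => rfl
  | cons hd tl =>
    change (if X = hd.1 ∧ s = !hd.2 then tl else (X, s) :: hd :: tl) = _
    rw [if_neg]
    rintro ⟨h2, h3⟩
    apply h tl
    rw [hw]
    congr 1
    ext1
    · exact h2.symm
    · rw [h3]; simp

end

section

variable {E Q : Type} [Group E] [Group Q] {G : Bool → Type} [∀ b, Group (G b)]
  {φ : ∀ b, E →* G b} (τ : PushoutI φ →* Q)

/-- the left orbit under the edge group -/
def cls (q : Q) : Set Q := {q' | ∃ e : E, q' = τ (PushoutI.base φ e) * q}

theorem cls_base (e : E) (q : Q) : cls τ (τ (PushoutI.base φ e) * q) = cls τ q := by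
  ext x
  constructor
  · rintro ⟨e', rfl⟩
    exact ⟨e' * e, by rw [map_mul, map_mul, mul_assoc]⟩
  · rintro ⟨e', rfl⟩
    refine ⟨e' * e⁻¹, ?_⟩
    rw [← mul_assoc, ← map_mul, ← map_mul, inv_mul_cancel_right]

theorem cls_self (q : Q) : q ∈ cls τ q := ⟨1, by rw [map_one, map_one, one_mul]⟩

theorem cls_of_ne (hτ : ∀ b, Function.Injective (fun g : G b => τ (PushoutI.of b g))) {b : Bool}
    {g : G b} (hg : g ∉ (φ b).range) (q : Q) : cls τ (τ (PushoutI.of b g) * q) ≠ cls τ q := by
  intro h
  have h1 := cls_self τ (τ (PushoutI.of b g) * q)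
  rw [h] at h1
  obtain ⟨e, he⟩ := h1
  have h2 := mul_right_cancel he
  rw [← PushoutI.of_apply_eq_base φ b] at h2
  exact hg ⟨e, (hτ b h2).symm⟩

/-- the potential -/
def uu (b : Bool) (q : Q) : FreeGroup (Set Q) := if b then FreeGroup.of (cls τ q) else 1

/-- the action of a vertex group -/
def actS (b : Bool) : G b →* Equiv.Perm (Q × FreeGroup (Set Q)) where
  toFun g :=
    { toFun := fun z => (τ (PushoutI.of b g) * z.1,
        uu τ b (τ (PushoutI.of b g) * z.1) * (uu τ b z.1)⁻¹ * z.2)
      invFun := fun z => (τ (PushoutI.of b g⁻¹) * z.1,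
        uu τ b (τ (PushoutI.of b g⁻¹) * z.1) * (uu τ b z.1)⁻¹ * z.2)
      left_inv := by
        intro z
        refine Prod.ext ?_ ?_
        · change τ (PushoutI.of b g⁻¹) * (τ (PushoutI.of b g) * z.1) = z.1
          rw [map_inv, map_inv, inv_mul_cancel_left]
        · change uu τ b (τ (PushoutI.of b g⁻¹) * (τ (PushoutI.of b g) * z.1)) *
            (uu τ b (τ (PushoutI.of b g) * z.1))⁻¹ *
            (uu τ b (τ (PushoutI.of b g) * z.1) * (uu τ b z.1)⁻¹ * z.2) = z.2
          rw [map_inv, map_inv, inv_mul_cancel_left]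
          group
      right_inv := by
        intro z
        refine Prod.ext ?_ ?_
        · change τ (PushoutI.of b g) * (τ (PushoutI.of b g⁻¹) * z.1) = z.1
          rw [map_inv, map_inv, mul_inv_cancel_left]
        · change uu τ b (τ (PushoutI.of b g) * (τ (PushoutI.of b g⁻¹) * z.1)) *
            (uu τ b (τ (PushoutI.of b g⁻¹) * z.1))⁻¹ *
            (uu τ b (τ (PushoutI.of b g⁻¹) * z.1) * (uu τ b z.1)⁻¹ * z.2) = z.2
          rw [map_inv, map_inv, mul_inv_cancel_left]
          group }
  map_one' := by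
    refine Equiv.ext fun z => Prod.ext ?_ ?_
    · change τ (PushoutI.of b 1) * z.1 = z.1
      rw [map_one, map_one, one_mul]
    · change uu τ b (τ (PushoutI.of b 1) * z.1) * (uu τ b z.1)⁻¹ * z.2 = z.2
      rw [map_one, map_one, one_mul, mul_inv_cancel, one_mul]
  map_mul' g h := by
    refine Equiv.ext fun z => Prod.ext ?_ ?_
    · change τ (PushoutI.of b (g * h)) * z.1 = τ (PushoutI.of b g) * (τ (PushoutI.of b h) * z.1)
      rw [map_mul, map_mul, mul_assoc]
    · change uu τ b (τ (PushoutI.of b (g * h)) * z.1) * (uu τ b z.1)⁻¹ * z.2 =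
        uu τ b (τ (PushoutI.of b g) * (τ (PushoutI.of b h) * z.1)) *
          (uu τ b (τ (PushoutI.of b h) * z.1))⁻¹ *
          (uu τ b (τ (PushoutI.of b h) * z.1) * (uu τ b z.1)⁻¹ * z.2)
      rw [map_mul, map_mul, mul_assoc (τ _)]
      group

/-- the action of the edge group -/
def actE : E →* Equiv.Perm (Q × FreeGroup (Set Q)) where
  toFun e :=
    { toFun := fun z => (τ (PushoutI.base φ e) * z.1, z.2)
      invFun := fun z => (τ (PushoutI.base φ e⁻¹) * z.1, z.2)
      left_inv := by
        intro z
        refine Prod.ext ?_ rfl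
        change τ (PushoutI.base φ e⁻¹) * (τ (PushoutI.base φ e) * z.1) = z.1
        rw [map_inv, map_inv, inv_mul_cancel_left]
      right_inv := by
        intro z
        refine Prod.ext ?_ rfl
        change τ (PushoutI.base φ e) * (τ (PushoutI.base φ e⁻¹) * z.1) = z.1
        rw [map_inv, map_inv, mul_inv_cancel_left] }
  map_one' := by
    refine Equiv.ext fun z => Prod.ext ?_ rfl
    change τ (PushoutI.base φ 1) * z.1 = z.1
    rw [map_one, map_one, one_mul]
  map_mul' g h := by
    refine Equiv.ext fun z => Prod.ext ?_ rfl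
    change τ (PushoutI.base φ (g * h)) * z.1 =
      τ (PushoutI.base φ g) * (τ (PushoutI.base φ h) * z.1)
    rw [map_mul, map_mul, mul_assoc]

theorem uu_base (b : Bool) (e : E) (q : Q) : uu τ b (τ (PushoutI.base φ e) * q) = uu τ b q := by
  unfold uu
  rw [cls_base]

/-- the action of the amalgam -/
def actP : PushoutI φ →* Equiv.Perm (Q × FreeGroup (Set Q)) :=
  PushoutI.lift (actS τ) (actE τ) (by
    intro b
    refine MonoidHom.ext fun e => Equiv.ext fun z => Prod.ext ?_ ?_
    · change τ (PushoutI.of b (φ b e)) * z.1 = τ (PushoutI.base φ e) * z.1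
      rw [PushoutI.of_apply_eq_base]
    · change uu τ b (τ (PushoutI.of b (φ b e)) * z.1) * (uu τ b z.1)⁻¹ * z.2 = z.2
      rw [PushoutI.of_apply_eq_base, uu_base, mul_inv_cancel, one_mul])

/-- the cocycle -/
def cc (g : PushoutI φ) (q : Q) : FreeGroup (Set Q) := (actP τ g (q, 1)).2

theorem actP_of (b : Bool) (g : G b) (z : Q × FreeGroup (Set Q)) :
    actP τ (PushoutI.of b g) z = (τ (PushoutI.of b g) * z.1,
        uu τ b (τ (PushoutI.of b g) * z.1) * (uu τ b z.1)⁻¹ * z.2) := by
  have : actP τ (PushoutI.of b g) = actS τ b g := PushoutI.lift_of (actS τ) (actE τ) _ g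
  rw [this]
  rfl

theorem actP_base (e : E) (z : Q × FreeGroup (Set Q)) :
    actP τ (PushoutI.base φ e) z = (τ (PushoutI.base φ e) * z.1, z.2) := by
  have : actP τ (PushoutI.base φ e) = actE τ e := PushoutI.lift_base (actS τ) (actE τ) _ e
  rw [this]
  rfl

theorem actP_eq (g : PushoutI φ) : ∀ z : Q × FreeGroup (Set Q),
    actP τ g z = (τ g * z.1, cc τ g z.1 * z.2) := by
  induction g using PushoutI.induction_on with
  | of i g =>
    intro z
    rw [cc, actP_of, actP_of]
    simp only [mul_one]
  | base h =>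
    intro z
    rw [cc, actP_base, actP_base]
    simp only [one_mul]
  | mul x y ihx ihy =>
    intro z
    have h1 : ∀ z, actP τ (x * y) z = actP τ x (actP τ y z) := fun z => by
      rw [map_mul]; rfl
    rw [cc, h1, h1, ihy, ihx, ihy, ihx]
    simp only [mul_one, map_mul, mul_assoc]

theorem cc_mul (g h : PushoutI φ) (q : Q) : cc τ (g * h) q = cc τ g (τ h * q) * cc τ h q := by
  have h1 : actP τ (g * h) (q, 1) = actP τ g (actP τ h (q, 1)) := by
    rw [map_mul]; rfl
  rw [cc, h1, actP_eq τ h, actP_eq τ g]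
  simp only [mul_one]

theorem cc_of (b : Bool) (g : G b) (q : Q) :
    cc τ (PushoutI.of b g) q = uu τ b (τ (PushoutI.of b g) * q) * (uu τ b q)⁻¹ := by
  rw [cc, actP_of, mul_one]

theorem cc_base (e : E) (q : Q) : cc τ (PushoutI.base φ e) q = 1 := by
  rw [cc, actP_base]

theorem cc_one (q : Q) : cc τ 1 q = 1 := by
  rw [← map_one (PushoutI.base φ), cc_base]

open Classical in
/-- the invariant of the induction -/
def Good (g : PushoutI φ) (o : Option Bool) : Prop :=
  (o = some true → ∀ q, ∃ r, (cc τ g q).toWord = (cls τ (τ g * q), true) :: r) ∧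
  (o ≠ some true → ∀ q r, (cc τ g q).toWord ≠ (cls τ (τ g * q), true) :: r) ∧
  (o = none → ∃ e, g = PushoutI.base φ e) ∧
  (∀ q, cc τ g q = 1 → ∃ x : G false, g = PushoutI.of false x)

open Classical in
theorem good_one : Good τ 1 none := by
  refine ⟨fun h => (by cases h), fun _ q r => ?_, fun _ => ⟨1, (map_one _).symm⟩,
    fun _ _ => ⟨1, (map_one _).symm⟩⟩
  rw [cc_one, FreeGroup.toWord_one]
  exact fun h => by cases h

open Classical in
theorem good_base {g : PushoutI φ} {o : Option Bool} (h : Good τ g o) (e : E) :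
    Good τ (PushoutI.base φ e * g) o := by
  have hc : ∀ q, cc τ (PushoutI.base φ e * g) q = cc τ g q := fun q => by
    rw [cc_mul, cc_base, one_mul]
  have hk : ∀ q, cls τ (τ (PushoutI.base φ e * g) * q) = cls τ (τ g * q) := fun q => by
    rw [map_mul, mul_assoc, cls_base]
  refine ⟨fun ho q => ?_, fun ho q r => ?_, fun ho => ?_, fun q hq => ?_⟩
  · rw [hc, hk]; exact h.1 ho q
  · rw [hc, hk]; exact h.2.1 ho q r
  · obtain ⟨e', rfl⟩ := h.2.2.1 ho
    exact ⟨e * e', (map_mul _ _ _).symm⟩
  · rw [hc] at hq
    obtain ⟨x, rfl⟩ := h.2.2.2 q hq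
    exact ⟨φ false e * x, by rw [map_mul, PushoutI.of_apply_eq_base]⟩

open Classical in
theorem good_cons (hτ : ∀ b, Function.Injective (fun g : G b => τ (PushoutI.of b g)))
    {g : PushoutI φ} {o : Option Bool} (h : Good τ g o) (b : Bool) (hb : o ≠ some b)
    (x : G b) (hx : x ∉ (φ b).range) : Good τ (PushoutI.of b x * g) (some b) := by
  have hne : ∀ q, cls τ (τ (PushoutI.of b x * g) * q) ≠ cls τ (τ g * q) := fun q => by
    rw [map_mul, mul_assoc]
    exact cls_of_ne τ hτ hx _
  cases b with
  | true =>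
    have hc : ∀ q, cc τ (PushoutI.of true x * g) q =
        FreeGroup.mk [(cls τ (τ (PushoutI.of true x * g) * q), true)] *
          (FreeGroup.mk [(cls τ (τ g * q), false)] * cc τ g q) := fun q => by
      rw [cc_mul, cc_of, map_mul, mul_assoc (τ _), ← mul_assoc (FreeGroup.mk _)]
      rfl
    have h1 : ∀ q, (FreeGroup.mk [(cls τ (τ g * q), false)] * cc τ g q).toWord =
        (cls τ (τ g * q), false) :: (cc τ g q).toWord := fun q =>
      toWord_of_mul _ _ _ (fun r => h.2.1 hb q r)
    have h2 : ∀ q, (cc τ (PushoutI.of true x * g) q).toWord =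
        (cls τ (τ (PushoutI.of true x * g) * q), true) :: (cls τ (τ g * q), false) ::
          (cc τ g q).toWord := fun q => by
      rw [hc, toWord_of_mul, h1]
      intro r hr
      rw [h1] at hr
      have := List.head_eq_of_cons_eq hr
      exact hne q (congrArg Prod.fst this).symm
    refine ⟨fun _ q => ⟨_, h2 q⟩, fun ho => (ho rfl).elim, fun ho => (by cases ho), fun q hq => ?_⟩
    have := h2 q
    rw [hq, FreeGroup.toWord_one] at this
    cases this
  | false =>
    have hc : ∀ q, cc τ (PushoutI.of false x * g) q = cc τ g q := fun q => by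
      rw [cc_mul, cc_of]
      change 1 * 1⁻¹ * _ = _
      rw [inv_one, one_mul, one_mul]
    refine ⟨fun ho => (by cases ho), fun _ q r => ?_, fun ho => (by cases ho), fun q hq => ?_⟩
    · rw [hc]
      cases ho : o with
      | none =>
        obtain ⟨e, rfl⟩ := h.2.2.1 ho
        rw [cc_base, FreeGroup.toWord_one]
        exact fun h => by cases h
      | some b' =>
        cases b' with
        | false => exact (hb ho).elim
        | true =>
          obtain ⟨r', hr'⟩ := h.1 ho q
          rw [hr']
          intro h3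
          have := List.head_eq_of_cons_eq h3
          exact hne q (congrArg Prod.fst this).symm
    · rw [hc] at hq
      obtain ⟨y, rfl⟩ := h.2.2.2 q hq
      exact ⟨x * y, (map_mul _ _ _).symm⟩

open Classical in
theorem exists_good (hφ : ∀ b, Function.Injective (φ b))
    (hτ : ∀ b, Function.Injective (fun g : G b => τ (PushoutI.of b g))) (g : PushoutI φ) :
    ∃ o, Good τ g o := by
  obtain ⟨d⟩ := PushoutI.NormalWord.transversal_nonempty φ hφ
  have key : ∀ w : PushoutI.NormalWord d, Good τ w.prod w.fstIdx := by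
    intro w
    induction w using PushoutI.NormalWord.consRecOn with
    | empty =>
      rw [PushoutI.NormalWord.prod_empty]
      exact good_one τ
    | cons i g w hmw hgn hgr hw1 ih =>
      rw [PushoutI.NormalWord.prod_cons]
      have : (PushoutI.NormalWord.cons g w hmw hgr).fstIdx = some i := by
        rw [CoprodI.Word.fstIdx, PushoutI.NormalWord.cons_toList]
        rfl
      rw [this]
      exact good_cons τ hτ ih i hmw g hgr
    | base h w hw1 ih =>
      rw [PushoutI.NormalWord.prod_smul]
      have : (PushoutI.base φ h • w).fstIdx = w.fstIdx := by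
        rw [PushoutI.NormalWord.base_smul_def]
      rw [this]
      exact good_base τ ih h
  have h1 := key (PushoutI.NormalWord.equiv g)
  have h2 : (PushoutI.NormalWord.equiv (d := d) g).prod = g :=
    PushoutI.NormalWord.equiv.symm_apply_apply g
  rw [h2] at h1
  exact ⟨_, h1⟩

theorem eq_of_cc (hφ : ∀ b, Function.Injective (φ b))
    (hτ : ∀ b, Function.Injective (fun g : G b => τ (PushoutI.of b g))) (g : PushoutI φ) (q : Q)
    (h : cc τ g q = 1) (h1 : τ g = 1) : g = 1 := by
  obtain ⟨o, ho⟩ := exists_good τ hφ hτ g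
  obtain ⟨x, rfl⟩ := ho.2.2.2 q h
  have : (fun g : G false => τ (PushoutI.of (φ := φ) false g)) x =
      (fun g : G false => τ (PushoutI.of (φ := φ) false g)) 1 := by
    change τ (PushoutI.of (φ := φ) false x) = τ (PushoutI.of (φ := φ) false 1)
    rw [h1, map_one, map_one]
  rw [hτ false this, map_one]

theorem virtuallyFree_of [Finite Q] (hφ : ∀ b, Function.Injective (φ b))
    (hτ : ∀ b, Function.Injective (fun g : G b => τ (PushoutI.of b g))) :
    VirtuallyFree (PushoutI φ) := by
  refine ⟨τ.ker, inferInstance, ?_⟩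
  let F : τ.ker →* FreeGroup (Set Q) :=
    { toFun := fun k => cc τ k.1 1
      map_one' := cc_one τ 1
      map_mul' := fun k k' => by
        have : τ k'.1 = 1 := k'.2
        change cc τ (k.1 * k'.1) 1 = _
        rw [cc_mul, this, one_mul] }
  have hF : Function.Injective F := by
    rw [injective_iff_map_eq_one]
    intro k hk
    exact Subtype.ext (eq_of_cc τ hφ hτ k.1 1 hk k.2)
  have e : τ.ker ≃* F.range := MonoidHom.ofInjective hF
  have : IsFreeGroup F.range := inferInstance
  exact IsFreeGroup.ofMulEquiv e.symm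

end

end Pool.Agent.H832R2
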