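import Pool.Agent.H832R2.IndX
import Pool.Agent.H832R2.VFree

/-!
`π₁(X)` is virtually free: a finite quotient which is faithful on both vertex groups.
-/

namespace Pool.Agent.H832R2

open SD

noncomputable section

/-- permutations of 20 points -/
abbrev Q20 := Equiv.Perm (Fin 20)

/-- a permutation -/
def p20a : Q20 where
  toFun := ![1, 0, 7, 6, 2, 4, 5, 3, 9, 8, 15, 14, 10, 12, 13, 11, 17, 18, 16, 19]
  invFun := ![1, 0, 4, 7, 5, 6, 3, 2, 9, 8, 12, 15, 13, 14, 11, 10, 18, 16, 17, 19]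
  left_inv := by decide +kernel
  right_inv := by decide +kernel

/-- a permutation -/
def p20b : Q20 where
  toFun := ![3, 4, 6, 5, 7, 1, 2, 0, 11, 12, 14, 13, 15, 9, 10, 8, 17, 18, 16, 19]
  invFun := ![7, 5, 6, 0, 1, 3, 2, 4, 15, 13, 14, 8, 9, 11, 10, 12, 18, 16, 17, 19]
  left_inv := by decide +kernel
  right_inv := by decide +kernel

/-- a permutation -/
def p20c : Q20 where
  toFun := ![4, 3, 0, 2, 6, 7, 1, 5, 12, 11, 8, 10, 14, 15, 9, 13, 18, 16, 17, 19]
  invFun := ![2, 6, 3, 1, 0, 7, 4, 5, 10, 14, 11, 9, 8, 15, 12, 13, 17, 18, 16, 19]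
  left_inv := by decide +kernel
  right_inv := by decide +kernel

/-- a permutation -/
def p20d : Q20 where
  toFun := ![6, 2, 5, 4, 3, 0, 7, 1, 14, 10, 13, 12, 11, 8, 15, 9, 18, 16, 17, 19]
  invFun := ![5, 7, 1, 4, 3, 2, 0, 6, 13, 15, 9, 12, 11, 10, 8, 14, 17, 18, 16, 19]
  left_inv := by decide +kernel
  right_inv := by decide +kernel

/-- a permutation -/
def p20k : Q20 where
  toFun := ![0, 1, 3, 5, 7, 2, 4, 6, 8, 9, 11, 13, 15, 10, 12, 14, 18, 16, 17, 19]
  invFun := ![0, 1, 5, 2, 6, 3, 7, 4, 8, 9, 13, 10, 14, 11, 15, 12, 17, 18, 16, 19]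
  left_inv := by decide +kernel
  right_inv := by decide +kernel

/-- a permutation -/
def p20y : Q20 where
  toFun := ![8, 19, 5, 2, 6, 3, 7, 4, 9, 1, 13, 10, 14, 11, 15, 12, 17, 18, 16, 0]
  invFun := ![19, 9, 3, 5, 7, 2, 4, 6, 0, 8, 11, 13, 15, 10, 12, 14, 18, 16, 17, 1]
  left_inv := by decide +kernel
  right_inv := by decide +kernel

/-- a permutation -/
def p20y2 : Q20 where
  toFun := ![9, 0, 3, 5, 7, 2, 4, 6, 1, 19, 11, 13, 15, 10, 12, 14, 18, 16, 17, 8]
  invFun := ![1, 8, 5, 2, 6, 3, 7, 4, 19, 0, 13, 10, 14, 11, 15, 12, 17, 18, 16, 9]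
  left_inv := by decide +kernel
  right_inv := by decide +kernel

/-- a permutation -/
def p20y4 : Q20 where
  toFun := ![19, 9, 5, 2, 6, 3, 7, 4, 0, 8, 13, 10, 14, 11, 15, 12, 17, 18, 16, 1]
  invFun := ![8, 19, 3, 5, 7, 2, 4, 6, 9, 1, 11, 13, 15, 10, 12, 14, 18, 16, 17, 0]
  left_inv := by decide +kernel
  right_inv := by decide +kernel

/-- a permutation -/
def p20q : Q20 where
  toFun := ![9, 19, 4, 7, 5, 6, 3, 2, 8, 0, 12, 15, 13, 14, 11, 10, 18, 16, 17, 1]
  invFun := ![9, 19, 7, 6, 2, 4, 5, 3, 8, 0, 15, 14, 10, 12, 13, 11, 17, 18, 16, 1]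
  left_inv := by decide +kernel
  right_inv := by decide +kernel

/-- images of the generators of the first factor -/
def xPA : ℕ → Q20
  | 0 => p20a
  | 1 => p20b
  | 2 => p20c
  | 3 => p20d
  | _ => 1

/-- images of the generators of the second factor -/
def xPB : ℕ → Q20
  | 0 => p20a
  | 1 => p20k
  | 2 => p20y
  | 3 => p20y2
  | 4 => p20y4
  | 5 => p20q
  | _ => 1

theorem rPA : ∀ r ∈ FA.tris, xPA r.1 * xPA r.2.1 = xPA r.2.2 := by decide +kernel
theorem rPB : ∀ r ∈ FB.tris, xPB r.1 * xPB r.2.1 = xPB r.2.2 := by decide +kernel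

/-- the representation of the first factor -/
def hPA : (cx DA_ok).Pi1 →* Q20 := hom DA_ok (FT.sys FA_ok rfl xPA rPA) KA_ok (fun _ _ => rfl)
/-- the representation of the second factor -/
def hPB : (cx DB_ok).Pi1 →* Q20 := hom DB_ok (FT.sys FB_ok rfl xPB rPB) KB_ok (fun _ _ => rfl)

theorem hPA_gE (e : ℕ) (he : e < 4) : hPA (gE' DA_ok e) = xPA e := by
  rw [gE'_eq DA_ok e he, hPA, hom_gE]
  exact FT.f_cg xPA FA_ok (s := e) he

theorem hPB_gE (e : ℕ) (he : e < 6) : hPB (gE' DB_ok e) = xPB e := by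
  rw [gE'_eq DB_ok e he, hPB, hom_gE]
  exact FT.f_cg xPB FB_ok (s := e) he

theorem hPA_f (i : ℕ) (hi : i < FA.n) : hPA (FA.f (gE' DA_ok) i) = FA.f xPA i :=
  map_f hPA FA_ok (gE' DA_ok) xPA (fun s hs => hPA_gE s hs) i hi

theorem hPB_f (i : ℕ) (hi : i < FB.n) : hPB (FB.f (gE' DB_ok) i) = FB.f xPB i :=
  map_f hPB FB_ok (gE' DB_ok) xPB (fun s hs => hPB_gE s hs) i hi

theorem hPA_inj : Function.Injective hPA := by
  rw [injective_iff_map_eq_one]
  intro g hg
  obtain ⟨i, hi, rfl⟩ := all_A g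
  rw [hPA_f i hi] at hg
  have h1 : ∀ i < 24, FA.f xPA i = 1 → i = 0 := by decide +kernel
  rw [h1 i hi hg]
  rfl

theorem hPB_inj : Function.Injective hPB := by
  rw [injective_iff_map_eq_one]
  intro g hg
  obtain ⟨i, hi, rfl⟩ := all_B g
  rw [hPB_f i hi] at hg
  have h1 : ∀ i < 30, FB.f xPB i = 1 → i = 0 := by decide +kernel
  rw [h1 i hi hg]
  rfl

theorem p20a6 : p20a ^ 6 = 1 := by decide +kernel

/-- the representations -/
def hPG : ∀ b, GG b →* Q20
  | false => hPA
  | true => hPB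

/-- the finite quotient of the amalgam -/
def tauP : PP →* Q20 :=
  Monoid.PushoutI.lift hPG (pow6 p20a p20a6) (by
    intro b
    apply z6_ext
    rw [pow6_one]
    cases b with
    | false =>
      change hPA (pow6 (gE' DA_ok 0) tA6 (Multiplicative.ofAdd 1)) = _
      rw [pow6_one]
      exact hPA_gE 0 (by norm_num)
    | true =>
      change hPB (pow6 (gE' DB_ok 0) tB6 (Multiplicative.ofAdd 1)) = _
      rw [pow6_one]
      exact hPB_gE 0 (by norm_num))

theorem tauP_inj : ∀ b, Function.Injective (fun g : GG b => tauP (Monoid.PushoutI.of b g))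
  | false => by
    intro x y hxy
    have h : ∀ g : GG false, tauP (Monoid.PushoutI.of false g) = hPA g := fun g =>
      Monoid.PushoutI.lift_of hPG (pow6 p20a p20a6) _ (i := false) g
    apply hPA_inj
    have := hxy
    simp only [h] at this
    exact this
  | true => by
    intro x y hxy
    have h : ∀ g : GG true, tauP (Monoid.PushoutI.of true g) = hPB g := fun g =>
      Monoid.PushoutI.lift_of hPG (pow6 p20a p20a6) _ (i := true) g
    apply hPB_inj
    have := hxy
    simp only [h] at this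
    exact this

theorem virtuallyFree_PP : VirtuallyFree PP := virtuallyFree_of tauP phi_inj tauP_inj

theorem VirtuallyFree.of_equiv {G H : Type} [Group G] [Group H] (e : G ≃* H)
    (h : VirtuallyFree H) : VirtuallyFree G := by
  obtain ⟨K, hK, hf⟩ := h
  refine ⟨K.map (e.symm : H →* G), ?_, IsFreeGroup.ofMulEquiv (e.symm.subgroupMap K)⟩
  have : (K.map (e.symm : H →* G)).index = K.index := Subgroup.index_map_equiv K e.symm
  exact ⟨by rw [this]; exact hK.index_ne_zero⟩

theorem virtuallyFree_X : VirtuallyFree (cx DX_ok).Pi1 := VirtuallyFree.of_equiv piEquiv virtuallyFree_PP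

end

end Pool.Agent.H832R2
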